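import Mathlib

set_option autoImplicit false

namespace Pool.Agent.V119.CC

open Filter Topology

theorem err_tendsto (N d : ℕ) (hN : 1 ≤ N) (hd : 1 ≤ d) (p : ℕ → ℕ) (hp : ∀ n, 0 < p n)
    (hlow : ∀ n, N ^ n ≤ p n * (n + 1) ^ N) :
    Tendsto (fun n : ℕ => (((N ^ d - 1) ^ (n / d) * N ^ (n % d) : ℕ) : ℝ) / (p n : ℝ)) atTop (𝓝 0) := by
  set θ : ℝ := 1 - 1 / (N : ℝ) ^ d with hθ
  have hN' : (1 : ℝ) ≤ N := by exact_mod_cast hN
  have hNd : (1 : ℝ) ≤ (N : ℝ) ^ d := one_le_pow₀ hN'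
  have hθ0 : 0 ≤ θ := by
    rw [hθ, sub_nonneg, div_le_one (by linarith)]; exact hNd
  have hθ1 : θ < 1 := by
    rw [hθ]
    have : 0 < 1 / (N : ℝ) ^ d := by positivity
    linarith
  -- basic sequence
  have h1 : Tendsto (fun q : ℕ => (q : ℝ) ^ N * θ ^ q) atTop (𝓝 0) :=
    tendsto_pow_const_mul_const_pow_of_abs_lt_one N (by rw [abs_of_nonneg hθ0]; exact hθ1)
  have h2 : Tendsto (fun n : ℕ => n / d) atTop atTop := by
    apply Filter.tendsto_atTop.2
    intro b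
    filter_upwards [Filter.eventually_ge_atTop (b * d)] with n hn
    exact (Nat.le_div_iff_mul_le (by omega)).2 hn
  have h3 : Tendsto (fun n : ℕ => (2 * (d : ℝ)) ^ N * (((n / d : ℕ) : ℝ) ^ N * θ ^ (n / d))) atTop (𝓝 0) := by
    have := (h1.comp h2).const_mul ((2 * (d : ℝ)) ^ N)
    rw [mul_zero] at this
    exact this
  apply squeeze_zero' (g := fun n : ℕ => (2 * (d : ℝ)) ^ N * (((n / d : ℕ) : ℝ) ^ N * θ ^ (n / d)))
    _ _ h3
  · exact Filter.Eventually.of_forall fun n => by positivity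
  · filter_upwards [Filter.eventually_ge_atTop d] with n hn
    have hpn : (0 : ℝ) < p n := by exact_mod_cast hp n
    rw [div_le_iff₀ hpn]
    have hq : 1 ≤ n / d := (Nat.one_le_div_iff (by omega)).2 hn
    -- the error term
    have he : (((N ^ d - 1) ^ (n / d) * N ^ (n % d) : ℕ) : ℝ) = (N : ℝ) ^ n * θ ^ (n / d) := by
      have h4 : ((N ^ d - 1 : ℕ) : ℝ) = (N : ℝ) ^ d * θ := by
        rw [Nat.cast_sub (Nat.one_le_pow _ _ (by omega)), hθ]
        push_cast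
        field_simp
      have h5 : (N : ℝ) ^ n = ((N : ℝ) ^ d) ^ (n / d) * (N : ℝ) ^ (n % d) := by
        rw [← pow_mul, ← pow_add, Nat.div_add_mod]
      rw [Nat.cast_mul, Nat.cast_pow, h4, Nat.cast_pow, h5, mul_pow]
      ring
    rw [he]
    have h6 : (N : ℝ) ^ n ≤ (p n : ℝ) * ((n : ℝ) + 1) ^ N := by exact_mod_cast hlow n
    have h7 : ((n : ℝ) + 1) ≤ 2 * (d : ℝ) * ((n / d : ℕ) : ℝ) := by
      have h8 : n < d * (n / d + 1) := by
        have := Nat.lt_mul_div_succ n (show 0 < d by omega)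
        exact this
      have h9 : n + 1 ≤ 2 * d * (n / d) := by
        calc n + 1 ≤ d * (n / d + 1) := h8
          _ = d * (n / d) + d * 1 := by ring
          _ ≤ d * (n / d) + d * (n / d) := by
              apply Nat.add_le_add_left
              exact Nat.mul_le_mul_left _ hq
          _ = 2 * d * (n / d) := by ring
      exact_mod_cast h9
    have h10 : ((n : ℝ) + 1) ^ N ≤ (2 * (d : ℝ)) ^ N * ((n / d : ℕ) : ℝ) ^ N := by
      rw [← mul_pow]
      exact pow_le_pow_left₀ (by positivity) h7 _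
    calc (N : ℝ) ^ n * θ ^ (n / d) ≤ ((p n : ℝ) * ((n : ℝ) + 1) ^ N) * θ ^ (n / d) :=
          mul_le_mul_of_nonneg_right h6 (by positivity)
      _ ≤ ((p n : ℝ) * ((2 * (d : ℝ)) ^ N * ((n / d : ℕ) : ℝ) ^ N)) * θ ^ (n / d) := by
          apply mul_le_mul_of_nonneg_right _ (by positivity)
          exact mul_le_mul_of_nonneg_left h10 hpn.le
      _ = _ := by ring

theorem limit_lemma (N d : ℕ) (hN : 1 ≤ N) (hd : 1 ≤ d) (p j j' c δ : ℕ → ℕ) (hp : ∀ n, 0 < p n)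
    (hlc : ∀ n, p (n + 1) ^ 2 ≤ p n * p (n + 2))
    (hlow : ∀ n, N ^ n ≤ p n * (n + 1) ^ N)
    (hj : ∀ n, p n ≤ j n + (N ^ d - 1) ^ (n / d) * N ^ (n % d))
    (hj' : ∀ n, p (n + 1) ≤ j' n + (N ^ d - 1) ^ ((n + 1) / d) * N ^ ((n + 1) % d))
    (hδ1 : ∀ n, j n ≤ δ n) (hδ2 : ∀ n, δ n ≤ p n)
    (hc1 : ∀ n, j' n ≤ c n) (hc2 : ∀ n, c n ≤ p (n + 1)) :
    (∀ᶠ n in atTop, 0 < c n) ∧
    ∃ β : ℝ, Tendsto (fun n => (δ n : ℝ) / (c n : ℝ)) atTop (𝓝 β) := by
  set x : ℕ → ℝ := fun n => (p n : ℝ) / (p (n + 1) : ℝ) with hx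
  set u : ℕ → ℝ := fun n => (((N ^ d - 1) ^ (n / d) * N ^ (n % d) : ℕ) : ℝ) / (p n : ℝ) with hu
  have hu0 : Tendsto u atTop (𝓝 0) := err_tendsto N d hN hd p hp hlow
  have hpR : ∀ n, (0 : ℝ) < p n := fun n => by exact_mod_cast hp n
  have hanti : Antitone x := by
    apply antitone_nat_of_succ_le
    intro n
    show (p (n + 1) : ℝ) / (p (n + 2) : ℝ) ≤ (p n : ℝ) / (p (n + 1) : ℝ)
    rw [div_le_div_iff₀ (hpR _) (hpR _)]
    have := hlc n
    have h' : (p (n + 1) : ℝ) ^ 2 ≤ (p n : ℝ) * (p (n + 2) : ℝ) := by exact_mod_cast this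
    nlinarith
  have hbdd : BddBelow (Set.range x) := ⟨0, by
    rintro _ ⟨n, rfl⟩
    exact div_nonneg (hpR _).le (hpR _).le⟩
  have hxlim := tendsto_atTop_ciInf hanti hbdd
  set β := ⨅ i, x i with hβ
  have hu1 : Tendsto (fun n => u (n + 1)) atTop (𝓝 0) := (tendsto_add_atTop_iff_nat 1).2 hu0
  have hlo : Tendsto (fun n => x n - u n * x n) atTop (𝓝 β) := by
    have := hxlim.sub (hu0.mul hxlim)
    simpa using this
  have hhi : Tendsto (fun n => x n / (1 - u (n + 1))) atTop (𝓝 β) := by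
    have h1 : Tendsto (fun n => 1 - u (n + 1)) atTop (𝓝 (1 - 0)) := tendsto_const_nhds.sub hu1
    have h2 := hxlim.div h1 (by norm_num)
    rw [sub_zero, div_one] at h2
    exact h2
  have hue : ∀ n, u n * (p n : ℝ) = (((N ^ d - 1) ^ (n / d) * N ^ (n % d) : ℕ) : ℝ) := by
    intro n
    exact div_mul_cancel₀ _ (hpR n).ne'
  have hjR : ∀ n, (p n : ℝ) - u n * p n ≤ (j n : ℝ) := by
    intro n
    rw [hue]
    have := hj n
    have h' : (p n : ℝ) ≤ (j n : ℝ) + (((N ^ d - 1) ^ (n / d) * N ^ (n % d) : ℕ) : ℝ) := by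
      exact_mod_cast this
    linarith
  have hjR' : ∀ n, (p (n + 1) : ℝ) - u (n + 1) * p (n + 1) ≤ (j' n : ℝ) := by
    intro n
    rw [hue]
    have := hj' n
    have h' : (p (n + 1) : ℝ) ≤ (j' n : ℝ) +
        (((N ^ d - 1) ^ ((n + 1) / d) * N ^ ((n + 1) % d) : ℕ) : ℝ) := by
      exact_mod_cast this
    linarith
  have hev : ∀ᶠ n in atTop, u (n + 1) < 1 := hu1.eventually (gt_mem_nhds (by norm_num))
  refine ⟨?_, β, ?_⟩
  · filter_upwards [hev] with n hn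
    have h1 : (p (n + 1) : ℝ) - u (n + 1) * p (n + 1) ≤ (j' n : ℝ) := hjR' _
    have h2 : (j' n : ℝ) ≤ c n := by exact_mod_cast hc1 n
    have h3 : 0 < (p (n + 1) : ℝ) * (1 - u (n + 1)) := mul_pos (hpR _) (by linarith)
    have h4 : (0 : ℝ) < c n := by nlinarith
    exact_mod_cast h4
  refine tendsto_of_tendsto_of_tendsto_of_le_of_le' hlo hhi ?_ ?_
  · filter_upwards [hev] with n hn
    have hcpos : (0 : ℝ) < c n := by
      have h1 : (p (n + 1) : ℝ) - u (n + 1) * p (n + 1) ≤ (j' n : ℝ) := hjR' _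
      have h2 : (j' n : ℝ) ≤ c n := by exact_mod_cast hc1 n
      have h3 : 0 < (p (n + 1) : ℝ) * (1 - u (n + 1)) := mul_pos (hpR _) (by linarith)
      nlinarith
    rw [le_div_iff₀ hcpos]
    have h4 : (c n : ℝ) ≤ p (n + 1) := by exact_mod_cast hc2 n
    have h5 : (x n - u n * x n) * p (n + 1) = p n - u n * p n := by
      show ((p n : ℝ) / (p (n + 1) : ℝ) - u n * ((p n : ℝ) / (p (n + 1) : ℝ))) * p (n + 1) = _
      have := (hpR (n + 1)).ne'
      field_simp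
    have h6 : (p n : ℝ) - u n * p n ≤ δ n := le_trans (hjR n) (by exact_mod_cast hδ1 n)
    by_cases hs : 0 ≤ x n - u n * x n
    · calc (x n - u n * x n) * c n ≤ (x n - u n * x n) * p (n + 1) :=
            mul_le_mul_of_nonneg_left h4 hs
        _ ≤ δ n := by rw [h5]; exact h6
    · push Not at hs
      have h7 : (x n - u n * x n) * c n ≤ 0 := mul_nonpos_of_nonpos_of_nonneg hs.le hcpos.le
      have h8 : (0 : ℝ) ≤ δ n := Nat.cast_nonneg _
      linarith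
  · filter_upwards [hev] with n hn
    have h1 : (p (n + 1) : ℝ) - u (n + 1) * p (n + 1) ≤ (j' n : ℝ) := hjR' _
    have h2 : (j' n : ℝ) ≤ c n := by exact_mod_cast hc1 n
    have h3 : 0 < (p (n + 1) : ℝ) * (1 - u (n + 1)) := mul_pos (hpR _) (by linarith)
    have hcpos : (0 : ℝ) < c n := by nlinarith
    have h4 : (p (n + 1) : ℝ) * (1 - u (n + 1)) ≤ c n := by nlinarith
    have h5 : (δ n : ℝ) ≤ p n := by exact_mod_cast hδ2 n
    calc (δ n : ℝ) / c n ≤ (p n : ℝ) / c n := div_le_div_of_nonneg_right h5 hcpos.le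
      _ ≤ (p n : ℝ) / ((p (n + 1) : ℝ) * (1 - u (n + 1))) :=
          div_le_div_of_nonneg_left (hpR n).le h3 h4
      _ = x n / (1 - u (n + 1)) := by
          show _ = ((p n : ℝ) / (p (n + 1) : ℝ)) / (1 - u (n + 1))
          rw [div_div]

end Pool.Agent.V119.CC
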