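import Pool.Agent.V119.CC.Cond
import Pool.Agent.V119.CC.Limit

set_option autoImplicit false
set_option linter.unusedSectionVars false

namespace Pool.Agent.V119.CC

open Matrix Finset

section final

variable {k : ℕ} {F : Type} [Field F]

/-- span of the multilinear monomial functions -/
def RR (k : ℕ) (F : Type) [Field F] (n : ℕ) :
    Submodule F ((Fin n → Matrix (Fin k) (Fin k) F) → Matrix (Fin k) (Fin k) F) :=
  Submodule.span F (Set.range (fun σ : Equiv.Perm (Fin n) =>
              fun x : Fin n → Matrix (Fin k) (Fin k) F =>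
                (List.ofFn (fun i => x (σ i))).prod))

theorem enum_ofFn {n : ℕ} (σ : Equiv.Perm (Fin n)) : Enum (List.ofFn σ) := by
  refine ⟨List.nodup_ofFn.2 σ.injective, ?_⟩
  intro i
  rw [List.mem_ofFn]
  exact ⟨σ.symm i, by simp⟩

theorem gen_eq {n : ℕ} (σ : Equiv.Perm (Fin n)) (x : Fin n → Matrix (Fin k) (Fin k) F) :
    (List.ofFn (fun i => x (σ i))).prod = mon (List.ofFn σ) x := by
  unfold mon
  rw [List.map_ofFn]
  rfl

theorem mon_mem_RR {n : ℕ} {l : List (Fin n)} (hl : Enum l) :
    (fun x : Fin n → Matrix (Fin k) (Fin k) F => mon l x) ∈ RR k F n := by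
  have hlen : l.length = n := by
    have h1 : l.toFinset = Finset.univ := by
      ext i; simp [hl.2 i]
    have h2 := List.toFinset_card_of_nodup hl.1
    rw [h1, Finset.card_univ, Fintype.card_fin] at h2
    exact h2.symm
  have hinj : Function.Injective (fun i : Fin n => l.get (Fin.cast hlen.symm i)) := by
    intro i j hij
    have := (List.nodup_iff_injective_get.1 hl.1) hij
    exact Fin.cast_injective _ this
  let σ : Equiv.Perm (Fin n) := Equiv.ofBijective _ (Finite.injective_iff_bijective.1 hinj)
  have hσ : List.ofFn σ = l := by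
    apply List.ext_get
    · rw [List.length_ofFn, hlen]
    · intro i h1 h2
      rw [List.get_ofFn]
      rfl
  apply Submodule.subset_span
  refine ⟨σ, ?_⟩
  funext x
  show (List.ofFn (fun i => x (σ i))).prod = _
  rw [gen_eq, hσ]

/-- the space of trace functions -/
def BB (k : ℕ) (F : Type) [Field F] (ι : Type) [Fintype ι] [DecidableEq ι] :
    Submodule F ((ι → Matrix (Fin k) (Fin k) F) → F) := (AA k F ι).map (fnL k F ι)

theorem trace_mon_mem_BB {ι : Type} [Fintype ι] [DecidableEq ι] {l : List ι} (hl : Enum l) :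
    (fun X : ι → Matrix (Fin k) (Fin k) F => (mon l X).trace) ∈ BB k F ι := by
  by_cases h0 : l = []
  · subst h0
    have hem : IsEmpty ι := ⟨fun a => List.not_mem_nil (hl.2 a)⟩
    have h1 : (fun X : ι → Matrix (Fin k) (Fin k) F => (mon ([] : List ι) X).trace) =
        fnL k F ι ((k : F) • PM k F (1 : Equiv.Perm ι)) := by
      rw [map_smul]
      funext X
      show _ = (k : F) * fn (PM k F 1) X
      rw [fn_PM, mon_nil]
      unfold trf
      simp
    rw [h1]
    exact Submodule.mem_map_of_mem (Submodule.smul_mem _ _ (PM_mem _))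
  · obtain ⟨σ, h⟩ := exists_perm_of_word k ι l hl h0
    have h1 : (fun X : ι → Matrix (Fin k) (Fin k) F => (mon l X).trace) =
        fnL k F ι (PM k F σ) := by
      funext X
      show _ = fn (PM k F σ) X
      rw [fn_PM, h]
    rw [h1]
    exact Submodule.mem_map_of_mem (PM_mem _)

theorem finrank_BB {ι : Type} [Fintype ι] [DecidableEq ι] :
    Module.finrank F (BB k F ι) = Module.finrank F (AA k F ι) :=
  (LinearEquiv.finrank_eq (Submodule.equivMapOfInjective _ fnL_injective _)).symm

/-- `f ↦ tr (f x₀)` -/
def Tn (k : ℕ) (F : Type) [Field F] (n : ℕ) :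
    ((Fin n → Matrix (Fin k) (Fin k) F) → Matrix (Fin k) (Fin k) F) →ₗ[F]
      ((Option (Fin n) → Matrix (Fin k) (Fin k) F) → F) where
  toFun := fun f X => (f (fun i => X (some i)) * X none).trace
  map_add' := by
    intro f g
    funext X
    simp only [Pi.add_apply, add_mul, Matrix.trace_add]
  map_smul' := by
    intro c f
    funext X
    simp only [Pi.smul_apply, Matrix.smul_mul, Matrix.trace_smul, RingHom.id_apply]

theorem trace_mul_single' (A : Matrix (Fin k) (Fin k) F) (i j : Fin k) :
    (A * Matrix.single j i (1 : F)).trace = A i j := by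
  rw [Matrix.trace_mul_comm]
  unfold Matrix.trace
  rw [Finset.sum_eq_single j]
  · simp
  · intro b _ hb
    rw [Matrix.diag_apply, Matrix.mul_apply, Finset.sum_eq_zero]
    intro a _
    rw [Matrix.single_apply, if_neg, zero_mul]
    rintro ⟨h, -⟩; exact hb h.symm
  · intro h; exact absurd (Finset.mem_univ _) h

theorem Tn_injective (n : ℕ) : Function.Injective (Tn k F n) := by
  rw [injective_iff_map_eq_zero]
  intro f hf
  funext x
  apply Matrix.ext
  intro i j
  have h1 := congrFun hf (fun o => o.elim (Matrix.single j i (1 : F)) x)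
  have h2 : Tn k F n f (fun o => o.elim (Matrix.single j i (1 : F)) x) =
      (f x * Matrix.single j i (1 : F)).trace := rfl
  rw [h2, trace_mul_single'] at h1
  exact h1

theorem RR_map_Tn_le (n : ℕ) : (RR k F n).map (Tn k F n) ≤ BB k F (Option (Fin n)) := by
  unfold RR
  rw [Submodule.map_span_le]
  rintro _ ⟨σ, rfl⟩
  have h1 : Tn k F n (fun x => (List.ofFn (fun i => x (σ i))).prod) =
      fun X => (mon ((List.ofFn σ).map some ++ [none]) X).trace := by
    funext X
    show ((List.ofFn (fun i => X (some (σ i)))).prod * X none).trace = _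
    rw [mon_append, mon_map, mon_cons, mon_nil, mul_one, ← gen_eq]
  rw [h1]
  apply trace_mon_mem_BB
  have h2 := enum_ofFn σ
  refine ⟨?_, ?_⟩
  · rw [List.nodup_append]
    refine ⟨h2.1.map (Option.some_injective _), by simp, ?_⟩
    intro a ha b hb
    rw [List.mem_map] at ha
    obtain ⟨i, -, rfl⟩ := ha
    rw [List.mem_singleton] at hb
    rw [hb]; simp
  · rintro (_ | i)
    · simp
    · rw [List.mem_append, List.mem_map]
      exact Or.inl ⟨i, h2.2 i, rfl⟩

theorem FC_le_map_Tn (n : ℕ) : FC k F (Option (Fin n)) ≤ (RR k F n).map (Tn k F n) := by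
  unfold FC
  rw [Submodule.span_le]
  rintro _ ⟨l, hl, rfl⟩
  rw [enum_iff] at hl
  obtain ⟨l1, l2, rfl⟩ := List.append_of_mem (hl.2 none)
  have hn : none ∉ l2 ++ l1 ∧ (l2 ++ l1).Nodup := by
    have h1 := hl.1
    have h2 : (l1 ++ none :: l2).Perm (none :: (l2 ++ l1)) := by
      refine List.perm_middle.trans ?_
      exact List.Perm.cons _ List.perm_append_comm
    have h3 := (h2.nodup_iff).1 h1
    exact List.nodup_cons.1 h3
  obtain ⟨L, hL⟩ : ∃ L : List (Fin n), l2 ++ l1 = L.map some := by
    refine ⟨(l2 ++ l1).filterMap id, ?_⟩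
    have : ∀ l : List (Option (Fin n)), none ∉ l → l = (l.filterMap id).map some := by
      intro l
      induction l with
      | nil => intro _; rfl
      | cons a l ih2 =>
        intro hn
        rcases a with _ | a
        · exact absurd List.mem_cons_self hn
        · rw [List.filterMap_cons]
          simp only [id, List.map_cons]
          congr 1
          exact ih2 (fun h => hn (List.mem_cons_of_mem _ h))
    exact this _ hn.1
  have hLE : Enum L := by
    refine ⟨?_, ?_⟩
    · have := hn.2
      rw [hL] at this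
      exact List.Nodup.of_map _ this
    · intro i
      have h1 := hl.2 (some i)
      have h2 : some i ∈ l2 ++ l1 := by
        rw [List.mem_append, List.mem_cons] at h1
        rw [List.mem_append]
        rcases h1 with h1 | h1 | h1
        · exact Or.inr h1
        · cases h1
        · exact Or.inl h1
      rw [hL, List.mem_map] at h2
      obtain ⟨j, hj, hj'⟩ := h2
      rw [← Option.some.inj hj']; exact hj
  refine ⟨fun x => mon L x, mon_mem_RR hLE, ?_⟩
  funext X
  show (mon L (fun i => X (some i)) * X none).trace = _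
  have h1 : mon L (fun i => X (some i)) = mon (l2 ++ l1) X := by rw [hL, mon_map]
  rw [h1, mon_append, mon_append, mon_cons]
  conv_rhs => rw [Matrix.trace_mul_comm, Matrix.mul_assoc, Matrix.trace_mul_comm]

/-- composition with the quotient by the center -/
def Qn (k : ℕ) (F : Type) [Field F] (n : ℕ) :
    ((Fin n → Matrix (Fin k) (Fin k) F) → Matrix (Fin k) (Fin k) F) →ₗ[F]
      ((Fin n → Matrix (Fin k) (Fin k) F) → Matrix (Fin k) (Fin k) F ⧸
        Subalgebra.toSubmodule (Subalgebra.center F (Matrix (Fin k) (Fin k) F))) where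
  toFun := fun f x =>
    Submodule.mkQ (Subalgebra.toSubmodule (Subalgebra.center F (Matrix (Fin k) (Fin k) F))) (f x)
  map_add' := by
    intro f g
    funext x
    simp only [Pi.add_apply, map_add]
  map_smul' := by
    intro c f
    funext x
    simp only [Pi.smul_apply, map_smul, RingHom.id_apply]

/-- the space of multilinear central polynomials modulo identities -/
def VV (k : ℕ) (F : Type) [Field F] (n : ℕ) :
    Submodule F ((Fin n → Matrix (Fin k) (Fin k) F) → Matrix (Fin k) (Fin k) F) :=
  RR k F n ⊓ LinearMap.ker (Qn k F n)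

instance RR_fin (n : ℕ) : Module.Finite F (RR k F n) :=
  FiniteDimensional.span_of_finite F (Set.finite_range _)

theorem rank_nullity (n : ℕ) : Module.finrank F ((RR k F n).map (Qn k F n)) +
    Module.finrank F (VV k F n) = Module.finrank F (RR k F n) := by
  have h := LinearMap.finrank_range_add_finrank_ker ((Qn k F n).domRestrict (RR k F n))
  rw [LinearMap.range_domRestrict] at h
  rw [← h]
  congr 1
  have h1 : (LinearMap.ker ((Qn k F n).domRestrict (RR k F n))).map (RR k F n).subtype =
      VV k F n := by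
    have : LinearMap.ker ((Qn k F n).domRestrict (RR k F n)) =
        (LinearMap.ker (Qn k F n)).comap (RR k F n).subtype := rfl
    rw [this, Submodule.map_comap_subtype]
    rfl
  rw [← h1]
  exact (LinearEquiv.finrank_eq (Submodule.equivMapOfInjective _
    (Submodule.subtype_injective _) _)).symm

/-- pointwise trace -/
def Sn (k : ℕ) (F : Type) [Field F] (n : ℕ) :
    ((Fin n → Matrix (Fin k) (Fin k) F) → Matrix (Fin k) (Fin k) F) →ₗ[F]
      ((Fin n → Matrix (Fin k) (Fin k) F) → F) where
  toFun := fun f X => (f X).trace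
  map_add' := by
    intro f g
    funext X
    simp only [Pi.add_apply, Matrix.trace_add]
  map_smul' := by
    intro c f
    funext X
    simp only [Pi.smul_apply, Matrix.trace_smul, RingHom.id_apply]

theorem mem_center_iff' (A : Matrix (Fin k) (Fin k) F) :
    A ∈ Subalgebra.toSubmodule (Subalgebra.center F (Matrix (Fin k) (Fin k) F)) ↔
      ∃ c : F, A = c • (1 : Matrix (Fin k) (Fin k) F) := by
  rw [Subalgebra.mem_toSubmodule, Subalgebra.mem_center_iff]
  constructor
  · intro h
    by_cases hk : Nonempty (Fin k)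
    · obtain ⟨i0⟩ := hk
      refine ⟨A i0 i0, ?_⟩
      apply Matrix.ext
      intro i j
      have h1 := congrFun (congrFun (h (Matrix.single i0 i (1 : F))) i0) j
      rw [Matrix.smul_apply, Matrix.one_apply, smul_eq_mul]
      have h2 : (Matrix.single i0 i (1 : F) * A) i0 j = A i j := by simp
      have h3 : (A * Matrix.single i0 i (1 : F)) i0 j = if i = j then A i0 i0 else 0 := by
        rw [Matrix.mul_apply, Finset.sum_eq_single i0]
        · rw [Matrix.single_apply]
          by_cases hij : i = j
          · simp [hij]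
          · simp [hij]
        · intro b _ hb
          rw [Matrix.single_apply, if_neg, mul_zero]
          rintro ⟨h4, -⟩; exact hb h4.symm
        · intro h4; exact absurd (Finset.mem_univ _) h4
      rw [h2, h3] at h1
      rw [h1]
      split_ifs <;> simp
    · refine ⟨0, ?_⟩
      apply Matrix.ext
      intro i _
      exact absurd ⟨i⟩ hk
  · rintro ⟨c, rfl⟩ B
    simp

theorem VV_le_pp (hk : (k : F) ≠ 0) (n : ℕ) : Module.finrank F (VV k F n) ≤
    Module.finrank F (AA k F (Fin n)) := by
  rw [← finrank_BB]
  have hmem : ∀ f ∈ VV k F n, Sn k F n f ∈ BB k F (Fin n) := by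
    intro f hf
    have h1 : (RR k F n).map (Sn k F n) ≤ BB k F (Fin n) := by
      unfold RR
      rw [Submodule.map_span_le]
      rintro _ ⟨σ, rfl⟩
      have h1 : Sn k F n (fun x => (List.ofFn (fun i => x (σ i))).prod) =
          fun X => (mon (List.ofFn σ) X).trace := by
        funext X
        show ((List.ofFn (fun i => X (σ i))).prod).trace = _
        rw [gen_eq]
      rw [h1]
      exact trace_mon_mem_BB (enum_ofFn σ)
    exact h1 (Submodule.mem_map_of_mem hf.1)
  have hBfin : Module.Finite F (BB k F (Fin n)) := by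
    unfold BB
    infer_instance
  apply LinearMap.finrank_le_finrank_of_injective (f := (Sn k F n).restrict hmem)
  rw [injective_iff_map_eq_zero]
  rintro ⟨f, hf⟩ h0
  apply Subtype.ext
  funext x
  show f x = 0
  have h1 : (f x).trace = 0 := by
    have := congrArg Subtype.val h0
    exact congrFun this x
  have h2 : f x ∈ Subalgebra.toSubmodule (Subalgebra.center F (Matrix (Fin k) (Fin k) F)) := by
    have h3 : Qn k F n f = 0 := hf.2
    have h4 := congrFun h3 x
    exact (Submodule.Quotient.mk_eq_zero _).1 h4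
  obtain ⟨c, hc⟩ := (mem_center_iff' _).1 h2
  rw [hc, Matrix.trace_smul, Matrix.trace_one, Fintype.card_fin, smul_eq_mul] at h1
  rw [hc, (mul_eq_zero.1 h1).resolve_right hk, zero_smul]

theorem RR_le_pp (n : ℕ) : Module.finrank F (RR k F n) ≤
    Module.finrank F (AA k F (Option (Fin n))) := by
  rw [← finrank_BB]
  have h1 : Module.finrank F (RR k F n) = Module.finrank F ((RR k F n).map (Tn k F n)) :=
    LinearEquiv.finrank_eq (Submodule.equivMapOfInjective _ (Tn_injective n) _)
  have hBfin : Module.Finite F (BB k F (Option (Fin n))) := by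
    unfold BB
    infer_instance
  rw [h1]
  exact Submodule.finrank_mono (RR_map_Tn_le n)

variable {DZ : Matrix ((Fin (k * k) ⊕ Fin (k * k)) → Fin k) ((Fin (k * k) ⊕ Fin (k * k)) → Fin k) F}

theorem JJ_le_RR (hk : (k : F) ≠ 0)
    (hDZ : ∀ X, fn DZ X = Df (fun j => X (Sum.inl j)) (fun j => X (Sum.inr j))) (n m : ℕ) :
    Module.finrank F (JJ k F (Option (Fin n)) m DZ) ≤ Module.finrank F (RR k F n) := by
  have h1 : Module.finrank F (RR k F n) = Module.finrank F ((RR k F n).map (Tn k F n)) :=
    LinearEquiv.finrank_eq (Submodule.equivMapOfInjective _ (Tn_injective n) _)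
  have h2 : Module.finrank F (JJ k F (Option (Fin n)) m DZ) =
      Module.finrank F ((JJ k F (Option (Fin n)) m DZ).map (fnL k F (Option (Fin n)))) :=
    LinearEquiv.finrank_eq (Submodule.equivMapOfInjective _ fnL_injective _)
  rw [h1, h2]
  apply Submodule.finrank_mono
  refine le_trans ?_ (FC_le_map_Tn n)
  unfold JJ
  rw [Submodule.map_span_le]
  rintro _ ⟨p, rfl⟩
  exact place_mem hk hDZ p.1 p.2

theorem JJ_le_VV (hk : (k : F) ≠ 0)
    (hDZ : ∀ X, fn DZ X = Df (fun j => X (Sum.inl j)) (fun j => X (Sum.inr j))) (n m : ℕ) :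
    Module.finrank F (JJ k F (Fin n) m DZ) ≤ Module.finrank F (VV k F n) := by
  have h2 : Module.finrank F (JJ k F (Fin n) m DZ) =
      Module.finrank F ((JJ k F (Fin n) m DZ).map (fnL k F (Fin n))) :=
    LinearEquiv.finrank_eq (Submodule.equivMapOfInjective _ fnL_injective _)
  rw [h2]
  let U : ((Fin n → Matrix (Fin k) (Fin k) F) → F) →ₗ[F]
      ((Fin n → Matrix (Fin k) (Fin k) F) → Matrix (Fin k) (Fin k) F) :=
    { toFun := fun g x => g x • (1 : Matrix (Fin k) (Fin k) F)
      map_add' := by
        intro f g; funext x; simp only [Pi.add_apply, add_smul]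
      map_smul' := by
        intro c f; funext x
        simp only [Pi.smul_apply, smul_eq_mul, mul_smul, RingHom.id_apply] }
  have hU : Function.Injective U := by
    rw [injective_iff_map_eq_zero]
    intro g hg
    funext x
    have h3 : (g x • (1 : Matrix (Fin k) (Fin k) F)).trace = 0 := by
      have := congrFun hg x
      have h4 : g x • (1 : Matrix (Fin k) (Fin k) F) = 0 := this
      rw [h4, Matrix.trace_zero]
    rw [Matrix.trace_smul, Matrix.trace_one, Fintype.card_fin, smul_eq_mul] at h3
    exact (mul_eq_zero.1 h3).resolve_right hk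
  have h3 : Module.finrank F ((JJ k F (Fin n) m DZ).map (fnL k F (Fin n))) =
      Module.finrank F (((JJ k F (Fin n) m DZ).map (fnL k F (Fin n))).map U) :=
    LinearEquiv.finrank_eq (Submodule.equivMapOfInjective _ hU _)
  have hVfin : Module.Finite F (VV k F n) := by
    unfold VV
    exact Submodule.finiteDimensional_of_le
      (inf_le_left : RR k F n ⊓ LinearMap.ker (Qn k F n) ≤ RR k F n)
  rw [h3]
  apply Submodule.finrank_mono
  rw [← Submodule.map_comp]
  unfold JJ
  rw [Submodule.map_span_le]
  rintro _ ⟨p, rfl⟩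
  set g : (Fin n → Matrix (Fin k) (Fin k) F) → F := fn (plc p.1 DZ (PM k F p.2)) with hg
  show (fun x => g x • (1 : Matrix (Fin k) (Fin k) F)) ∈ VV k F n
  refine ⟨?_, ?_⟩
  · obtain ⟨f, hf, hfT⟩ := FC_le_map_Tn n (place_mem_option hk hDZ p.1 p.2)
    have h4 : Tn k F n f = Tn k F n (fun x => g x • (1 : Matrix (Fin k) (Fin k) F)) := by
      rw [hfT]
      funext X
      show g (fun i => X (some i)) * (X none).trace =
        ((g (fun i => X (some i)) • (1 : Matrix (Fin k) (Fin k) F)) * X none).trace
      rw [Matrix.smul_mul, Matrix.one_mul, Matrix.trace_smul, smul_eq_mul]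
    have h5 := Tn_injective n h4
    rw [← h5]
    exact hf
  · show Qn k F n (fun x => g x • (1 : Matrix (Fin k) (Fin k) F)) = 0
    funext x
    show Submodule.mkQ _ (g x • (1 : Matrix (Fin k) (Fin k) F)) = 0
    apply (Submodule.Quotient.mk_eq_zero _).2
    exact (mem_center_iff' _).2 ⟨g x, rfl⟩

end final

/-! ### The final statement -/

theorem final_result (F : Type) [Field F] [CharZero F] (k : ℕ) (hk : 1 ≤ k) :
    ∃ α : ℝ, 0 ≤ α ∧ α ≤ 1 ∧
      Filter.Tendsto (fun n : ℕ => (Module.finrank F ((RR k F n).map (Qn k F n)) : ℝ) /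
        (Module.finrank F (RR k F n) : ℝ)) Filter.atTop (nhds α) := by
  obtain ⟨DZ, hfn, hmem, hne⟩ := exists_cond k hk
  have hkF : (k : F) ≠ 0 := Nat.cast_ne_zero.2 (by omega)
  set d := k * k + k * k with hd
  have hN : 1 ≤ k * k := Nat.mul_pos hk hk
  have hcardκ : Fintype.card (Fin (k * k) ⊕ Fin (k * k)) = d := by
    rw [Fintype.card_sum, Fintype.card_fin]
  set DR := DZ.map (fun z : ℤ => (z : ℝ)) with hDR
  set DF := DZ.map (fun z : ℤ => (z : F)) with hDF
  -- transfer of the dimensions between `F` and `ℝ`
  have hAA : ∀ (ι : Type) [Fintype ι] [DecidableEq ι],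
      Module.finrank F (AA k F ι) = Module.finrank ℝ (AA k ℝ ι) := by
    intro ι _ _
    have h1 := finrank_cast_eq F ℝ (fun σ : Equiv.Perm ι => PM k ℤ σ)
    have h2 : ∀ (K : Type) [Field K], (castF K (fun σ : Equiv.Perm ι => PM k ℤ σ)) =
        fun σ => PM k K σ := by
      intro K _
      funext σ
      apply Matrix.ext
      intro r c
      show ((PM k ℤ σ r c : ℤ) : K) = PM k K σ r c
      rw [PM_apply, PM_apply]
      split_ifs <;> simp
    rw [h2, h2] at h1
    exact h1
  have hJJ : ∀ (ι : Type) [Fintype ι] [DecidableEq ι] (m : ℕ),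
      Module.finrank F (JJ k F ι m DF) = Module.finrank ℝ (JJ k ℝ ι m DR) := by
    intro ι _ _ m
    have h1 := finrank_cast_eq F ℝ (fun p : ((Fin (k * k) ⊕ Fin (k * k)) ⊕ Fin m ≃ ι) ×
      Equiv.Perm (Fin m) => plc p.1 DZ (PM k ℤ p.2))
    have h2 : ∀ (K : Type) [Field K], (castF K (fun p : ((Fin (k * k) ⊕ Fin (k * k)) ⊕ Fin m ≃ ι) ×
      Equiv.Perm (Fin m) => plc p.1 DZ (PM k ℤ p.2))) =
        fun p => plc p.1 (DZ.map (fun z : ℤ => (z : K))) (PM k K p.2) := by
      intro K _
      funext p
      apply Matrix.ext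
      intro r c
      show ((DZ _ _ * PM k ℤ p.2 _ _ : ℤ) : K) = (DZ _ _ : K) * PM k K p.2 _ _
      rw [PM_apply, PM_apply, Int.cast_mul]
      split_ifs <;> simp
    rw [h2, h2] at h1
    exact h1
  have hcod : ∀ (ι : Type) [Fintype ι] [DecidableEq ι],
      Module.finrank ℝ (AA k ℝ ι) ≤
      Module.finrank ℝ (JJ k ℝ ι (Fintype.card ι - d) DR) +
      ((k * k) ^ d - 1) ^ (Fintype.card ι / d) * (k * k) ^ (Fintype.card ι % d) := by
    intro ι _ _
    have hE : Nonempty (((Fin (k * k) ⊕ Fin (k * k)) × Fin (Fintype.card ι / d)) ⊕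
        Fin (Fintype.card ι % d) ≃ ι) := by
      apply Fintype.card_eq.1
      rw [Fintype.card_sum, Fintype.card_prod, hcardκ, Fintype.card_fin, Fintype.card_fin,
        Nat.div_add_mod]
    obtain ⟨E⟩ := hE
    have h1 := codim_bound E hmem hne
    rw [hcardκ] at h1
    exact h1
  obtain ⟨hpos, β, hβ⟩ := limit_lemma (k * k) d hN (by omega) (pp k)
    (fun n => Module.finrank ℝ (JJ k ℝ (Fin n) (n - d) DR))
    (fun n => Module.finrank ℝ (JJ k ℝ (Option (Fin n)) (n + 1 - d) DR))
    (fun n => Module.finrank F (RR k F n)) (fun n => Module.finrank F (VV k F n))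
    (fun n => pp_pos hk n) (fun n => pp_log_convex k n)
    (fun n => by
      have := pp_lower k n
      rw [pow_mul, pow_two] at this
      exact this)
    (fun n => by
      have := hcod (Fin n)
      rw [Fintype.card_fin] at this
      exact this)
    (fun n => by
      have := hcod (Option (Fin n))
      rw [Fintype.card_option, Fintype.card_fin, finrank_AA_eq_pp, Fintype.card_option,
        Fintype.card_fin] at this
      exact this)
    (fun n => by
      have := JJ_le_VV hkF (hfn F) n (n - d)
      rw [← hJJ]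
      exact this)
    (fun n => by
      have := VV_le_pp hkF n
      rw [hAA] at this
      exact this)
    (fun n => by
      have := JJ_le_RR hkF (hfn F) n (n + 1 - d)
      rw [← hJJ]
      exact this)
    (fun n => by
      have := RR_le_pp (k := k) (F := F) n
      rw [hAA, finrank_AA_eq_pp, Fintype.card_option, Fintype.card_fin] at this
      exact this)
  have hle : ∀ n, (Module.finrank F ((RR k F n).map (Qn k F n)) : ℝ) /
        (Module.finrank F (RR k F n) : ℝ) ≤ 1 := by
    intro n
    apply div_le_one_of_le₀ _ (Nat.cast_nonneg _)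
    have := rank_nullity (k := k) (F := F) n
    exact_mod_cast (by omega : Module.finrank F ((RR k F n).map (Qn k F n)) ≤
      Module.finrank F (RR k F n))
  have hge : ∀ n, 0 ≤ (Module.finrank F ((RR k F n).map (Qn k F n)) : ℝ) /
        (Module.finrank F (RR k F n) : ℝ) := fun n => by positivity
  have hlim : Filter.Tendsto (fun n : ℕ => (Module.finrank F ((RR k F n).map (Qn k F n)) : ℝ) /
        (Module.finrank F (RR k F n) : ℝ)) Filter.atTop (nhds (1 - β)) := by
    have h1 : Filter.Tendsto (fun n : ℕ => 1 - (Module.finrank F (VV k F n) : ℝ) /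
        (Module.finrank F (RR k F n) : ℝ)) Filter.atTop (nhds (1 - β)) :=
      tendsto_const_nhds.sub hβ
    apply h1.congr'
    filter_upwards [hpos] with n hn
    have hn' : (0 : ℝ) < (Module.finrank F (RR k F n) : ℝ) := by exact_mod_cast hn
    have h2 : (Module.finrank F ((RR k F n).map (Qn k F n)) : ℝ) +
        (Module.finrank F (VV k F n) : ℝ) = (Module.finrank F (RR k F n) : ℝ) := by
      exact_mod_cast rank_nullity (k := k) (F := F) n
    rw [eq_div_iff hn'.ne', sub_mul, one_mul, div_mul_cancel₀ _ hn'.ne']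
    linarith
  exact ⟨1 - β, ge_of_tendsto' hlim hge, le_of_tendsto' hlim hle, hlim⟩

end Pool.Agent.V119.CC
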