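import Mathlib

set_option autoImplicit false
set_option linter.unusedSectionVars false

namespace Pool.Agent.V119.CC

open Matrix Finset

section deriv

variable {R M : Type*} [CommRing R] [AddCommGroup M] [Module R M] {N : ℕ}

theorem alt_deriv (b : Module.Basis (Fin N) R M) (f : M [⋀^Fin N]→ₗ[R] R) (φ : M →ₗ[R] M)
    (x : Fin N → M) :
    ∑ j, f (Function.update x j (φ (x j))) = (∑ i, b.repr (φ (b i)) i) * f x := by
  classical
  set t := ∑ i, b.repr (φ (b i)) i with ht
  let L : MultilinearMap R (fun _ : Fin N => M) R :=
    ∑ j, f.toMultilinearMap.compLinearMap (fun i => if i = j then φ else LinearMap.id)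
  have hL : ∀ x, L x = ∑ j, f (Function.update x j (φ (x j))) := by
    intro x
    show (∑ j, f.toMultilinearMap.compLinearMap (fun i => if i = j then φ else LinearMap.id) :
      MultilinearMap R (fun _ : Fin N => M) R) x = _
    rw [_root_.sum_apply]
    apply Finset.sum_congr rfl
    intro j _
    rw [MultilinearMap.compLinearMap_apply]
    show f _ = f _
    congr 1
    funext i
    by_cases hij : i = j
    · subst hij
      rw [if_pos rfl, Function.update_self]
    · rw [if_neg hij, Function.update_of_ne hij]
      rfl
  have key : L = t • f.toMultilinearMap := by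
    apply Module.Basis.ext_multilinear (fun _ => b)
    intro v
    rw [hL, _root_.smul_apply, smul_eq_mul]
    show _ = t * f (fun i => b (v i))
    by_cases hv : Function.Injective v
    · have hbij : Function.Bijective v := Finite.injective_iff_bijective.1 hv
      have h1 : ∀ j, f (Function.update (fun i => b (v i)) j (φ (b (v j)))) =
          b.repr (φ (b (v j))) (v j) * f (fun i => b (v i)) := by
        intro j
        conv_lhs => rw [← b.sum_repr (φ (b (v j)))]
        have h2 : f (Function.update (fun i => b (v i)) j
            (∑ l, b.repr (φ (b (v j))) l • b l)) =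
            ∑ l, b.repr (φ (b (v j))) l * f (Function.update (fun i => b (v i)) j (b l)) := by
          rw [AlternatingMap.map_update_sum]
          apply Finset.sum_congr rfl
          intro l _
          rw [AlternatingMap.map_update_smul, smul_eq_mul]
        rw [h2, Finset.sum_eq_single (v j)]
        · congr 2
          exact Function.update_eq_self j (fun i => b (v i))
        · intro l _ hl
          obtain ⟨i, rfl⟩ := hbij.2 l
          have hij : i ≠ j := fun h => hl (by rw [h])
          rw [f.map_eq_zero_of_eq _ (i := i) (j := j) _ hij, mul_zero]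
          rw [Function.update_self, Function.update_of_ne hij]
        · intro h; exact absurd (Finset.mem_univ _) h
      rw [Finset.sum_congr rfl (fun j _ => h1 j), ← Finset.sum_mul]
      congr 1
      rw [ht]
      exact Equiv.sum_comp (Equiv.ofBijective v hbij) (fun i => b.repr (φ (b i)) i)
    · rw [Function.Injective] at hv
      push Not at hv
      obtain ⟨p, q, hpq, hne⟩ := hv
      rw [f.map_eq_zero_of_eq (fun i => b (v i)) (i := p) (j := q) (by simp [hpq]) hne, mul_zero]
      rw [← Finset.add_sum_erase Finset.univ _ (Finset.mem_univ p),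
        ← Finset.add_sum_erase (Finset.univ.erase p) _
          (Finset.mem_erase.2 ⟨Ne.symm hne, Finset.mem_univ q⟩)]
      rw [Finset.sum_eq_zero (s := (Finset.univ.erase p).erase q)]
      · rw [add_zero]
        have h3 : Function.update (fun i => b (v i)) q (φ (b (v q))) =
            (Function.update (fun i => b (v i)) p (φ (b (v p)))) ∘ Equiv.swap p q := by
          funext i
          rw [Function.comp_apply]
          by_cases hiq : i = q
          · subst hiq
            rw [Equiv.swap_apply_right, Function.update_self, Function.update_self, hpq]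
          · by_cases hip : i = p
            · subst hip
              rw [Equiv.swap_apply_left, Function.update_of_ne hne,
                Function.update_of_ne (Ne.symm hne), hpq]
            · rw [Equiv.swap_apply_of_ne_of_ne hip hiq, Function.update_of_ne hiq,
                Function.update_of_ne hip]
        rw [h3, f.map_swap _ hne, add_neg_cancel]
      · intro j hj
        rw [Finset.mem_erase, Finset.mem_erase] at hj
        apply f.map_eq_zero_of_eq _ (i := p) (j := q) _ hne
        rw [Function.update_of_ne (Ne.symm hj.2.1), Function.update_of_ne (Ne.symm hj.1), hpq]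
  have := congrArg (fun g : MultilinearMap R (fun _ : Fin N => M) R => g x) key
  simp only [hL, _root_.smul_apply, smul_eq_mul] at this
  exact this

end deriv

section mat

variable {k : ℕ} {R : Type*} [CommRing R]

/-- the numbered standard basis of matrices -/
noncomputable def sb (k : ℕ) (R : Type*) [CommRing R] :
    Module.Basis (Fin (k * k)) R (Matrix (Fin k) (Fin k) R) :=
  (Matrix.stdBasis R (Fin k) (Fin k)).reindex finProdFinEquiv

theorem stdBasis_repr (A : Matrix (Fin k) (Fin k) R) (p : Fin k × Fin k) :
    (Matrix.stdBasis R (Fin k) (Fin k)).repr A p = A p.1 p.2 := by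
  have h1 : A = ∑ q : Fin k × Fin k, A q.1 q.2 • Matrix.stdBasis R (Fin k) (Fin k) q := by
    apply Matrix.ext
    intro i j
    rw [Matrix.sum_apply, Finset.sum_eq_single (i, j)]
    · rw [Matrix.stdBasis_eq_single, Matrix.smul_apply]
      simp
    · rintro ⟨a, b⟩ _ hab
      rw [Matrix.stdBasis_eq_single, Matrix.smul_apply, Matrix.single_apply, if_neg, smul_zero]
      rintro ⟨h4, h5⟩
      apply hab
      rw [h4, h5]
    · intro h; exact absurd (Finset.mem_univ _) h
  conv_lhs => rw [h1]
  rw [Module.Basis.repr_sum_self]

theorem trace_mulRight (M : Matrix (Fin k) (Fin k) R) :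
    ∑ i, (sb k R).repr (LinearMap.mulRight R M (sb k R i)) i = (k : R) * M.trace := by
  unfold sb
  rw [← Equiv.sum_comp finProdFinEquiv]
  have h1 : ∀ p : Fin k × Fin k,
      ((Matrix.stdBasis R (Fin k) (Fin k)).reindex finProdFinEquiv).repr
        (LinearMap.mulRight R M (((Matrix.stdBasis R (Fin k) (Fin k)).reindex finProdFinEquiv)
          (finProdFinEquiv p))) (finProdFinEquiv p) = M p.2 p.2 := by
    rintro ⟨a, b⟩
    rw [Module.Basis.reindex_apply, Equiv.symm_apply_apply, Module.Basis.repr_reindex_apply,
      Equiv.symm_apply_apply, stdBasis_repr, Matrix.stdBasis_eq_single, LinearMap.mulRight_apply]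
    simp
  rw [Finset.sum_congr rfl (fun p _ => h1 p), Fintype.sum_prod_type]
  simp [Matrix.trace]

/-- the multilinear trace -/
noncomputable def Dm {N : ℕ} (y : Fin N → Matrix (Fin k) (Fin k) R) :
    MultilinearMap R (fun _ : Fin N => Matrix (Fin k) (Fin k) R) R :=
  (Matrix.traceLinearMap (Fin k) R R).compMultilinearMap
    ((MultilinearMap.mkPiAlgebraFin R N (Matrix (Fin k) (Fin k) R)).compLinearMap
      (fun j => LinearMap.mulRight R (y j)))

theorem Dm_apply {N : ℕ} (y x : Fin N → Matrix (Fin k) (Fin k) R) :
    Dm y x = (List.ofFn (fun j => x j * y j)).prod.trace := by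
  unfold Dm
  simp [LinearMap.compMultilinearMap_apply, MultilinearMap.compLinearMap_apply,
    MultilinearMap.mkPiAlgebraFin_apply]

/-- the conductor function -/
noncomputable def Df {N : ℕ} (x y : Fin N → Matrix (Fin k) (Fin k) R) : R :=
  ∑ τ : Equiv.Perm (Fin N), (Equiv.Perm.sign τ : ℤ) •
    (List.ofFn (fun j => x (τ j) * y j)).prod.trace

theorem Df_eq {N : ℕ} (x y : Fin N → Matrix (Fin k) (Fin k) R) :
    Df x y = MultilinearMap.alternatization (Dm y) x := by
  rw [MultilinearMap.alternatization_apply]
  unfold Df
  apply Finset.sum_congr rfl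
  intro τ _
  rw [MultilinearMap.domDomCongr_apply, Dm_apply]
  rfl

/-- **The derivation identity.** -/
theorem Df_deriv (x y : Fin (k * k) → Matrix (Fin k) (Fin k) R) (M : Matrix (Fin k) (Fin k) R) :
    ∑ j, Df (Function.update x j (x j * M)) y = (k : R) * M.trace * Df x y := by
  have h := alt_deriv (sb k R) (MultilinearMap.alternatization (Dm y)) (LinearMap.mulRight R M) x
  rw [trace_mulRight] at h
  simp only [← Df_eq, LinearMap.mulRight_apply] at h
  exact h

/-! ### Non-vanishing -/

theorem prod_single_apply {n : ℕ} (p q : Fin n → Fin k) (u v : Fin k) :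
    (List.ofFn (fun j => Matrix.single (p j) (q j) (1 : R))).prod u v =
      if (∀ j : Fin n, p j = (Fin.cons u q : Fin (n + 1) → Fin k) j.castSucc) ∧
        v = (Fin.cons u q : Fin (n + 1) → Fin k) (Fin.last n) then 1 else 0 := by
  induction n generalizing u with
  | zero =>
    rw [List.ofFn_zero, List.prod_nil, Matrix.one_apply]
    congr 1
    rw [eq_iff_iff]
    constructor
    · intro h; exact ⟨fun j => j.elim0, h.symm⟩
    · intro h; exact h.2.symm
  | succ n ih =>
    rw [List.ofFn_succ, List.prod_cons, Matrix.mul_apply, Finset.sum_eq_single (q 0)]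
    · rw [ih (fun j => p j.succ) (fun j => q j.succ) (q 0)]
      have hc : (Fin.cons (q 0) (fun j => q j.succ) : Fin (n + 1) → Fin k) = q :=
        Fin.cons_self_tail q
      rw [hc]
      by_cases hu : p 0 = u
      · rw [hu, Matrix.single_apply_same, one_mul]
        congr 1
        rw [eq_iff_iff]
        constructor
        · rintro ⟨h1, h2⟩
          refine ⟨?_, ?_⟩
          · intro j
            refine Fin.cases ?_ (fun j => ?_) j
            · exact hu
            · rw [← Fin.succ_castSucc, Fin.cons_succ]; exact h1 j
          · rw [← Fin.succ_last, Fin.cons_succ]; exact h2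
        · rintro ⟨h1, h2⟩
          refine ⟨?_, ?_⟩
          · intro j
            have := h1 j.succ
            rw [← Fin.succ_castSucc, Fin.cons_succ] at this
            exact this
          · rw [← Fin.succ_last, Fin.cons_succ] at h2; exact h2
      · rw [Matrix.single_apply, if_neg (fun h => hu h.1), zero_mul, if_neg]
        rintro ⟨h1, -⟩
        exact hu (h1 0)
    · intro w _ hw
      rw [Matrix.single_apply, if_neg (fun h => hw h.2.symm), zero_mul]
    · intro h; exact absurd (Finset.mem_univ _) h

theorem prod_scaled {n : ℕ} (c : Fin n → R) (Z : Fin n → Matrix (Fin k) (Fin k) R) :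
    (List.ofFn (fun j => c j • Z j)).prod = (∏ j, c j) • (List.ofFn Z).prod := by
  induction n with
  | zero => simp
  | succ n ih =>
    rw [List.ofFn_succ, List.prod_cons, ih, List.ofFn_succ, List.prod_cons, Fin.prod_univ_succ,
      Matrix.smul_mul, Matrix.mul_smul, smul_smul]

theorem Df_ne_zero_aux {n : ℕ} (a b : Fin (n + 1) → Fin k)
    (hab : Function.Injective fun j => (a j, b j)) :
    Df (R := R) (fun j => Matrix.single (a j) (b j) (1 : R))
      (fun j => Matrix.single (b j) (a (finRotate (n + 1) j)) (1 : R)) = 1 := by
  unfold Df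
  have hterm : ∀ τ : Equiv.Perm (Fin (n + 1)),
      (List.ofFn (fun j => Matrix.single (a (τ j)) (b (τ j)) (1 : R) *
        Matrix.single (b j) (a (finRotate (n + 1) j)) (1 : R))).prod.trace =
      if τ = 1 then 1 else 0 := by
    intro τ
    have h1 : (fun j => Matrix.single (a (τ j)) (b (τ j)) (1 : R) *
        Matrix.single (b j) (a (finRotate (n + 1) j)) (1 : R)) =
        fun j => (if b (τ j) = b j then (1 : R) else 0) •
          Matrix.single (a (τ j)) (a (finRotate (n + 1) j)) (1 : R) := by
      funext j
      by_cases h : b (τ j) = b j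
      · rw [if_pos h, h, Matrix.single_mul_single_same, one_smul, mul_one]
      · rw [if_neg h, Matrix.single_mul_single_of_ne _ _ _ _ h, zero_smul]
    rw [h1, prod_scaled, Matrix.trace_smul, smul_eq_mul]
    have h2 : ∀ u : Fin k, (List.ofFn (fun j => Matrix.single (a (τ j))
        (a (finRotate (n + 1) j)) (1 : R))).prod u u =
        if (∀ j, a (τ j) = a j) ∧ u = a 0 then 1 else 0 := by
      intro u
      rw [prod_single_apply (fun j => a (τ j)) (fun j => a (finRotate (n + 1) j))]
      congr 1
      rw [eq_iff_iff]
      have hlast : (Fin.cons u (fun j => a (finRotate (n + 1) j)) : Fin (n + 2) → Fin k)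
          (Fin.last (n + 1)) = a 0 := by
        rw [← Fin.succ_last, Fin.cons_succ, finRotate_last]
      have hcs : ∀ j : Fin n, (Fin.cons u (fun j => a (finRotate (n + 1) j)) : Fin (n + 2) → Fin k)
          j.succ.castSucc = a j.succ := by
        intro j
        rw [← Fin.succ_castSucc, Fin.cons_succ]
        congr 1
        exact finRotate_of_lt j.2
      constructor
      · rintro ⟨h3, h4⟩
        rw [hlast] at h4
        refine ⟨?_, h4⟩
        intro j
        refine Fin.cases ?_ (fun j => ?_) j
        · rw [h3 0]; exact h4
        · rw [h3 j.succ, hcs]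
      · rintro ⟨h3, h4⟩
        rw [hlast]
        refine ⟨?_, h4⟩
        intro j
        refine Fin.cases ?_ (fun j => ?_) j
        · rw [h3 0]; exact h4.symm
        · rw [h3 j.succ, hcs]
    unfold Matrix.trace
    simp only [Matrix.diag_apply, h2]
    by_cases hτ : τ = 1
    · subst hτ
      simp
    · rw [if_neg hτ]
      by_cases hall : ∀ j, a (τ j) = a j
      · have hex : ∃ j, b (τ j) ≠ b j := by
          by_contra hcon
          push Not at hcon
          apply hτ
          apply Equiv.ext
          intro j
          exact hab (Prod.ext (hall j) (hcon j))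
        obtain ⟨j, hj⟩ := hex
        rw [Finset.prod_eq_zero (Finset.mem_univ j) (if_neg hj), zero_mul]
      · simp [hall]
  rw [Finset.sum_congr rfl (fun τ _ => by rw [hterm τ])]
  simp

theorem exists_Df_ne_zero [Nontrivial R] (hk : 1 ≤ k) :
    ∃ x y : Fin (k * k) → Matrix (Fin k) (Fin k) R, Df x y ≠ 0 := by
  obtain ⟨n, hn⟩ : ∃ n, k * k = n + 1 := ⟨k * k - 1, by
    have : 1 ≤ k * k := Nat.mul_pos hk hk
    omega⟩
  have key : ∀ N, N = n + 1 → (∃ g : Fin N → Fin k × Fin k, Function.Injective g) →
      ∃ x y : Fin N → Matrix (Fin k) (Fin k) R, Df x y ≠ 0 := by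
    rintro N rfl ⟨g, hg⟩
    refine ⟨fun j => Matrix.single (g j).1 (g j).2 (1 : R),
      fun j => Matrix.single (g j).2 (g (finRotate (n + 1) j)).1 (1 : R), ?_⟩
    have := Df_ne_zero_aux (R := R) (fun j => (g j).1) (fun j => (g j).2) (by
        intro i j hij
        exact hg hij)
    rw [this]
    exact one_ne_zero
  exact key _ hn ⟨finProdFinEquiv.symm, finProdFinEquiv.symm.injective⟩

end mat

end Pool.Agent.V119.CC
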