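import Pool.Agent.V119.CC.Contr

set_option autoImplicit false
set_option linter.unusedSectionVars false

namespace Pool.Agent.V119.CC

open Matrix Finset

section codim

variable {k : ℕ} {κ ι : Type*} [Fintype κ] [Fintype ι] [DecidableEq κ] [DecidableEq ι]

/-- the span of all placements of `D` -/
def JJ (k : ℕ) (R : Type*) [CommRing R] (ι : Type*) [Fintype ι] [DecidableEq ι] {κ : Type*}
    [Fintype κ] [DecidableEq κ] (m : ℕ) (D : Matrix (κ → Fin k) (κ → Fin k) R) :
    Submodule R (Matrix (ι → Fin k) (ι → Fin k) R) :=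
  Submodule.span R (Set.range fun p : (κ ⊕ Fin m ≃ ι) × Equiv.Perm (Fin m) =>
    plc p.1 D (PM k R p.2))

theorem AA_eq_zero_of_orth {μ : Type*} [Fintype μ] [DecidableEq μ]
    {g : Matrix (μ → Fin k) (μ → Fin k) ℝ} (hg : g ∈ AA k ℝ μ)
    (h : ∀ π : Equiv.Perm μ, ((PM k ℝ π)ᵀ * g).trace = 0) : g = 0 := by
  have h1 : ∀ x ∈ AA k ℝ μ, (xᵀ * g).trace = 0 := by
    intro x hx
    unfold AA at hx
    induction hx using Submodule.span_induction with
    | mem x hx => obtain ⟨π, rfl⟩ := hx; exact h π
    | zero => simp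
    | add a b _ _ ha hb => rw [Matrix.transpose_add, add_mul, Matrix.trace_add, ha, hb, add_zero]
    | smul c a _ ha => rw [Matrix.transpose_smul, Matrix.smul_mul, Matrix.trace_smul, ha, smul_zero]
  have h2 := h1 g hg
  rw [trace_transpose_mul_eq] at h2
  apply Matrix.ext
  intro r c
  have := (Finset.sum_eq_zero_iff_of_nonneg (fun p _ => mul_self_nonneg _)).1 h2 (r, c)
    (Finset.mem_univ _)
  exact mul_self_eq_zero.1 this

/-- Orthogonality to `J` kills all contractions. -/
theorem ctr_eq_zero {m : ℕ} {D : Matrix (κ → Fin k) (κ → Fin k) ℝ} (hD : D ∈ AA k ℝ κ)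
    {f : Matrix (ι → Fin k) (ι → Fin k) ℝ} (hf : f ∈ AA k ℝ ι)
    (h : ∀ g ∈ JJ k ℝ ι m D, (gᵀ * f).trace = 0) (e : κ ⊕ Fin m ≃ ι) : ctr e D f = 0 := by
  apply AA_eq_zero_of_orth (ctr_mem e hD hf)
  intro π
  rw [← pairing]
  exact h _ (Submodule.subset_span ⟨(e, π), rfl⟩)

theorem exists_equiv_of_inj (j : κ → ι) (hj : Function.Injective j) :
    ∃ e : κ ⊕ Fin (Fintype.card ι - Fintype.card κ) ≃ ι, ∀ x, e (Sum.inl x) = j x := by
  classical
  have h1 : Fintype.card {i // ¬ i ∈ Set.range j} = Fintype.card ι - Fintype.card κ := by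
    have h2 := Fintype.card_subtype_compl (fun i => i ∈ Set.range j)
    rw [h2]
    congr 1
    exact (Fintype.card_congr (Equiv.ofInjective j hj)).symm
  let e1 : Fin (Fintype.card ι - Fintype.card κ) ≃ {i // ¬ i ∈ Set.range j} :=
    (Fintype.equivFinOfCardEq h1).symm
  refine ⟨(Equiv.sumCongr (Equiv.ofInjective j hj) e1).trans
    (Equiv.sumCompl (fun i => i ∈ Set.range j)), ?_⟩
  intro x
  simp

/-- a matrix as a function of one word of pairs -/
def toF (f : Matrix (ι → Fin k) (ι → Fin k) ℝ) (w : ι → Fin k × Fin k) : ℝ :=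
  f (fun i => (w i).1) (fun i => (w i).2)

theorem contraction_sum {D : Matrix (κ → Fin k) (κ → Fin k) ℝ}
    {f : Matrix (ι → Fin k) (ι → Fin k) ℝ}
    (h : ∀ e : κ ⊕ Fin (Fintype.card ι - Fintype.card κ) ≃ ι, ctr e D f = 0)
    (j : κ → ι) (hj : Function.Injective j) (w : ι → Fin k × Fin k) :
    ∑ v : κ → Fin k × Fin k, toF D v * toF f (Function.extend j v w) = 0 := by
  obtain ⟨e, he⟩ := exists_equiv_of_inj j hj
  have h1 := congrFun (congrFun (h e) (fun x => (w (e (Sum.inr x))).1))
    (fun x => (w (e (Sum.inr x))).2)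
  rw [ctr_apply, ← Finset.sum_product', Finset.univ_product_univ] at h1
  rw [Matrix.zero_apply] at h1
  rw [← h1]
  apply Fintype.sum_equiv (Equiv.arrowProdEquivProdArrow κ (fun _ => Fin k) (fun _ => Fin k))
  intro v
  have key : ∀ i, Function.extend j v w i =
      (gl e (fun x => (v x).1) (fun x => (w (e (Sum.inr x))).1) i,
        gl e (fun x => (v x).2) (fun x => (w (e (Sum.inr x))).2) i) := by
    intro i
    obtain ⟨a, rfl⟩ := e.surjective i
    rcases a with x | y
    · rw [he x, hj.extend_apply]
      simp only [gl]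
      rw [← he x]
      simp
    · rw [Function.extend_apply']
      · simp [gl]
      · rintro ⟨x, hx⟩
        rw [← he x] at hx
        have := e.injective hx
        cases this
  have e1 : (fun i => (Function.extend j v w i).1) = gl e (fun x => (v x).1)
      (fun x => (w (e (Sum.inr x))).1) := by
    funext i; rw [key]
  have e2 : (fun i => (Function.extend j v w i).2) = gl e (fun x => (v x).2)
      (fun x => (w (e (Sum.inr x))).2) := by
    funext i; rw [key]
  show D _ _ * f _ _ = D _ _ * f _ _
  rw [e1, e2]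
  rfl

/-- blocks of a word -/
def blk {b r : ℕ} (E : (κ × Fin b) ⊕ Fin r ≃ ι) (i : Fin b) (w : ι → Fin k × Fin k) :
    κ → Fin k × Fin k := fun x => w (E (Sum.inl (x, i)))

theorem blk_extend_self {b r : ℕ} (E : (κ × Fin b) ⊕ Fin r ≃ ι) (i : Fin b)
    (v : κ → Fin k × Fin k) (w : ι → Fin k × Fin k) :
    blk E i (Function.extend (fun x => E (Sum.inl (x, i))) v w) = v := by
  have hj : Function.Injective (fun x => E (Sum.inl (x, i))) := by
    intro x y hxy
    have := E.injective hxy
    simpa using this
  funext x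
  show Function.extend _ v w _ = v x
  exact hj.extend_apply v w x

theorem blk_extend_ne {b r : ℕ} (E : (κ × Fin b) ⊕ Fin r ≃ ι) {i i' : Fin b} (h : i' ≠ i)
    (v : κ → Fin k × Fin k) (w : ι → Fin k × Fin k) :
    blk E i' (Function.extend (fun x => E (Sum.inl (x, i))) v w) = blk E i' w := by
  funext x
  show Function.extend _ v w _ = _
  rw [Function.extend_apply']
  · rfl
  · rintro ⟨y, hy⟩
    have := E.injective hy
    simp at this
    exact h this.2.symm

theorem vanish_of_avoid {b r : ℕ} (E : (κ × Fin b) ⊕ Fin r ≃ ι)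
    {D : Matrix (κ → Fin k) (κ → Fin k) ℝ} {f : Matrix (ι → Fin k) (ι → Fin k) ℝ}
    (h : ∀ e : κ ⊕ Fin (Fintype.card ι - Fintype.card κ) ≃ ι, ctr e D f = 0)
    (ρ : (κ → Fin k × Fin k) → ℕ) (hρ : Function.Injective ρ)
    (u : κ → Fin k × Fin k) (hu : toF D u ≠ 0) (hmax : ∀ v, toF D v ≠ 0 → ρ v ≤ ρ u)
    (hav : ∀ w, (∀ i, blk E i w ≠ u) → toF f w = 0) : f = 0 := by
  have main : ∀ (n : ℕ) (w : ι → Fin k × Fin k), ∑ i, ρ (blk E i w) = n → toF f w = 0 := by
    intro n
    induction n using Nat.strong_induction_on with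
    | _ n ih =>
      intro w hw
      by_cases hcase : ∀ i, blk E i w ≠ u
      · exact hav w hcase
      · push Not at hcase
        obtain ⟨i, hi⟩ := hcase
        have hj : Function.Injective (fun x => E (Sum.inl (x, i))) := by
          intro x y hxy
          have := E.injective hxy
          simpa using this
        have hs := contraction_sum h (fun x => E (Sum.inl (x, i))) hj w
        have hself : Function.extend (fun x => E (Sum.inl (x, i))) u w = w := by
          funext a
          by_cases ha : ∃ x, E (Sum.inl (x, i)) = a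
          · obtain ⟨x, rfl⟩ := ha
            have := hj.extend_apply u w x
            rw [this, ← hi]
            rfl
          · rw [Function.extend_apply' _ _ _ ha]
        rw [Finset.sum_eq_single u] at hs
        · rw [hself] at hs
          exact (mul_eq_zero.1 hs).resolve_left hu
        · intro v _ hv
          by_cases hDv : toF D v = 0
          · rw [hDv, zero_mul]
          · have hlt : ρ v < ρ u := lt_of_le_of_ne (hmax v hDv) (fun h' => hv (hρ h'))
            rw [ih (∑ i', ρ (blk E i' (Function.extend (fun x => E (Sum.inl (x, i))) v w))) ?_ _ rfl,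
              mul_zero]
            rw [← hw]
            apply Finset.sum_lt_sum
            · intro i' _
              by_cases hii : i' = i
              · subst hii
                rw [blk_extend_self, hi]
                exact hlt.le
              · rw [blk_extend_ne E hii]
            · refine ⟨i, Finset.mem_univ _, ?_⟩
              rw [blk_extend_self, hi]
              exact hlt
        · intro h'; exact absurd (Finset.mem_univ _) h'
  apply Matrix.ext
  intro a c
  exact main _ (fun i => (a i, c i)) rfl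

theorem codim_bound {b r : ℕ} (E : (κ × Fin b) ⊕ Fin r ≃ ι)
    {D : Matrix (κ → Fin k) (κ → Fin k) ℝ} (hD : D ∈ AA k ℝ κ) (hD0 : D ≠ 0) :
    Module.finrank ℝ (AA k ℝ ι) ≤
      Module.finrank ℝ (JJ k ℝ ι (Fintype.card ι - Fintype.card κ) D) +
      ((k * k) ^ Fintype.card κ - 1) ^ b * (k * k) ^ r := by
  classical
  -- the maximal word
  obtain ⟨ρ, hρ⟩ : ∃ ρ : (κ → Fin k × Fin k) → ℕ, Function.Injective ρ :=
    ⟨fun v => (Fintype.equivFin _ v : ℕ), fun v w h => (Fintype.equivFin _).injective (Fin.ext h)⟩
  have hne : (Finset.univ.filter fun v : κ → Fin k × Fin k => toF D v ≠ 0).Nonempty := by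
    by_contra hcon
    rw [Finset.not_nonempty_iff_eq_empty] at hcon
    apply hD0
    apply Matrix.ext
    intro a c
    by_contra h
    have : (fun i => (a i, c i)) ∈ (Finset.univ.filter fun v : κ → Fin k × Fin k => toF D v ≠ 0) :=
      Finset.mem_filter.2 ⟨Finset.mem_univ _, h⟩
    rw [hcon] at this
    exact absurd this (Finset.notMem_empty _)
  obtain ⟨u, hu, hmax⟩ := Finset.exists_max_image _ ρ hne
  have hu' : toF D u ≠ 0 := (Finset.mem_filter.1 hu).2
  have hmax' : ∀ v, toF D v ≠ 0 → ρ v ≤ ρ u := fun v hv =>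
    hmax v (Finset.mem_filter.2 ⟨Finset.mem_univ _, hv⟩)
  set J := JJ k ℝ ι (Fintype.card ι - Fintype.card κ) D with hJ
  let T : AA k ℝ ι →ₗ[ℝ] Module.Dual ℝ J :=
    { toFun := fun f =>
        { toFun := fun g => ((g : Matrix (ι → Fin k) (ι → Fin k) ℝ)ᵀ * f).trace
          map_add' := by
            intro x y
            simp only [Submodule.coe_add, Matrix.transpose_add, add_mul, Matrix.trace_add]
          map_smul' := by
            intro c x
            simp only [Submodule.coe_smul, Matrix.transpose_smul, Matrix.smul_mul,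
              Matrix.trace_smul, RingHom.id_apply] }
      map_add' := by
        intro x y
        apply LinearMap.ext
        intro g
        simp only [Submodule.coe_add, mul_add, Matrix.trace_add, LinearMap.coe_mk, AddHom.coe_mk,
          LinearMap.add_apply]
      map_smul' := by
        intro c x
        apply LinearMap.ext
        intro g
        simp only [Submodule.coe_smul, Matrix.mul_smul, Matrix.trace_smul, RingHom.id_apply,
          LinearMap.coe_mk, AddHom.coe_mk, LinearMap.smul_apply] }
  have h1 := LinearMap.finrank_range_add_finrank_ker T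
  have h2 : Module.finrank ℝ (LinearMap.range T) ≤ Module.finrank ℝ J := by
    refine le_trans (Submodule.finrank_le _) ?_
    rw [Subspace.dual_finrank_eq]
  -- avoiding words
  let L : LinearMap.ker T →ₗ[ℝ] (((Fin b → {v : κ → Fin k × Fin k // v ≠ u}) ×
      (Fin r → Fin k × Fin k)) → ℝ) :=
    { toFun := fun f p => toF (f : AA k ℝ ι).1 (fun i => Sum.elim
        (fun q : κ × Fin b => (p.1 q.2).1 q.1) (fun q => p.2 q) (E.symm i))
      map_add' := fun _ _ => rfl
      map_smul' := fun _ _ => rfl }
  have hL : Function.Injective L := by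
    rw [injective_iff_map_eq_zero]
    intro f hf
    have hker : ∀ g ∈ J, (gᵀ * (f : AA k ℝ ι).1).trace = 0 := by
      intro g hg
      have h3 : T f.1 = 0 := f.2
      have h4 := LinearMap.congr_fun h3 ⟨g, hg⟩
      exact h4
    apply Subtype.ext
    apply Subtype.ext
    apply vanish_of_avoid E (fun e => ctr_eq_zero hD f.1.2 hker e) ρ hρ u hu' hmax'
    intro w hw
    have h5 := congrFun hf (fun i => ⟨blk E i w, hw i⟩, fun q => w (E (Sum.inr q)))
    have h6 : (fun i => Sum.elim (fun q : κ × Fin b => blk E q.2 w q.1)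
        (fun q => w (E (Sum.inr q))) (E.symm i)) = w := by
      funext i
      obtain ⟨a, rfl⟩ := E.surjective i
      rcases a with ⟨x, i⟩ | y
      · simp [blk]
      · simp
    have h7 : L f (fun i => ⟨blk E i w, hw i⟩, fun q => w (E (Sum.inr q))) =
        toF (f : AA k ℝ ι).1 (fun i => Sum.elim (fun q : κ × Fin b => blk E q.2 w q.1)
        (fun q => w (E (Sum.inr q))) (E.symm i)) := rfl
    rw [h6] at h7
    rw [← h7]
    exact h5
  have h8 := LinearMap.finrank_le_finrank_of_injective hL
  rw [Module.finrank_fintype_fun_eq_card, Fintype.card_prod, Fintype.card_fun, Fintype.card_fun,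
    Fintype.card_prod, Fintype.card_fin, Fintype.card_fin, Fintype.card_fin] at h8
  have h9 : Fintype.card {v : κ → Fin k × Fin k // v ≠ u} = (k * k) ^ Fintype.card κ - 1 := by
    rw [Fintype.card_subtype_compl, Fintype.card_fun, Fintype.card_prod, Fintype.card_fin]
    congr 1
  rw [h9] at h8
  omega

end codim

end Pool.Agent.V119.CC
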