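import Mathlib

set_option autoImplicit false

namespace Pool.Agent.V119.CC

section transfer

variable {G m n : Type} [Fintype G] [Fintype m] [Fintype n]

/-- the casted family -/
def castF (K : Type) [Field K] (v : G → Matrix m n ℤ) (g : G) : Matrix m n K :=
  (v g).map (fun z : ℤ => (z : K))

theorem finrank_cast_eq_rat (K : Type) [Field K] [CharZero K] (v : G → Matrix m n ℤ) :
    Module.finrank K (Submodule.span K (Set.range (castF K v))) =
      Module.finrank ℚ (Submodule.span ℚ (Set.range (castF ℚ v))) := by
  let _ : Algebra ℚ K := DivisionRing.toRatAlgebra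
  set S := Submodule.span ℚ (Set.range (castF ℚ v)) with hS
  let b := Module.finBasis ℚ S
  set B : Fin (Module.finrank ℚ S) → Matrix m n K := fun i =>
    (b i : Matrix m n ℚ).map (fun q : ℚ => algebraMap ℚ K q) with hB
  -- casting elements of `S`
  have hcast : ∀ g, castF K v g = (castF ℚ v g).map (fun q : ℚ => algebraMap ℚ K q) := by
    intro g
    apply Matrix.ext
    intro r c
    show ((v g r c : ℤ) : K) = algebraMap ℚ K ((v g r c : ℤ) : ℚ)
    rw [map_intCast]
  have hspan : Submodule.span K (Set.range (castF K v)) = Submodule.span K (Set.range B) := by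
    apply le_antisymm
    · rw [Submodule.span_le]
      rintro _ ⟨g, rfl⟩
      have h1 : (castF ℚ v g) ∈ S := Submodule.subset_span ⟨g, rfl⟩
      have h2 := b.sum_repr ⟨_, h1⟩
      have h3 := congrArg (Subtype.val) h2
      rw [Submodule.coe_sum] at h3
      have h3' : castF ℚ v g = ∑ i, ((b.repr ⟨_, h1⟩ i • b i : S) : Matrix m n ℚ) := h3.symm
      rw [hcast, h3']
      have h4 : (∑ i, ((b.repr ⟨_, h1⟩ i • b i : S) : Matrix m n ℚ)).map
          (fun q : ℚ => algebraMap ℚ K q) = ∑ i, (algebraMap ℚ K (b.repr ⟨_, h1⟩ i)) • B i := by
        apply Matrix.ext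
        intro r c
        rw [Matrix.map_apply, Matrix.sum_apply, Matrix.sum_apply, map_sum]
        apply Finset.sum_congr rfl
        intro i _
        rw [Submodule.coe_smul, Matrix.smul_apply, Matrix.smul_apply, smul_eq_mul, smul_eq_mul,
          map_mul]
        rfl
      rw [h4]
      exact Submodule.sum_mem _ fun i _ => Submodule.smul_mem _ _ (Submodule.subset_span ⟨i, rfl⟩)
    · rw [Submodule.span_le]
      rintro _ ⟨i, rfl⟩
      have h1 : ∀ x ∈ S, x.map (fun q : ℚ => algebraMap ℚ K q) ∈
          Submodule.span K (Set.range (castF K v)) := by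
        intro x hx
        rw [hS] at hx
        induction hx using Submodule.span_induction with
        | mem x hx =>
          obtain ⟨g, rfl⟩ := hx
          rw [← hcast]
          exact Submodule.subset_span ⟨g, rfl⟩
        | zero =>
          have : (0 : Matrix m n ℚ).map (fun q : ℚ => algebraMap ℚ K q) = 0 := by
            apply Matrix.ext; intro r c; simp
          rw [this]; exact Submodule.zero_mem _
        | add x y _ _ hx hy =>
          have : (x + y).map (fun q : ℚ => algebraMap ℚ K q) =
              x.map (fun q : ℚ => algebraMap ℚ K q) + y.map (fun q : ℚ => algebraMap ℚ K q) := by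
            apply Matrix.ext; intro r c
            rw [Matrix.map_apply, Matrix.add_apply, Matrix.add_apply, map_add]; rfl
          rw [this]; exact Submodule.add_mem _ hx hy
        | smul a x _ hx =>
          have : (a • x).map (fun q : ℚ => algebraMap ℚ K q) =
              (algebraMap ℚ K a) • x.map (fun q : ℚ => algebraMap ℚ K q) := by
            apply Matrix.ext; intro r c
            rw [Matrix.map_apply, Matrix.smul_apply, Matrix.smul_apply, smul_eq_mul, map_mul]; rfl
          rw [this]; exact Submodule.smul_mem _ _ hx
      exact h1 _ (b i).2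
  have hlin : LinearIndependent K B := by
    rw [Fintype.linearIndependent_iff]
    intro a ha i
    rw [← Module.forall_dual_apply_eq_zero_iff ℚ]
    intro φ
    have h1 : ∑ i, φ (a i) • b i = 0 := by
      apply Subtype.ext
      rw [Submodule.coe_sum]
      apply Matrix.ext
      intro r c
      rw [Matrix.sum_apply]
      have h2 := congrFun (congrFun ha r) c
      rw [Matrix.sum_apply] at h2
      have h3 := congrArg φ h2
      rw [map_sum] at h3
      have h4 : ∀ i, φ ((a i • B i) r c) = ((φ (a i) • b i : S) : Matrix m n ℚ) r c := by
        intro i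
        rw [Matrix.smul_apply, Submodule.coe_smul, Matrix.smul_apply, smul_eq_mul, smul_eq_mul]
        show φ (a i * algebraMap ℚ K ((b i : Matrix m n ℚ) r c)) = _
        rw [mul_comm, ← Algebra.smul_def, map_smul, smul_eq_mul, mul_comm]
      rw [← Finset.sum_congr rfl (fun i _ => h4 i), h3]
      show φ 0 = 0
      exact map_zero φ
    exact Fintype.linearIndependent_iff.1 b.linearIndependent _ h1 i
  rw [hspan, finrank_span_eq_card hlin, Fintype.card_fin]

theorem finrank_cast_eq (K L : Type) [Field K] [CharZero K] [Field L] [CharZero L]
    (v : G → Matrix m n ℤ) :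
    Module.finrank K (Submodule.span K (Set.range (castF K v))) =
      Module.finrank L (Submodule.span L (Set.range (castF L v))) := by
  rw [finrank_cast_eq_rat K, finrank_cast_eq_rat L]

end transfer

end Pool.Agent.V119.CC
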