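import Pool.Agent.V119.CC.Fun
import Pool.Agent.V119.CC.Alt
import Pool.Agent.V119.CC.Transfer
import Pool.Agent.V119.CC.Codim

set_option autoImplicit false
set_option linter.unusedSectionVars false

namespace Pool.Agent.V119.CC

open Matrix Finset

section lists

variable {ι : Type*}

theorem enum_iff [Fintype ι] [DecidableEq ι] (l : List ι) :
    (l : Multiset ι) = (Finset.univ : Finset ι).val ↔ Enum l := by
  constructor
  · intro h
    refine ⟨?_, ?_⟩
    · have h1 := (Finset.univ : Finset ι).nodup
      rw [← h] at h1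
      exact Multiset.coe_nodup.1 h1
    · intro i
      have h1 : i ∈ (Finset.univ : Finset ι).val := Finset.mem_univ i
      rw [← h] at h1
      exact h1
  · rintro ⟨h1, h2⟩
    apply (Multiset.Nodup.ext (Multiset.coe_nodup.2 h1) (Finset.univ : Finset ι).nodup).2
    intro a
    exact ⟨fun _ => Finset.mem_univ a, fun _ => h2 a⟩

theorem flatten_ofFn_multiset {N : ℕ} (f : Fin N → List ι) :
    (((List.ofFn f).flatten : List ι) : Multiset ι) = ∑ j, (f j : Multiset ι) := by
  induction N with
  | zero => simp
  | succ n ih =>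
    rw [List.ofFn_succ, List.flatten_cons, ← Multiset.coe_add, ih, Fin.sum_univ_succ]

theorem mon_flatten {k : ℕ} {R : Type*} [CommRing R] (L : List (List ι))
    (X : ι → Matrix (Fin k) (Fin k) R) :
    mon L.flatten X = (L.map (fun l => mon l X)).prod := by
  induction L with
  | nil => rfl
  | cons l L ih => rw [List.flatten_cons, mon_append, ih, List.map_cons, List.prod_cons]

end lists

section conductor

variable {k : ℕ} {F : Type} [Field F] {ι : Type} [Fintype ι] [DecidableEq ι]

/-- span of full trace words -/
def FC (k : ℕ) (F : Type) [Field F] (ι : Type) [Fintype ι] [DecidableEq ι] :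
    Submodule F ((ι → Matrix (Fin k) (Fin k) F) → F) :=
  Submodule.span F {g | ∃ l : List ι, (l : Multiset ι) = (Finset.univ : Finset ι).val ∧
    g = fun X => (mon l X).trace}

theorem conductor (hk : (k : F) ≠ 0) (Ls : List (List ι)) :
    ∀ (α β : Fin (k * k) → ι) (W : Fin (k * k) → List ι),
    (∑ j, (((α j :: W j ++ [β j] : List ι) : Multiset ι))) + ((Ls.flatten : List ι) : Multiset ι) =
      (Finset.univ : Finset ι).val →
    (fun X : ι → Matrix (Fin k) (Fin k) F =>
      Df (fun j => X (α j) * mon (W j) X) (fun j => X (β j)) *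
        (Ls.map (fun l => (mon l X).trace)).prod) ∈ FC k F ι := by
  induction Ls with
  | nil =>
    intro α β W h
    have h1 : (fun X : ι → Matrix (Fin k) (Fin k) F =>
        Df (fun j => X (α j) * mon (W j) X) (fun j => X (β j)) *
        (([] : List (List ι)).map (fun l => (mon l X).trace)).prod) =
        ∑ τ : Equiv.Perm (Fin (k * k)), (Equiv.Perm.sign τ : ℤ) •
          (fun X : ι → Matrix (Fin k) (Fin k) F =>
            (mon (List.ofFn (fun j => α (τ j) :: W (τ j) ++ [β j])).flatten X).trace) := by
      funext X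
      rw [List.map_nil, List.prod_nil, mul_one, Finset.sum_apply]
      unfold Df
      apply Finset.sum_congr rfl
      intro τ _
      rw [Pi.smul_apply]
      congr 2
      rw [mon_flatten, List.map_ofFn]
      congr 2
      funext j
      rw [Function.comp_apply, mon_append, mon_cons, mon_cons, mon_nil, mul_one]
    rw [h1]
    apply Submodule.sum_mem
    intro τ _
    apply zsmul_mem
    apply Submodule.subset_span
    refine ⟨_, ?_, rfl⟩
    rw [flatten_ofFn_multiset, ← h]
    rw [List.flatten_nil, Multiset.coe_nil, add_zero]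
    have h2 : ∀ (a : ι) (w : List ι) (b : ι), ((a :: w ++ [b] : List ι) : Multiset ι) =
        ((a :: w : List ι) : Multiset ι) + {b} := by
      intro a w b
      rw [← Multiset.coe_add]; rfl
    simp only [h2, Finset.sum_add_distrib]
    congr 1
    exact Equiv.sum_comp τ (fun j => ((α j :: W j : List ι) : Multiset ι))
  | cons l Ls ih =>
    intro α β W h
    have h1 : (fun X : ι → Matrix (Fin k) (Fin k) F =>
        Df (fun j => X (α j) * mon (W j) X) (fun j => X (β j)) *
        ((l :: Ls).map (fun l => (mon l X).trace)).prod) =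
        (k : F)⁻¹ • ∑ i : Fin (k * k), (fun X : ι → Matrix (Fin k) (Fin k) F =>
          Df (fun j => X (α j) * mon (Function.update W i (W i ++ l) j) X) (fun j => X (β j)) *
            (Ls.map (fun l => (mon l X).trace)).prod) := by
      funext X
      rw [Pi.smul_apply, Finset.sum_apply, smul_eq_mul, List.map_cons, List.prod_cons,
        ← Finset.sum_mul]
      have h2 := Df_deriv (fun j => X (α j) * mon (W j) X) (fun j => X (β j)) (mon l X)
      have h3 : ∀ i, Df (fun j => X (α j) * mon (Function.update W i (W i ++ l) j) X)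
          (fun j => X (β j)) = Df (Function.update (fun j => X (α j) * mon (W j) X) i
            (X (α i) * mon (W i) X * mon l X)) (fun j => X (β j)) := by
        intro i
        congr 1
        funext j
        by_cases hij : j = i
        · subst hij
          rw [Function.update_self, Function.update_self, mon_append, mul_assoc]
        · rw [Function.update_of_ne hij, Function.update_of_ne hij]
      rw [Finset.sum_congr rfl (fun i _ => h3 i), h2]
      field_simp
    rw [h1]
    apply Submodule.smul_mem
    apply Submodule.sum_mem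
    intro i _
    apply ih
    rw [← h]
    have h2 : ∀ j, ((α j :: Function.update W i (W i ++ l) j ++ [β j] : List ι) : Multiset ι) =
        ((α j :: W j ++ [β j] : List ι) : Multiset ι) + if j = i then (l : Multiset ι) else 0 := by
      intro j
      by_cases hij : j = i
      · subst hij
        rw [Function.update_self, if_pos rfl]
        rw [Multiset.coe_add, Multiset.coe_eq_coe]
        simp only [List.cons_append, List.append_assoc]
        apply List.Perm.cons
        apply List.Perm.append_left
        exact List.perm_append_comm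
      · rw [Function.update_of_ne hij, if_neg hij, add_zero]
    rw [Finset.sum_congr rfl (fun j _ => h2 j), Finset.sum_add_distrib, Finset.sum_ite_eq',
      if_pos (Finset.mem_univ _), List.flatten_cons, ← Multiset.coe_add, add_assoc]

end conductor

/-! ### The integral conductor element -/

section DZ

theorem exists_cond (k : ℕ) (hk : 1 ≤ k) :
    ∃ DZ : Matrix ((Fin (k * k) ⊕ Fin (k * k)) → Fin k) ((Fin (k * k) ⊕ Fin (k * k)) → Fin k) ℤ,
      (∀ (R : Type) [CommRing R] (X : Fin (k * k) ⊕ Fin (k * k) → Matrix (Fin k) (Fin k) R),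
        fn (DZ.map (fun z : ℤ => (z : R))) X =
          Df (fun j => X (Sum.inl j)) (fun j => X (Sum.inr j))) ∧
      (DZ.map (fun z : ℤ => (z : ℝ))) ∈ AA k ℝ (Fin (k * k) ⊕ Fin (k * k)) ∧
      (DZ.map (fun z : ℤ => (z : ℝ))) ≠ 0 := by
  set wd : Equiv.Perm (Fin (k * k)) → List (Fin (k * k) ⊕ Fin (k * k)) := fun τ =>
    (List.ofFn (fun j => [Sum.inl (τ j), Sum.inr j])).flatten with hwd
  have hE : ∀ τ, Enum (wd τ) := by
    intro τ
    rw [← enum_iff, hwd]
    dsimp only
    rw [flatten_ofFn_multiset]
    have h2 : ∀ (a b : Fin (k * k) ⊕ Fin (k * k)), (([a, b] : List _) : Multiset _) =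
        ({a} : Multiset _) + {b} := by
      intro a b; rfl
    simp only [h2, Finset.sum_add_distrib]
    rw [Equiv.sum_comp τ (fun j => ({Sum.inl j} : Multiset (Fin (k * k) ⊕ Fin (k * k))))]
    rw [← Finset.univ_disjSum_univ, Finset.val_disjSum, Multiset.disjSum]
    congr 1
    · rw [← Multiset.sum_map_singleton (Multiset.map Sum.inl _), Multiset.map_map]; rfl
    · rw [← Multiset.sum_map_singleton (Multiset.map Sum.inr _), Multiset.map_map]; rfl
  have hN : 0 < k * k := Nat.mul_pos hk hk
  have hne : ∀ τ, wd τ ≠ [] := by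
    intro τ h
    have := (hE τ).2 (Sum.inl ⟨0, hN⟩)
    rw [h] at this
    exact List.not_mem_nil this
  choose sg hsg using fun τ => exists_perm_of_word k (Fin (k * k) ⊕ Fin (k * k)) (wd τ) (hE τ) (hne τ)
  set DZ : Matrix ((Fin (k * k) ⊕ Fin (k * k)) → Fin k) ((Fin (k * k) ⊕ Fin (k * k)) → Fin k) ℤ :=
    ∑ τ, (Equiv.Perm.sign τ : ℤ) • PM k ℤ (sg τ) with hDZ
  have hmap : ∀ (R : Type) [CommRing R], DZ.map (fun z : ℤ => (z : R)) =
      ∑ τ, (Equiv.Perm.sign τ : ℤ) • PM k R (sg τ) := by
    intro R _
    apply Matrix.ext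
    intro r c
    rw [Matrix.map_apply, hDZ, Matrix.sum_apply, Matrix.sum_apply, Int.cast_sum]
    apply Finset.sum_congr rfl
    intro τ _
    rw [Matrix.smul_apply, Matrix.smul_apply, PM_apply, PM_apply, smul_eq_mul, Int.cast_mul,
      zsmul_eq_mul]
    congr 1
    split_ifs <;> simp
  have hfn : ∀ (R : Type) [CommRing R] (X : Fin (k * k) ⊕ Fin (k * k) → Matrix (Fin k) (Fin k) R),
        fn (DZ.map (fun z : ℤ => (z : R))) X =
          Df (fun j => X (Sum.inl j)) (fun j => X (Sum.inr j)) := by
    intro R _ X
    rw [hmap]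
    have h1 : fn (∑ τ, (Equiv.Perm.sign τ : ℤ) • PM k R (sg τ)) X =
        ∑ τ, (Equiv.Perm.sign τ : ℤ) • fn (PM k R (sg τ)) X := by
      show fnL k R _ _ X = _
      rw [map_sum, Finset.sum_apply]
      apply Finset.sum_congr rfl
      intro τ _
      rw [map_zsmul]
      rfl
    rw [h1]
    unfold Df
    apply Finset.sum_congr rfl
    intro τ _
    rw [fn_PM, ← hsg τ R X]
    congr 2
    rw [hwd]
    dsimp only
    rw [mon_flatten, List.map_ofFn]
    congr 2
    funext j
    rw [Function.comp_apply, mon_cons, mon_cons, mon_nil, mul_one]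
  refine ⟨DZ, hfn, ?_, ?_⟩
  · rw [hmap]
    apply Submodule.sum_mem
    intro τ _
    exact zsmul_mem (PM_mem _) _
  · intro h0
    obtain ⟨x, y, hxy⟩ := exists_Df_ne_zero (R := ℝ) hk
    apply hxy
    have := hfn ℝ (Sum.elim x y)
    rw [h0] at this
    simp only [Sum.elim_inl, Sum.elim_inr] at this
    rw [← this]
    show fnL k ℝ _ 0 _ = 0
    rw [map_zero]
    rfl

end DZ

/-! ### Placements of the conductor element are combinations of full trace words -/

section placement

variable {k : ℕ} {F : Type} [Field F] {ι : Type} [Fintype ι] [DecidableEq ι]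

theorem univ_val_sum {κ μ : Type} [Fintype κ] [Fintype μ] [DecidableEq κ] [DecidableEq μ]
    (e : κ ⊕ μ ≃ ι) : (Finset.univ : Finset ι).val =
      (Finset.univ : Finset κ).val.map (fun x => e (Sum.inl x)) +
      (Finset.univ : Finset μ).val.map (fun x => e (Sum.inr x)) := by
  have h1 : (Finset.univ : Finset ι).val = (Finset.univ : Finset (κ ⊕ μ)).val.map e := by
    rw [← Finset.map_univ_equiv e]; rfl
  rw [h1, ← Finset.univ_disjSum_univ, Finset.val_disjSum, Multiset.disjSum, Multiset.map_add,
    Multiset.map_map, Multiset.map_map]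
  rfl

theorem univ_val_option : (Finset.univ : Finset (Option ι)).val =
    none ::ₘ (Finset.univ : Finset ι).val.map some := by
  rfl

theorem sum_singleton_eq {N : ℕ} (f : Fin N → ι) :
    ∑ j, ({f j} : Multiset ι) = (Finset.univ : Finset (Fin N)).val.map f := by
  rw [← Multiset.sum_map_singleton (Multiset.map f _), Multiset.map_map]; rfl

theorem place_mem (hk : (k : F) ≠ 0)
    {DZ : Matrix ((Fin (k * k) ⊕ Fin (k * k)) → Fin k) ((Fin (k * k) ⊕ Fin (k * k)) → Fin k) F}
    (hDZ : ∀ X, fn DZ X = Df (fun j => X (Sum.inl j)) (fun j => X (Sum.inr j)))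
    {m : ℕ} (e : (Fin (k * k) ⊕ Fin (k * k)) ⊕ Fin m ≃ ι) (π : Equiv.Perm (Fin m)) :
    fn (plc e DZ (PM k F π)) ∈ FC k F ι := by
  obtain ⟨Ls, hE, h⟩ := exists_words k F (Fin m) π
  have h1 := conductor hk (Ls.map (List.map (fun x => e (Sum.inr x))))
    (fun j => e (Sum.inl (Sum.inl j))) (fun j => e (Sum.inl (Sum.inr j))) (fun _ => []) ?_
  · convert h1 using 1
    funext X
    rw [fn_plc, hDZ, fn_PM, h]
    simp only [mon_nil, mul_one]
    congr 1
    rw [List.map_map]
    congr 1
    apply List.map_congr_left
    intro l _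
    rw [Function.comp_apply, mon_map]
  · rw [← List.map_flatten, ← Multiset.map_coe, (enum_iff _).2 hE, univ_val_sum e]
    congr 1
    have h2 : ∀ (a b : ι), (([a] ++ [b] : List _) : Multiset _) =
        ({a} : Multiset _) + {b} := by
      intro a b; rfl
    simp only [h2, Finset.sum_add_distrib]
    rw [sum_singleton_eq, sum_singleton_eq, ← Finset.univ_disjSum_univ, Finset.val_disjSum,
      Multiset.disjSum, Multiset.map_add, Multiset.map_map, Multiset.map_map]
    rfl

theorem place_mem_option (hk : (k : F) ≠ 0)
    {DZ : Matrix ((Fin (k * k) ⊕ Fin (k * k)) → Fin k) ((Fin (k * k) ⊕ Fin (k * k)) → Fin k) F}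
    (hDZ : ∀ X, fn DZ X = Df (fun j => X (Sum.inl j)) (fun j => X (Sum.inr j)))
    {m : ℕ} (e : (Fin (k * k) ⊕ Fin (k * k)) ⊕ Fin m ≃ ι) (π : Equiv.Perm (Fin m)) :
    (fun X : Option ι → Matrix (Fin k) (Fin k) F =>
      fn (plc e DZ (PM k F π)) (fun i => X (some i)) * (X none).trace) ∈ FC k F (Option ι) := by
  obtain ⟨Ls, hE, h⟩ := exists_words k F (Fin m) π
  have h1 := conductor hk ([none] :: Ls.map (List.map (fun x => some (e (Sum.inr x)))))
    (fun j => some (e (Sum.inl (Sum.inl j)))) (fun j => some (e (Sum.inl (Sum.inr j))))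
    (fun _ => []) ?_
  · convert h1 using 1
    funext X
    rw [fn_plc, hDZ, fn_PM, h]
    simp only [mon_nil, mul_one]
    rw [List.map_cons, List.prod_cons, mon_cons, mon_nil, mul_one, mul_assoc,
      mul_comm (X none).trace]
    congr 2
    rw [List.map_map]
    congr 1
    apply List.map_congr_left
    intro l _
    rw [Function.comp_apply, mon_map]
  · rw [List.flatten_cons, ← List.map_flatten, ← Multiset.coe_add, ← Multiset.map_coe,
      (enum_iff _).2 hE, univ_val_option, univ_val_sum e, Multiset.map_add, Multiset.map_map,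
      Multiset.map_map]
    have h2 : ∀ (a b : Option ι), (([a] ++ [b] : List _) : Multiset _) =
        ({a} : Multiset _) + {b} := by
      intro a b; rfl
    simp only [h2, Finset.sum_add_distrib]
    rw [sum_singleton_eq, sum_singleton_eq, ← Finset.univ_disjSum_univ, Finset.val_disjSum,
      Multiset.disjSum, Multiset.map_add, Multiset.map_map, Multiset.map_map]
    rw [← Multiset.singleton_add]
    show _ + (({none} : Multiset (Option ι)) + _) = _
    rw [add_left_comm]
    rfl

end placement

end Pool.Agent.V119.CC
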