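import Pool.Agent.V119.CC.Lower

set_option autoImplicit false
set_option linter.unusedSectionVars false

namespace Pool.Agent.V119.CC

open Matrix Finset

/-! ### Partial trace over many strands -/

section PT

variable {k : ℕ} {R : Type*} [CommRing R]

theorem elim_consO {α μ : Type*} (t : Fin k) (s : α → Fin k) (c : μ → Fin k)
    (E : Option (α ⊕ μ) ≃ Option α ⊕ μ) (h0 : E none = Sum.inl none)
    (h1 : ∀ a, E (some (Sum.inl a)) = Sum.inl (some a))
    (h2 : ∀ b, E (some (Sum.inr b)) = Sum.inr b) :
    (Sum.elim (consO t s) c) ∘ E = consO t (Sum.elim s c) := by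
  funext o
  rcases o with _ | (a | b)
  · simp [h0]
  · simp [h1]
  · simp [h2]

/-- the relabelling -/
def optSum (α μ : Type*) : Option (α ⊕ μ) ≃ Option α ⊕ μ where
  toFun := fun o => o.elim (Sum.inl none) (Sum.elim (fun a => Sum.inl (some a)) Sum.inr)
  invFun := Sum.elim (fun o => o.elim none (fun a => some (Sum.inl a))) (fun b => some (Sum.inr b))
  left_inv := by
    rintro (_ | (a | b)) <;> rfl
  right_inv := by
    rintro ((_ | a) | b) <;> rfl

theorem ptr_many (μ : Type*) [Fintype μ] [DecidableEq μ] (κ : Type*) [Fintype κ] :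
    ∀ [DecidableEq κ] (σ : Equiv.Perm (κ ⊕ μ)), ∃ (a : R) (π : Equiv.Perm μ), ∀ r c : μ → Fin k,
      ∑ s : κ → Fin k, PM k R σ (Sum.elim s r) (Sum.elim s c) = a * PM k R π r c := by
  classical
  refine Fintype.induction_empty_option (P := fun κ _ => ∀ [DecidableEq κ]
    (σ : Equiv.Perm (κ ⊕ μ)), ∃ (a : R) (π : Equiv.Perm μ), ∀ r c : μ → Fin k,
      ∑ s : κ → Fin k, PM k R σ (Sum.elim s r) (Sum.elim s c) = a * PM k R π r c) ?_ ?_ ?_ κ
  · intro α β _ e ih _ σ
    let h0 : Fintype α := Fintype.ofEquiv β e.symm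
    obtain ⟨a, π, h⟩ := ih ((Equiv.sumCongr e (Equiv.refl μ)).permCongr.symm σ)
    refine ⟨a, π, ?_⟩
    intro r c
    rw [← h r c]
    apply Fintype.sum_equiv (Equiv.arrowCongr e.symm (Equiv.refl (Fin k)))
    intro s
    rw [PM_apply, PM_apply]
    congr 1
    rw [eq_iff_iff]
    constructor
    · intro h1
      funext i
      have := congrFun h1 (Equiv.sumCongr e (Equiv.refl μ) i)
      have e1 : ∀ (c : μ → Fin k) (i : α ⊕ μ), Sum.elim s c (Equiv.sumCongr e (Equiv.refl μ) i) =
          Sum.elim ((Equiv.arrowCongr e.symm (Equiv.refl (Fin k))) s) c i := by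
        rintro c (i | i) <;> simp
      rw [e1] at this
      rw [this, Function.comp_apply, Function.comp_apply, ← e1]
      congr 1
      simp
    · intro h1
      funext i
      have := congrFun h1 ((Equiv.sumCongr e (Equiv.refl μ)).symm i)
      have e1 : ∀ (c : μ → Fin k) (i : α ⊕ μ), Sum.elim s c (Equiv.sumCongr e (Equiv.refl μ) i) =
          Sum.elim ((Equiv.arrowCongr e.symm (Equiv.refl (Fin k))) s) c i := by
        rintro c (i | i) <;> simp
      rw [Function.comp_apply, ← e1, ← e1] at this
      simpa using this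
  · intro _ σ
    refine ⟨1, (Equiv.emptySum PEmpty μ).permCongr σ, ?_⟩
    intro r c
    rw [one_mul, Fintype.sum_eq_single (fun x : PEmpty => x.elim) (by
      intro s hs; exact absurd (funext fun x => x.elim) hs)]
    rw [PM_apply, PM_apply]
    congr 1
    rw [eq_iff_iff]
    have hE : ∀ (r : μ → Fin k) (i : PEmpty ⊕ μ), Sum.elim (fun x : PEmpty => (x.elim : Fin k)) r i =
        r (Equiv.emptySum PEmpty μ i) := by
      rintro r (i | i)
      · exact i.elim
      · rfl
    constructor
    · intro h1
      funext i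
      have := congrFun h1 (Sum.inr i)
      rw [Function.comp_apply, hE, hE] at this
      exact this
    · intro h1
      funext i
      rcases i with i | i
      · exact i.elim
      · have := congrFun h1 i
        rw [Function.comp_apply, hE, hE]
        exact this
  · intro α _ ih inst σ
    let instα : DecidableEq α := Classical.decEq α
    obtain rfl : inst = @Option.instDecidableEq α instα := Subsingleton.elim _ _
    set σ' : Equiv.Perm (Option (α ⊕ μ)) := (optSum α μ).permCongr.symm σ with hσ'
    obtain ⟨a, π, h⟩ := ih (Equiv.removeNone σ')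
    refine ⟨(if σ' none = none then (k : R) else 1) * a, π, ?_⟩
    intro r c
    rw [mul_assoc, ← h r c, Finset.mul_sum, sum_option_words, Finset.sum_comm]
    apply Finset.sum_congr rfl
    intro s _
    have h1 := congrFun (congrFun (ptr_PM (k := k) (R := R) σ') (Sum.elim s r)) (Sum.elim s c)
    rw [Matrix.smul_apply, smul_eq_mul, ptr_apply] at h1
    rw [← h1]
    apply Finset.sum_congr rfl
    intro t _
    have e1 : ∀ c : μ → Fin k, consO t (Sum.elim s c) = (Sum.elim (consO t s) c) ∘ (optSum α μ) :=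
      fun c => (elim_consO t s c (optSum α μ) rfl (fun _ => rfl) (fun _ => rfl)).symm
    rw [e1, e1, PM_apply, PM_apply]
    congr 1
    rw [eq_iff_iff]
    constructor
    · intro h2
      rw [h2]
      funext i
      simp [hσ']
    · intro h2
      funext i
      have := congrFun h2 ((optSum α μ).symm i)
      simpa [hσ'] using this

end PT

/-! ### Contraction -/

section contr

variable {k : ℕ} {R : Type*} [CommRing R]
variable {κ μ ι : Type*} [Fintype κ] [Fintype μ] [Fintype ι]
  [DecidableEq κ] [DecidableEq μ] [DecidableEq ι]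

/-- glue words -/
def gl (e : κ ⊕ μ ≃ ι) (s : κ → Fin k) (t : μ → Fin k) : ι → Fin k := fun i =>
  Sum.elim s t (e.symm i)

/-- external product -/
def plc (e : κ ⊕ μ ≃ ι) (D : Matrix (κ → Fin k) (κ → Fin k) R)
    (P : Matrix (μ → Fin k) (μ → Fin k) R) : Matrix (ι → Fin k) (ι → Fin k) R :=
  Matrix.of fun r c => D (fun x => r (e (Sum.inl x))) (fun x => c (e (Sum.inl x))) *
    P (fun x => r (e (Sum.inr x))) (fun x => c (e (Sum.inr x)))

/-- contraction -/
def ctr (e : κ ⊕ μ ≃ ι) (D : Matrix (κ → Fin k) (κ → Fin k) R)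
    (f : Matrix (ι → Fin k) (ι → Fin k) R) : Matrix (μ → Fin k) (μ → Fin k) R :=
  Matrix.of fun r c => ∑ s : κ → Fin k, ∑ s' : κ → Fin k, D s s' * f (gl e s r) (gl e s' c)

theorem ctr_apply (e : κ ⊕ μ ≃ ι) (D : Matrix (κ → Fin k) (κ → Fin k) R)
    (f : Matrix (ι → Fin k) (ι → Fin k) R) (r c : μ → Fin k) :
    ctr e D f r c = ∑ s : κ → Fin k, ∑ s' : κ → Fin k, D s s' * f (gl e s r) (gl e s' c) := rfl

/-- splitting words -/
def wsplit (e : κ ⊕ μ ≃ ι) : (ι → Fin k) ≃ (κ → Fin k) × (μ → Fin k) where
  toFun := fun w => (fun x => w (e (Sum.inl x)), fun x => w (e (Sum.inr x)))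
  invFun := fun p => gl e p.1 p.2
  left_inv := by
    intro w
    funext i
    show Sum.elim _ _ (e.symm i) = w i
    obtain ⟨j, rfl⟩ := e.surjective i
    rw [Equiv.symm_apply_apply]
    rcases j with j | j <;> rfl
  right_inv := by
    rintro ⟨s, t⟩
    apply Prod.ext
    · funext x
      simp [gl]
    · funext x
      simp [gl]

theorem sum_wsplit {M : Type*} [AddCommMonoid M] (e : κ ⊕ μ ≃ ι) (f : (ι → Fin k) → M) :
    ∑ w, f w = ∑ t : μ → Fin k, ∑ s : κ → Fin k, f (gl e s t) := by
  rw [Finset.sum_comm, ← Finset.sum_product', Finset.univ_product_univ]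
  apply Fintype.sum_equiv (wsplit e)
  intro w
  show f w = f ((wsplit e).symm (wsplit e w))
  rw [Equiv.symm_apply_apply]

theorem plc_gl (e : κ ⊕ μ ≃ ι) (D : Matrix (κ → Fin k) (κ → Fin k) R)
    (P : Matrix (μ → Fin k) (μ → Fin k) R) (s s' : κ → Fin k) (t t' : μ → Fin k) :
    plc e D P (gl e s t) (gl e s' t') = D s s' * P t t' := by
  show D _ _ * P _ _ = _
  simp only [gl, Equiv.symm_apply_apply, Sum.elim_inl, Sum.elim_inr]

theorem pairing (e : κ ⊕ μ ≃ ι) (D : Matrix (κ → Fin k) (κ → Fin k) ℝ)
    (P : Matrix (μ → Fin k) (μ → Fin k) ℝ) (f : Matrix (ι → Fin k) (ι → Fin k) ℝ) :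
    ((plc e D P)ᵀ * f).trace = (Pᵀ * ctr e D f).trace := by
  rw [trace_transpose_mul_eq, trace_transpose_mul_eq, Fintype.sum_prod_type, Fintype.sum_prod_type,
    sum_wsplit e]
  apply Finset.sum_congr rfl
  intro t _
  simp only [sum_wsplit e (fun c => plc e D P _ c * f _ c), plc_gl]
  rw [Finset.sum_comm]
  apply Finset.sum_congr rfl
  intro t' _
  rw [ctr_apply, Finset.mul_sum]
  apply Finset.sum_congr rfl
  intro s _
  rw [Finset.mul_sum]
  apply Finset.sum_congr rfl
  intro s' _
  ring

theorem ctr_PM (e : κ ⊕ μ ≃ ι) (τ : Equiv.Perm κ) (σ : Equiv.Perm ι) :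
    ∃ (a : R) (π : Equiv.Perm μ), ctr e (PM k R τ) (PM k R σ) = a • PM k R π := by
  obtain ⟨a, π, h⟩ := ptr_many (k := k) (R := R) μ κ
    (e.permCongr.symm σ * Equiv.sumCongr τ⁻¹ (1 : Equiv.Perm μ))
  refine ⟨a, π, ?_⟩
  apply Matrix.ext
  intro r c
  rw [Matrix.smul_apply, smul_eq_mul, ← h r c, ctr_apply]
  apply Finset.sum_congr rfl
  intro s _
  rw [Finset.sum_eq_single (s ∘ τ)]
  · rw [PM_apply, if_pos rfl, one_mul, PM_apply, PM_apply]
    congr 1
    rw [eq_iff_iff]
    constructor
    · intro h1
      funext i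
      have := congrFun h1 (e (Equiv.sumCongr τ⁻¹ (1 : Equiv.Perm μ) i))
      simp only [gl, Function.comp_apply, Equiv.symm_apply_apply] at this
      rcases i with i | i
      · simpa [gl] using this
      · simpa [gl] using this
    · intro h1
      funext i
      obtain ⟨j, rfl⟩ := e.surjective i
      have := congrFun h1 (Equiv.sumCongr τ (1 : Equiv.Perm μ) j)
      simp only [gl, Function.comp_apply, Equiv.symm_apply_apply]
      rcases j with j | j
      · simpa [gl] using this
      · simpa [gl] using this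
  · intro b _ hb
    rw [PM_apply, if_neg hb, zero_mul]
  · intro h; exact absurd (Finset.mem_univ _) h

theorem ctr_mem (e : κ ⊕ μ ≃ ι) {D : Matrix (κ → Fin k) (κ → Fin k) R} (hD : D ∈ AA k R κ)
    {f : Matrix (ι → Fin k) (ι → Fin k) R} (hf : f ∈ AA k R ι) : ctr e D f ∈ AA k R μ := by
  unfold AA at hD hf
  induction hD using Submodule.span_induction with
  | mem x hx =>
    obtain ⟨τ, rfl⟩ := hx
    induction hf using Submodule.span_induction with
    | mem y hy =>
      obtain ⟨σ, rfl⟩ := hy
      obtain ⟨a, π, h⟩ := ctr_PM (k := k) (R := R) e τ σ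
      show ctr e (PM k R τ) (PM k R σ) ∈ _
      rw [h]
      exact Submodule.smul_mem _ _ (PM_mem _)
    | zero =>
      have : ctr e (PM k R τ) (0 : Matrix (ι → Fin k) (ι → Fin k) R) = 0 := by
        apply Matrix.ext; intro r c; rw [ctr_apply]; simp
      show ctr e (PM k R τ) 0 ∈ _
      rw [this]; exact Submodule.zero_mem _
    | add a b _ _ ha hb =>
      have : ctr e (PM k R τ) (a + b) = ctr e (PM k R τ) a + ctr e (PM k R τ) b := by
        apply Matrix.ext; intro r c
        rw [Matrix.add_apply, ctr_apply, ctr_apply, ctr_apply]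
        simp only [Matrix.add_apply, mul_add, Finset.sum_add_distrib]
      show ctr e (PM k R τ) (a + b) ∈ _
      rw [this]; exact Submodule.add_mem _ ha hb
    | smul x a _ ha =>
      have : ctr e (PM k R τ) (x • a) = x • ctr e (PM k R τ) a := by
        apply Matrix.ext; intro r c
        rw [Matrix.smul_apply, ctr_apply, ctr_apply]
        simp only [Matrix.smul_apply, smul_eq_mul, Finset.mul_sum]
        apply Finset.sum_congr rfl; intro s _
        apply Finset.sum_congr rfl; intro s' _
        ring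
      show ctr e (PM k R τ) (x • a) ∈ _
      rw [this]; exact Submodule.smul_mem _ _ ha
  | zero =>
    have : ctr e (0 : Matrix (κ → Fin k) (κ → Fin k) R) f = 0 := by
      apply Matrix.ext; intro r c; rw [ctr_apply]; simp
    rw [this]; exact Submodule.zero_mem _
  | add a b _ _ ha hb =>
    have : ctr e (a + b) f = ctr e a f + ctr e b f := by
      apply Matrix.ext; intro r c
      rw [Matrix.add_apply, ctr_apply, ctr_apply, ctr_apply]
      simp only [Matrix.add_apply, add_mul, Finset.sum_add_distrib]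
    rw [this]; exact Submodule.add_mem _ ha hb
  | smul x a _ ha =>
    have : ctr e (x • a) f = x • ctr e a f := by
      apply Matrix.ext; intro r c
      rw [Matrix.smul_apply, ctr_apply, ctr_apply]
      simp only [Matrix.smul_apply, smul_eq_mul, Finset.mul_sum]
      apply Finset.sum_congr rfl; intro s _
      apply Finset.sum_congr rfl; intro s' _
      ring
    rw [this]; exact Submodule.smul_mem _ _ ha

end contr

end Pool.Agent.V119.CC
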