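import Pool.Agent.V119.CC.Contr

set_option autoImplicit false
set_option linter.unusedSectionVars false

namespace Pool.Agent.V119.CC

open Matrix Finset

section fn

variable {k : ℕ} {R : Type*} [CommRing R]
variable {ι : Type*} [Fintype ι] [DecidableEq ι]

/-- the multilinear function of a matrix -/
def fn (A : Matrix (ι → Fin k) (ι → Fin k) R) (X : ι → Matrix (Fin k) (Fin k) R) : R :=
  ∑ r : ι → Fin k, ∑ c : ι → Fin k, A r c * ∏ i, X i (r i) (c i)

/-- the trace function of a permutation -/
def trf (σ : Equiv.Perm ι) (X : ι → Matrix (Fin k) (Fin k) R) : R :=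
  ∑ r : ι → Fin k, ∏ i, X i (r i) (r (σ i))

/-- `fn` as a linear map -/
def fnL (k : ℕ) (R : Type*) [CommRing R] (ι : Type*) [Fintype ι] [DecidableEq ι] :
    Matrix (ι → Fin k) (ι → Fin k) R →ₗ[R] ((ι → Matrix (Fin k) (Fin k) R) → R) where
  toFun := fn
  map_add' := by
    intro A B
    funext X
    simp only [fn, Matrix.add_apply, add_mul, Finset.sum_add_distrib, Pi.add_apply]
  map_smul' := by
    intro c A
    funext X
    simp only [fn, Matrix.smul_apply, smul_eq_mul, mul_assoc, Pi.smul_apply, RingHom.id_apply,
      Finset.mul_sum]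

theorem fn_single (A : Matrix (ι → Fin k) (ι → Fin k) R) (r c : ι → Fin k) :
    fn A (fun i => Matrix.single (r i) (c i) 1) = A r c := by
  unfold fn
  rw [Finset.sum_eq_single r]
  · rw [Finset.sum_eq_single c]
    · simp
    · intro b _ hb
      obtain ⟨i, hi⟩ : ∃ i, b i ≠ c i := by
        by_contra h; push Not at h; exact hb (funext h)
      rw [Finset.prod_eq_zero (Finset.mem_univ i), mul_zero]
      show Matrix.single (r i) (c i) (1 : R) (r i) (b i) = 0
      rw [Matrix.single_apply, if_neg]
      rintro ⟨-, h⟩; exact hi h.symm
    · intro h; exact absurd (Finset.mem_univ _) h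
  · intro b _ hb
    obtain ⟨i, hi⟩ : ∃ i, b i ≠ r i := by
      by_contra h; push Not at h; exact hb (funext h)
    apply Finset.sum_eq_zero
    intro s _
    rw [Finset.prod_eq_zero (Finset.mem_univ i), mul_zero]
    show Matrix.single (r i) (c i) (1 : R) (b i) (s i) = 0
    rw [Matrix.single_apply, if_neg]
    rintro ⟨h, -⟩; exact hi h.symm
  · intro h; exact absurd (Finset.mem_univ _) h

theorem fnL_injective : Function.Injective (fnL k R ι) := by
  intro A B h
  apply Matrix.ext
  intro r c
  rw [← fn_single A, ← fn_single B]
  exact congrFun h _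

theorem fn_PM (σ : Equiv.Perm ι) (X : ι → Matrix (Fin k) (Fin k) R) :
    fn (PM k R σ) X = trf σ X := by
  unfold fn trf
  apply Finset.sum_congr rfl
  intro r _
  rw [Finset.sum_eq_single (r ∘ σ)]
  · rw [PM_apply, if_pos rfl, one_mul]; rfl
  · intro b _ hb
    rw [PM_apply, if_neg hb, zero_mul]
  · intro h; exact absurd (Finset.mem_univ _) h

theorem fn_plc {κ μ : Type*} [Fintype κ] [Fintype μ] [DecidableEq κ] [DecidableEq μ]
    (e : κ ⊕ μ ≃ ι) (D : Matrix (κ → Fin k) (κ → Fin k) R)
    (P : Matrix (μ → Fin k) (μ → Fin k) R) (X : ι → Matrix (Fin k) (Fin k) R) :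
    fn (plc e D P) X = fn D (fun x => X (e (Sum.inl x))) * fn P (fun x => X (e (Sum.inr x))) := by
  unfold fn
  rw [sum_wsplit e, Finset.sum_mul_sum, Finset.sum_comm]
  apply Finset.sum_congr rfl
  intro s _
  apply Finset.sum_congr rfl
  intro t _
  rw [sum_wsplit e, Finset.sum_mul_sum, Finset.sum_comm]
  apply Finset.sum_congr rfl
  intro s' _
  apply Finset.sum_congr rfl
  intro t' _
  rw [plc_gl]
  have h1 : ∏ i, X i (gl e s t i) (gl e s' t' i) =
      (∏ x, X (e (Sum.inl x)) (s x) (s' x)) * ∏ x, X (e (Sum.inr x)) (t x) (t' x) := by
    rw [← Equiv.prod_comp e, Fintype.prod_sum_type]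
    simp [gl]
  rw [h1]
  ring

/-! ### Two recursions -/

theorem trf_option_congr (τ : Equiv.Perm ι) (X : Option ι → Matrix (Fin k) (Fin k) R) :
    trf (Equiv.optionCongr τ) X = (X none).trace * trf τ (fun i => X (some i)) := by
  unfold trf
  rw [sum_option_words]
  unfold Matrix.trace
  rw [Finset.sum_mul_sum]
  apply Finset.sum_congr rfl
  intro t _
  apply Finset.sum_congr rfl
  intro r _
  rw [Fintype.prod_option]
  rfl

theorem trf_option_swap (τ : Equiv.Perm ι) (a : ι) (X : Option ι → Matrix (Fin k) (Fin k) R) :
    trf (Equiv.optionCongr τ * Equiv.swap none (some a)) X =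
      trf τ (Function.update (fun i => X (some i)) a (X (some a) * X none)) := by
  unfold trf
  rw [sum_option_words, Finset.sum_comm]
  apply Finset.sum_congr rfl
  intro r _
  have h1 : ∏ i, Function.update (fun i => X (some i)) a (X (some a) * X none) i (r i) (r (τ i)) =
      (X (some a) * X none) (r a) (r (τ a)) *
        ∏ i ∈ Finset.univ.erase a, X (some i) (r i) (r (τ i)) := by
    rw [← Finset.mul_prod_erase Finset.univ _ (Finset.mem_univ a), Function.update_self]
    congr 1
    apply Finset.prod_congr rfl
    intro i hi
    rw [Function.update_of_ne (Finset.ne_of_mem_erase hi)]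
  rw [h1, Matrix.mul_apply, Finset.sum_mul]
  apply Finset.sum_congr rfl
  intro t _
  rw [Fintype.prod_option, ← Finset.mul_prod_erase Finset.univ _ (Finset.mem_univ a)]
  have h2 : ∏ x ∈ Finset.univ.erase a, X (some x) (consO t r (some x))
      (consO t r ((Equiv.optionCongr τ * Equiv.swap none (some a)) (some x))) =
      ∏ i ∈ Finset.univ.erase a, X (some i) (r i) (r (τ i)) := by
    apply Finset.prod_congr rfl
    intro i hi
    rw [Equiv.Perm.mul_apply, Equiv.swap_apply_of_ne_of_ne (by simp)
      (by intro h; exact Finset.ne_of_mem_erase hi (Option.some.inj h))]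
    rfl
  rw [h2]
  rw [Equiv.Perm.mul_apply, Equiv.Perm.mul_apply, Equiv.swap_apply_left, Equiv.swap_apply_right]
  simp only [consO_none, consO_some, Equiv.optionCongr_apply, Option.map_none, Option.map_some]
  ring

theorem perm_option_cases (σ : Equiv.Perm (Option ι)) :
    (∃ τ : Equiv.Perm ι, σ = Equiv.optionCongr τ) ∨
    (∃ (τ : Equiv.Perm ι) (a : ι), σ = Equiv.optionCongr τ * Equiv.swap none (some a)) := by
  obtain ⟨⟨i, τ⟩, h⟩ := (Equiv.Perm.decomposeOption (α := ι)).symm.surjective σ⁻¹
  have h1 : σ = Equiv.optionCongr τ⁻¹ * Equiv.swap none i := by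
    have h2 : σ⁻¹ = Equiv.swap none i * Equiv.optionCongr τ := by
      rw [← h]; rfl
    rw [← inv_inv σ, h2, _root_.mul_inv_rev, Equiv.swap_inv]
    congr 1
  rcases i with _ | a
  · left
    refine ⟨τ⁻¹, ?_⟩
    rw [h1, Equiv.swap_self]
    rfl
  · right
    exact ⟨τ⁻¹, a, h1⟩

theorem trf_congr {ι' : Type*} [Fintype ι'] [DecidableEq ι'] (e : ι ≃ ι') (σ : Equiv.Perm ι)
    (X : ι' → Matrix (Fin k) (Fin k) R) : trf (e.permCongr σ) X = trf σ (fun i => X (e i)) := by
  unfold trf
  apply Fintype.sum_equiv (Equiv.arrowCongr e.symm (Equiv.refl (Fin k)))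
  intro r
  rw [← Equiv.prod_comp e]
  apply Finset.prod_congr rfl
  intro i _
  simp

end fn

/-! ### Trace words -/

section words

/-- the monomial of a word -/
def mon {k : ℕ} {R : Type*} [CommRing R] {ι : Type*} (l : List ι)
    (X : ι → Matrix (Fin k) (Fin k) R) : Matrix (Fin k) (Fin k) R := (l.map X).prod

variable {k : ℕ} {R : Type*} [CommRing R] {ι : Type*}

theorem mon_append (l l' : List ι) (X : ι → Matrix (Fin k) (Fin k) R) :
    mon (l ++ l') X = mon l X * mon l' X := by
  unfold mon
  rw [List.map_append, List.prod_append]

theorem mon_cons (a : ι) (l : List ι) (X : ι → Matrix (Fin k) (Fin k) R) :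
    mon (a :: l) X = X a * mon l X := by
  unfold mon
  rw [List.map_cons, List.prod_cons]

theorem mon_nil (X : ι → Matrix (Fin k) (Fin k) R) : mon [] X = 1 := rfl

theorem mon_map {ι' : Type*} (g : ι' → ι) (l : List ι') (X : ι → Matrix (Fin k) (Fin k) R) :
    mon (l.map g) X = mon l (fun i => X (g i)) := by
  unfold mon
  rw [List.map_map]
  rfl

theorem mon_flatMap {ι' : Type*} (g : ι' → List ι) (l : List ι')
    (X : ι → Matrix (Fin k) (Fin k) R) : mon (l.flatMap g) X = mon l (fun i => mon (g i) X) := by
  induction l with
  | nil => rfl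
  | cons a l ih => rw [List.flatMap_cons, mon_append, ih, mon_cons]

theorem mon_congr {l : List ι} {X Y : ι → Matrix (Fin k) (Fin k) R} (h : ∀ i ∈ l, X i = Y i) :
    mon l X = mon l Y := by
  unfold mon
  rw [List.map_congr_left h]

/-- a list enumerating the type -/
def Enum (l : List ι) : Prop := l.Nodup ∧ ∀ i, i ∈ l

end words

/-- every trace function is a product of trace words -/
theorem exists_words (k : ℕ) (R : Type) [CommRing R] (ι : Type) [Fintype ι] :
    ∀ [DecidableEq ι] (σ : Equiv.Perm ι), ∃ Ls : List (List ι), Enum Ls.flatten ∧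
      ∀ (X : ι → Matrix (Fin k) (Fin k) R),
        trf σ X = (Ls.map (fun l => (mon l X).trace)).prod := by
  refine Fintype.induction_empty_option (P := fun ι _ => ∀ [DecidableEq ι] (σ : Equiv.Perm ι),
    ∃ Ls : List (List ι), Enum Ls.flatten ∧
      ∀ (X : ι → Matrix (Fin k) (Fin k) R),
        trf σ X = (Ls.map (fun l => (mon l X).trace)).prod) ?_ ?_ ?_ ι
  · intro α β _ e ih _ σ
    let h0 : Fintype α := Fintype.ofEquiv β e.symm
    let h1 : DecidableEq α := Classical.decEq α
    obtain ⟨Ls, hE, h⟩ := ih (e.permCongr.symm σ)
    refine ⟨Ls.map (List.map e), ?_, ?_⟩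
    · rw [← List.map_flatten]
      refine ⟨hE.1.map e.injective, ?_⟩
      intro i
      rw [List.mem_map]
      exact ⟨e.symm i, hE.2 _, by simp⟩
    · intro X
      have h2 := trf_congr e (e.permCongr.symm σ) X
      rw [Equiv.apply_symm_apply] at h2
      rw [h2, h, List.map_map]
      congr 1
      apply List.map_congr_left
      intro l _
      rw [Function.comp_apply, mon_map]
  · intro _ σ
    refine ⟨[], ⟨List.nodup_nil, fun i => i.elim⟩, ?_⟩
    intro X
    unfold trf
    simp
  · intro α _ ih inst σ
    let instα : DecidableEq α := Classical.decEq α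
    obtain rfl : inst = @Option.instDecidableEq α instα := Subsingleton.elim _ _
    rcases perm_option_cases σ with ⟨τ, rfl⟩ | ⟨τ, a, rfl⟩
    · obtain ⟨Ls, hE, h⟩ := ih τ
      refine ⟨[none] :: Ls.map (List.map some), ?_, ?_⟩
      · rw [List.flatten_cons, ← List.map_flatten]
        refine ⟨?_, ?_⟩
        · rw [List.singleton_append, List.nodup_cons]
          refine ⟨?_, hE.1.map (Option.some_injective _)⟩
          rw [List.mem_map]
          rintro ⟨a, -, ha⟩
          cases ha
        · rintro (_ | i)
          · simp
          · rw [List.mem_append, List.mem_map]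
            exact Or.inr ⟨i, hE.2 i, rfl⟩
      · intro X
        rw [trf_option_congr, List.map_cons, List.prod_cons, h, List.map_map]
        congr 1
        · rw [mon_cons, mon_nil, mul_one]
        · congr 1
          apply List.map_congr_left
          intro l _
          rw [Function.comp_apply, mon_map]
    · obtain ⟨Ls, hE, h⟩ := ih τ
      set g : α → List (Option α) := fun i => if i = a then [some a, none] else [some i] with hg
      refine ⟨Ls.map (List.flatMap g), ?_, ?_⟩
      · have h3 : (Ls.map (List.flatMap g)).flatten = Ls.flatten.flatMap g := by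
          clear hE h
          induction Ls with
          | nil => rfl
          | cons l Ls ih2 =>
            rw [List.map_cons, List.flatten_cons, List.flatten_cons, List.flatMap_append, ih2]
        rw [h3]
        refine ⟨?_, ?_⟩
        · rw [List.nodup_flatMap]
          refine ⟨?_, ?_⟩
          · intro i _
            rw [hg]
            dsimp only
            split_ifs <;> simp
          · apply List.Pairwise.imp _ hE.1
            intro x y hxy
            show List.Disjoint (g x) (g y)
            intro o ho1 ho2
            rw [hg] at ho1 ho2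
            dsimp only at ho1 ho2
            split_ifs at ho1 ho2 with h5 h6 h6
            · exact hxy (h5.trans h6.symm)
            · simp only [List.mem_cons, List.not_mem_nil, or_false] at ho1 ho2
              rcases ho1 with ho1 | ho1
              · rw [ho1] at ho2
                exact h6 (Option.some.inj ho2).symm
              · rw [ho1] at ho2; cases ho2
            · simp only [List.mem_cons, List.not_mem_nil, or_false] at ho1 ho2
              rcases ho2 with ho2 | ho2
              · rw [ho2] at ho1
                exact h5 (Option.some.inj ho1).symm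
              · rw [ho2] at ho1; cases ho1
            · simp only [List.mem_cons, List.not_mem_nil, or_false] at ho1 ho2
              rw [ho1] at ho2
              exact hxy (Option.some.inj ho2)
        · rintro (_ | i)
          · rw [List.mem_flatMap]
            exact ⟨a, hE.2 a, by simp [hg]⟩
          · rw [List.mem_flatMap]
            refine ⟨i, hE.2 i, ?_⟩
            rw [hg]
            dsimp only
            split_ifs with h5
            · rw [h5]; simp
            · simp
      · intro X
        rw [trf_option_swap, h, List.map_map]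
        congr 1
        apply List.map_congr_left
        intro l _
        rw [Function.comp_apply, mon_flatMap]
        congr 2
        funext i
        rw [hg]
        dsimp only
        by_cases h5 : i = a
        · subst h5
          rw [Function.update_self, if_pos rfl, mon_cons, mon_cons, mon_nil, mul_one]
        · rw [Function.update_of_ne h5, if_neg h5, mon_cons, mon_nil, mul_one]

/-- every full trace word is a trace function -/
theorem exists_perm_of_word (k : ℕ) (ι : Type) [Fintype ι] :
    ∀ [DecidableEq ι] (l : List ι), Enum l → l ≠ [] → ∃ σ : Equiv.Perm ι,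
      ∀ (R : Type) [CommRing R] (X : ι → Matrix (Fin k) (Fin k) R),
        (mon l X).trace = trf σ X := by
  refine Fintype.induction_empty_option (P := fun ι _ => ∀ [DecidableEq ι] (l : List ι), Enum l →
    l ≠ [] → ∃ σ : Equiv.Perm ι,
      ∀ (R : Type) [CommRing R] (X : ι → Matrix (Fin k) (Fin k) R),
        (mon l X).trace = trf σ X) ?_ ?_ ?_ ι
  · intro α β _ e ih _ l hl hl0
    let h0 : Fintype α := Fintype.ofEquiv β e.symm
    let h1 : DecidableEq α := Classical.decEq α
    obtain ⟨σ, h⟩ := ih (l.map e.symm) ⟨hl.1.map e.symm.injective, fun i => by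
      rw [List.mem_map]; exact ⟨e i, hl.2 _, by simp⟩⟩ (by simpa using hl0)
    refine ⟨e.permCongr σ, ?_⟩
    intro R _ X
    rw [trf_congr, ← h, mon_map]
    congr 2
    funext i
    simp
  · intro _ l hl hl0
    exfalso
    rcases l with _ | ⟨a, l⟩
    · exact hl0 rfl
    · exact a.elim
  · intro α _ ih inst l hl hl0
    let instα : DecidableEq α := Classical.decEq α
    obtain rfl : inst = @Option.instDecidableEq α instα := Subsingleton.elim _ _
    obtain ⟨l1, l2, rfl⟩ := List.append_of_mem (hl.2 none)
    have hn : none ∉ l2 ++ l1 ∧ (l2 ++ l1).Nodup := by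
      have h1 := hl.1
      have h2 : (l1 ++ none :: l2).Perm (none :: (l2 ++ l1)) := by
        refine List.perm_middle.trans ?_
        exact List.Perm.cons _ List.perm_append_comm
      have h3 := (h2.nodup_iff).1 h1
      exact List.nodup_cons.1 h3
    obtain ⟨L, hL⟩ : ∃ L : List α, l2 ++ l1 = L.map some := by
      refine ⟨(l2 ++ l1).filterMap id, ?_⟩
      have : ∀ l : List (Option α), none ∉ l → l = (l.filterMap id).map some := by
        intro l
        induction l with
        | nil => intro _; rfl
        | cons a l ih2 =>
          intro hn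
          rcases a with _ | a
          · exact absurd List.mem_cons_self hn
          · rw [List.filterMap_cons]
            simp only [id, List.map_cons]
            congr 1
            exact ih2 (fun h => hn (List.mem_cons_of_mem _ h))
      exact this _ hn.1
    have hLE : Enum L := by
      refine ⟨?_, ?_⟩
      · have := hn.2
        rw [hL] at this
        exact List.Nodup.of_map _ this
      · intro i
        have h1 := hl.2 (some i)
        have h2 : some i ∈ l2 ++ l1 := by
          rw [List.mem_append, List.mem_cons] at h1
          rw [List.mem_append]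
          rcases h1 with h1 | h1 | h1
          · exact Or.inr h1
          · cases h1
          · exact Or.inl h1
        rw [hL, List.mem_map] at h2
        obtain ⟨j, hj, hj'⟩ := h2
        rw [← Option.some.inj hj']; exact hj
    have hcyc : ∀ (R : Type) [CommRing R] (X : Option α → Matrix (Fin k) (Fin k) R),
        (mon (l1 ++ none :: l2) X).trace = (mon L (fun i => X (some i)) * X none).trace := by
      intro R _ X
      have h1 : mon L (fun i => X (some i)) = mon (l2 ++ l1) X := by rw [hL, mon_map]
      rw [h1, mon_append, mon_append, mon_cons, Matrix.trace_mul_comm,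
        Matrix.mul_assoc, Matrix.trace_mul_comm]
    rcases List.eq_nil_or_concat L with hLn | ⟨L', a, hLa⟩
    · refine ⟨Equiv.optionCongr 1, ?_⟩
      intro R _ X
      rw [hcyc, hLn, mon_nil, one_mul, trf_option_congr]
      have : IsEmpty α := ⟨fun a => by
        have := hLE.2 a
        rw [hLn] at this
        exact List.not_mem_nil this⟩
      unfold trf
      simp
    · rw [List.concat_eq_append] at hLa
      obtain ⟨σ, h⟩ := ih L hLE (by rw [hLa]; simp)
      refine ⟨Equiv.optionCongr σ * Equiv.swap none (some a), ?_⟩
      intro R _ X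
      rw [hcyc, trf_option_swap, ← h, hLa, mon_append, mon_append, mon_cons, mon_cons, mon_nil,
        mul_one, mon_nil, mul_one, Function.update_self, Matrix.mul_assoc]
      congr 2
      apply mon_congr
      intro i hi
      rw [Function.update_of_ne]
      rintro rfl
      have := hLE.1
      rw [hLa, List.nodup_append] at this
      exact this.2.2 i hi i (by simp) rfl

end Pool.Agent.V119.CC
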