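import Mathlib

set_option autoImplicit false
set_option linter.unusedSectionVars false

namespace Pool.Agent.V119.CC

open Matrix Finset

/-! ### Orthonormal families of real matrices -/

section ONB

variable {m m' : Type*} [Fintype m] [Fintype m'] [DecidableEq m] [DecidableEq m']

/-- an orthonormal basis of `S` for the trace form -/
structure IsONB {d : ℕ} (S : Submodule ℝ (Matrix m m' ℝ)) (a : Fin d → Matrix m m' ℝ) : Prop where
  mem : ∀ i, a i ∈ S
  orth : ∀ i j, ((a i)ᵀ * a j).trace = if i = j then 1 else 0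
  comp : ∀ x ∈ S, ∑ i, ((a i)ᵀ * x).trace • a i = x

theorem trace_transpose_mul_eq (A B : Matrix m m' ℝ) :
    (Aᵀ * B).trace = ∑ p : m × m', A p.1 p.2 * B p.1 p.2 := by
  unfold Matrix.trace
  simp only [Matrix.diag_apply, Matrix.mul_apply, Matrix.transpose_apply]
  rw [Fintype.sum_prod_type, Finset.sum_comm]

theorem exists_onb (S : Submodule ℝ (Matrix m m' ℝ)) :
    ∃ a : Fin (Module.finrank ℝ S) → Matrix m m' ℝ, IsONB S a := by
  let L0 : Matrix m m' ℝ ≃ₗ[ℝ] (m × m' → ℝ) := (LinearEquiv.curry ℝ ℝ m m').symm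
  let L : Matrix m m' ℝ ≃ₗ[ℝ] EuclideanSpace ℝ (m × m') :=
    L0.trans (WithLp.linearEquiv 2 ℝ (m × m' → ℝ)).symm
  have hL : ∀ A B : Matrix m m' ℝ, inner ℝ (L A) (L B) = (Aᵀ * B).trace := by
    intro A B
    rw [trace_transpose_mul_eq, PiLp.inner_apply]
    apply Finset.sum_congr rfl
    intro p _
    show B p.1 p.2 * A p.1 p.2 = _
    ring
  set S' : Submodule ℝ (EuclideanSpace ℝ (m × m')) := S.map (L : Matrix m m' ℝ →ₗ[ℝ] _) with hS'
  have hfin : Module.finrank ℝ S' = Module.finrank ℝ S := LinearEquiv.finrank_map_eq L S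
  let b := stdOrthonormalBasis ℝ S'
  refine ⟨fun i => L.symm (b (Fin.cast hfin.symm i) : EuclideanSpace ℝ (m × m')), ?_, ?_, ?_⟩
  · intro i
    obtain ⟨y, hy, hy'⟩ := Submodule.mem_map.1 (b (Fin.cast hfin.symm i)).2
    rw [← hy']
    have h2 : L.symm ((L : Matrix m m' ℝ →ₗ[ℝ] _) y) = y := L.symm_apply_apply y
    rw [h2]
    exact hy
  · intro i j
    rw [← hL, L.apply_symm_apply, L.apply_symm_apply]
    have := orthonormal_iff_ite.1 b.orthonormal (Fin.cast hfin.symm i) (Fin.cast hfin.symm j)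
    rw [← Submodule.coe_inner] 
    rw [this]
    simp only [Fin.cast_inj]
  · intro x hx
    have hx' : L x ∈ S' := Submodule.mem_map_of_mem hx
    have h1 := b.sum_repr' ⟨L x, hx'⟩
    have h2 := congrArg (fun z : S' => L.symm (z : EuclideanSpace ℝ (m × m'))) h1
    simp only [Submodule.coe_sum, Submodule.coe_smul, map_sum, map_smul, L.symm_apply_apply] at h2
    rw [← Equiv.sum_comp (finCongr hfin)] 
    rw [← h2]
    apply Finset.sum_congr rfl
    intro i _
    rw [h2]
    congr 1
    rw [Submodule.coe_inner, ← hL, L.apply_symm_apply]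
    rfl

end ONB

/-! ### The Gram inequality -/

theorem gram_ineq {G : Type*} [Fintype G] {c : ℕ} (α : G → Fin c → ℝ) :
    (∑ g, ∑ i, α g i * α g i) ^ 2 ≤ c * ∑ g, ∑ h, (∑ i, α g i * α h i) ^ 2 := by
  have h1 : (∑ i : Fin c, ∑ g, α g i * α g i) ^ 2 ≤
      (Finset.univ : Finset (Fin c)).card * ∑ i : Fin c, (∑ g, α g i * α g i) ^ 2 :=
    sq_sum_le_card_mul_sum_sq
  rw [Finset.card_univ, Fintype.card_fin] at h1
  have h2 : ∑ i : Fin c, (∑ g, α g i * α g i) ^ 2 ≤
      ∑ i : Fin c, ∑ j : Fin c, (∑ g, α g i * α g j) ^ 2 := by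
    apply Finset.sum_le_sum
    intro i _
    exact Finset.single_le_sum (f := fun j => (∑ g, α g i * α g j) ^ 2)
      (fun j _ => sq_nonneg _) (Finset.mem_univ i)
  have h3 : ∑ i : Fin c, ∑ j : Fin c, (∑ g, α g i * α g j) ^ 2 =
      ∑ g, ∑ h, (∑ i, α g i * α h i) ^ 2 := by
    simp only [sq, Finset.sum_mul_sum]
    calc ∑ i, ∑ j, ∑ g, ∑ h, α g i * α g j * (α h i * α h j)
        = ∑ i, ∑ g, ∑ j, ∑ h, α g i * α g j * (α h i * α h j) := by
          apply Finset.sum_congr rfl; intro i _; exact Finset.sum_comm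
      _ = ∑ g, ∑ i, ∑ j, ∑ h, α g i * α g j * (α h i * α h j) := Finset.sum_comm
      _ = ∑ g, ∑ i, ∑ h, ∑ j, α g i * α g j * (α h i * α h j) := by
          apply Finset.sum_congr rfl; intro g _
          apply Finset.sum_congr rfl; intro i _; exact Finset.sum_comm
      _ = ∑ g, ∑ h, ∑ i, ∑ j, α g i * α g j * (α h i * α h j) := by
          apply Finset.sum_congr rfl; intro g _; exact Finset.sum_comm
      _ = _ := by
          apply Finset.sum_congr rfl; intro g _
          apply Finset.sum_congr rfl; intro h _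
          apply Finset.sum_congr rfl; intro i _
          apply Finset.sum_congr rfl; intro j _
          ring
  rw [Finset.sum_comm]
  calc _ ≤ (c : ℝ) * ∑ i : Fin c, (∑ g, α g i * α g i) ^ 2 := h1
    _ ≤ (c : ℝ) * ∑ i : Fin c, ∑ j : Fin c, (∑ g, α g i * α g j) ^ 2 :=
        mul_le_mul_of_nonneg_left h2 (Nat.cast_nonneg _)
    _ = _ := by rw [h3]

/-! ### The commutant inequality -/

section comm

variable {m : Type*} [Fintype m] [DecidableEq m] {G : Type*} [Group G] [Fintype G]

/-- the commutant -/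
def Comm (V : G → Matrix m m ℝ) : Submodule ℝ (Matrix m m ℝ) where
  carrier := {Y | ∀ g, V g * Y = Y * V g}
  add_mem' := by
    intro X Y hX hY g
    rw [mul_add, add_mul, hX g, hY g]
  zero_mem' := by intro g; rw [mul_zero, zero_mul]
  smul_mem' := by
    intro c X hX g
    rw [Matrix.mul_smul, Matrix.smul_mul, hX g]

theorem comm_char (V : G → Matrix m m ℝ) (hmul : ∀ g h, V (g * h) = V g * V h)
    (hone : V 1 = 1) (htr : ∀ g, (V g)ᵀ = V g⁻¹) :
    ∑ g, (V g).trace * (V g).trace = (Fintype.card G : ℝ) * Module.finrank ℝ (Comm V) := by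
  obtain ⟨y, hy⟩ := exists_onb (Comm V)
  have hinv : ∀ g, V g⁻¹ * V g = 1 := by intro g; rw [← hmul, inv_mul_cancel, hone]
  have hinv' : ∀ g, V g * V g⁻¹ = 1 := by intro g; rw [← hmul, mul_inv_cancel, hone]
  -- averaging
  have hP : ∀ Y : Matrix m m ℝ, (∑ g, V g * Y * V g⁻¹) ∈ Comm V := by
    intro Y h
    rw [Finset.mul_sum, Finset.sum_mul]
    rw [← Equiv.sum_comp (Equiv.mulLeft h⁻¹)
      (fun g => V h * (V g * Y * V g⁻¹))]
    apply Finset.sum_congr rfl
    intro g _
    simp only [Equiv.coe_mulLeft]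
    rw [hmul, _root_.mul_inv_rev, inv_inv, hmul]
    rw [← Matrix.mul_assoc, ← Matrix.mul_assoc, ← Matrix.mul_assoc, ← Matrix.mul_assoc, hinv',
      Matrix.one_mul]
  have hcoef : ∀ (Y : Matrix m m ℝ) (l), ((y l)ᵀ * ∑ g, V g * Y * V g⁻¹).trace =
      (Fintype.card G : ℝ) * ((y l)ᵀ * Y).trace := by
    intro Y l
    rw [Finset.mul_sum, Matrix.trace_sum]
    have : ∀ g ∈ (Finset.univ : Finset G), ((y l)ᵀ * (V g * Y * V g⁻¹)).trace =
        ((y l)ᵀ * Y).trace := by
      intro g _
      have h1 : (y l)ᵀ * V g = V g * (y l)ᵀ := by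
        have h2 := hy.mem l g⁻¹
        have h3 := congrArg Matrix.transpose h2
        rw [Matrix.transpose_mul, Matrix.transpose_mul, htr, inv_inv] at h3
        exact h3
      rw [Matrix.trace_mul_comm, Matrix.mul_assoc, Matrix.mul_assoc, Matrix.trace_mul_comm]
      rw [Matrix.mul_assoc, Matrix.mul_assoc, h1]
      rw [← Matrix.mul_assoc (V g⁻¹), hinv, Matrix.one_mul, Matrix.trace_mul_comm]
    rw [Finset.sum_congr rfl this, Finset.sum_const, Finset.card_univ, nsmul_eq_mul]
  have hexp : ∀ i j : m, (∑ g, V g * Matrix.single i j (1 : ℝ) * V g⁻¹) i j =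
      (Fintype.card G : ℝ) * ∑ l, y l i j * y l i j := by
    intro i j
    have h1 := hy.comp _ (hP (Matrix.single i j (1 : ℝ)))
    have h2 := congrFun (congrFun h1 i) j
    rw [← h2, Matrix.sum_apply, Finset.mul_sum]
    apply Finset.sum_congr rfl
    intro l _
    rw [Matrix.smul_apply, hcoef, smul_eq_mul]
    have h3 : ((y l)ᵀ * Matrix.single i j (1 : ℝ)).trace = y l i j := by
      rw [trace_transpose_mul_eq, Finset.sum_eq_single (i, j)]
      · simp
      · rintro ⟨a, b⟩ _ hab
        simp only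
        rw [Matrix.single_apply, if_neg, mul_zero]
        rintro ⟨h4, h5⟩
        apply hab
        rw [h4, h5]
      · intro h; exact absurd (Finset.mem_univ _) h
    rw [h3]
    ring
  have hlhs : ∀ i j : m, (∑ g, V g * Matrix.single i j (1 : ℝ) * V g⁻¹) i j =
      ∑ g, V g i i * V g⁻¹ j j := by
    intro i j
    rw [Matrix.sum_apply]
    apply Finset.sum_congr rfl
    intro g _
    rw [Matrix.mul_apply, Finset.sum_eq_single j]
    · rw [Matrix.mul_apply, Finset.sum_eq_single i]
      · simp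
      · intro b _ hb
        rw [Matrix.single_apply, if_neg, mul_zero]
        rintro ⟨h4, -⟩; exact hb h4.symm
      · intro h; exact absurd (Finset.mem_univ _) h
    · intro b _ hb
      rw [Matrix.mul_apply, Finset.sum_eq_zero, zero_mul]
      intro a _
      rw [Matrix.single_apply, if_neg, mul_zero]
      rintro ⟨-, h4⟩; exact hb h4.symm
    · intro h; exact absurd (Finset.mem_univ _) h
  have htot : ∑ i, ∑ j, ∑ g, V g i i * V g⁻¹ j j =
      (Fintype.card G : ℝ) * Module.finrank ℝ (Comm V) := by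
    have h1 : ∀ i ∈ (Finset.univ : Finset m), ∑ j, ∑ g, V g i i * V g⁻¹ j j =
        ∑ j, (Fintype.card G : ℝ) * ∑ l, y l i j * y l i j := by
      intro i _
      apply Finset.sum_congr rfl
      intro j _
      rw [← hlhs, hexp]
    rw [Finset.sum_congr rfl h1]
    simp only [← Finset.mul_sum]
    congr 1
    have h2 : ∑ i, ∑ j, ∑ l, y l i j * y l i j = ∑ l, ((y l)ᵀ * y l).trace := by
      simp only [trace_transpose_mul_eq]
      have : ∀ l, ∑ p : m × m, y l p.1 p.2 * y l p.1 p.2 =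
          ∑ i, ∑ j, y l i j * y l i j := by
        intro l; rw [Fintype.sum_prod_type]
      simp only [this]
      rw [Finset.sum_comm]
      calc ∑ j, ∑ i, ∑ l, y l i j * y l i j = ∑ j, ∑ l, ∑ i, y l i j * y l i j := by
            apply Finset.sum_congr rfl; intro j _; exact Finset.sum_comm
        _ = ∑ l, ∑ j, ∑ i, y l i j * y l i j := Finset.sum_comm
        _ = _ := by apply Finset.sum_congr rfl; intro l _; exact Finset.sum_comm
    rw [h2]
    simp [hy.orth]
  rw [← htot]
  have h5 : ∀ g : G, (V g).trace * (V g).trace = ∑ i, ∑ j, V g i i * V g⁻¹ j j := by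
    intro g
    have : (V g⁻¹).trace = (V g).trace := by rw [← htr, Matrix.trace_transpose]
    conv_lhs => rw [← this]
    rw [this]
    conv_lhs => rhs; rw [← this]
    unfold Matrix.trace
    rw [Finset.sum_mul_sum]
    rfl
  rw [Finset.sum_congr rfl (fun g _ => h5 g)]
  calc ∑ g, ∑ i, ∑ j, V g i i * V g⁻¹ j j = ∑ i, ∑ g, ∑ j, V g i i * V g⁻¹ j j := Finset.sum_comm
    _ = _ := by apply Finset.sum_congr rfl; intro i _; exact Finset.sum_comm

/-- For an orthogonal representation of a finite group: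
`dim ^ 2 ≤ dim (span of the group) * dim (commutant)`. -/
theorem commutant_ineq (V : G → Matrix m m ℝ) (hmul : ∀ g h, V (g * h) = V g * V h)
    (hone : V 1 = 1) (htr : ∀ g, (V g)ᵀ = V g⁻¹) :
    Fintype.card m ^ 2 ≤ Module.finrank ℝ (Submodule.span ℝ (Set.range V)) * Module.finrank ℝ (Comm V) := by
  obtain ⟨e, he⟩ := exists_onb (Submodule.span ℝ (Set.range V))
  have hG := gram_ineq (fun (g : G) l => ((e l)ᵀ * V g).trace)
  have h1 : ∀ g h : G, ∑ l, ((e l)ᵀ * V g).trace * ((e l)ᵀ * V h).trace = (V (g⁻¹ * h)).trace := by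
    intro g h
    have h2 := he.comp (V h) (Submodule.subset_span ⟨h, rfl⟩)
    have h3 : (V (g⁻¹ * h)).trace = ((V g)ᵀ * V h).trace := by rw [htr, hmul]
    rw [h3]
    conv_rhs => rw [← h2]
    rw [Finset.mul_sum, Matrix.trace_sum]
    apply Finset.sum_congr rfl
    intro l _
    rw [Matrix.mul_smul, Matrix.trace_smul, smul_eq_mul, mul_comm]
    have h4 : ((V g)ᵀ * e l).trace = ((e l)ᵀ * V g).trace := by
      rw [← Matrix.trace_transpose, Matrix.transpose_mul, Matrix.transpose_transpose]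
    rw [h4]
  simp only [h1] at hG
  have h4 : ∑ g : G, (V (g⁻¹ * g)).trace = (Fintype.card G : ℝ) * (Fintype.card m : ℝ) := by
    simp [hone]
  have h5 : ∑ g : G, ∑ h : G, (V (g⁻¹ * h)).trace ^ 2 =
      (Fintype.card G : ℝ) * ((Fintype.card G : ℝ) * Module.finrank ℝ (Comm V)) := by
    rw [← comm_char V hmul hone htr]
    have : ∀ g ∈ (Finset.univ : Finset G), ∑ h : G, (V (g⁻¹ * h)).trace ^ 2 =
        ∑ h : G, (V h).trace * (V h).trace := by
      intro g _
      rw [← Equiv.sum_comp (Equiv.mulLeft g⁻¹) (fun h => (V h).trace * (V h).trace)]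
      apply Finset.sum_congr rfl
      intro h _
      rw [sq]; rfl
    rw [Finset.sum_congr rfl this, Finset.sum_const, Finset.card_univ, nsmul_eq_mul]
  rw [h4, h5] at hG
  have hpos : (0 : ℝ) < Fintype.card G := by
    have : 0 < Fintype.card G := Fintype.card_pos_iff.2 ⟨1⟩
    exact_mod_cast this
  have h6 : ((Fintype.card G : ℝ) ^ 2) * (Fintype.card m : ℝ) ^ 2 ≤
      ((Fintype.card G : ℝ) ^ 2) * ((Module.finrank ℝ (Submodule.span ℝ (Set.range V)) : ℝ) *
        Module.finrank ℝ (Comm V)) := by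
    nlinarith [hG]
  have h7 : (Fintype.card m : ℝ) ^ 2 ≤ (Module.finrank ℝ (Submodule.span ℝ (Set.range V)) : ℝ) *
      Module.finrank ℝ (Comm V) :=
    le_of_mul_le_mul_left h6 (by positivity)
  exact_mod_cast h7

end comm

end Pool.Agent.V119.CC
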