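import Pool.Agent.V119.CC.Tens
import Pool.Agent.V119.CC.Rank

set_option autoImplicit false
set_option linter.unusedSectionVars false

namespace Pool.Agent.V119.CC

open Matrix Finset

variable {k : ℕ} {ι : Type*} [Fintype ι] [DecidableEq ι]

theorem emb_one : emb (1 : Matrix (ι → Fin k) (ι → Fin k) ℝ) = 1 := by
  rw [← PM_one, emb_PM, ← PM_one]
  congr 1
  ext o
  cases o <;> rfl

theorem one_mem_AA : (1 : Matrix (ι → Fin k) (ι → Fin k) ℝ) ∈ AA k ℝ ι := by
  rw [← PM_one]
  exact PM_mem _

/-- **Log-convexity** of the dimensions. -/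
theorem log_convex : Module.finrank ℝ (AA k ℝ (Option ι)) ^ 2 ≤
    Module.finrank ℝ (AA k ℝ ι) * Module.finrank ℝ (AA k ℝ (Option (Option ι))) := by
  obtain ⟨a, ha⟩ := exists_onb (AA k ℝ (Option ι))
  obtain ⟨b, hb⟩ := exists_onb (AA k ℝ ι)
  set V : Equiv.Perm ι → Matrix (Fin (Module.finrank ℝ (AA k ℝ (Option ι))))
      (Fin (Module.finrank ℝ (AA k ℝ (Option ι)))) ℝ :=
    fun g => Matrix.of fun i j => ((a i)ᵀ * (emb (PM k ℝ g) * a j)).trace with hV
  have hVapp : ∀ g i j, V g i j = ((a i)ᵀ * (emb (PM k ℝ g) * a j)).trace := fun _ _ _ => rfl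
  have hmemg : ∀ (x : Matrix (ι → Fin k) (ι → Fin k) ℝ), x ∈ AA k ℝ ι →
      ∀ y ∈ AA k ℝ (Option ι), emb x * y ∈ AA k ℝ (Option ι) :=
    fun x hx y hy => AA_mul_mem (emb_mem hx) hy
  have hmul : ∀ g h, V (g * h) = V g * V h := by
    intro g h
    apply Matrix.ext
    intro i j
    rw [Matrix.mul_apply]
    simp only [hVapp]
    have h1 := ha.comp _ (hmemg _ (PM_mem h) _ (ha.mem j))
    rw [← PM_mul, emb_mul, Matrix.mul_assoc]
    conv_lhs => rw [← h1]
    rw [Finset.mul_sum, Finset.mul_sum, Matrix.trace_sum]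
    apply Finset.sum_congr rfl
    intro l _
    rw [Matrix.mul_smul, Matrix.mul_smul, Matrix.trace_smul, smul_eq_mul, mul_comm]
  have hone : V 1 = 1 := by
    apply Matrix.ext
    intro i j
    rw [hVapp, PM_one, emb_one, Matrix.one_mul, ha.orth, Matrix.one_apply]
  have htr : ∀ g, (V g)ᵀ = V g⁻¹ := by
    intro g
    apply Matrix.ext
    intro i j
    rw [Matrix.transpose_apply, hVapp, hVapp, ← PM_transpose, emb_transpose,
      ← Matrix.trace_transpose, Matrix.transpose_mul, Matrix.transpose_mul,
      Matrix.transpose_transpose, Matrix.mul_assoc]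
  have hineq := commutant_ineq V hmul hone htr
  rw [Fintype.card_fin] at hineq
  refine le_trans hineq (Nat.mul_le_mul ?_ ?_)
  · -- the span of the group
    let Λ : Matrix (ι → Fin k) (ι → Fin k) ℝ →ₗ[ℝ]
        Matrix (Fin (Module.finrank ℝ (AA k ℝ (Option ι))))
          (Fin (Module.finrank ℝ (AA k ℝ (Option ι)))) ℝ :=
      { toFun := fun x => Matrix.of fun i j => ((a i)ᵀ * (emb x * a j)).trace
        map_add' := by
          intro x y
          apply Matrix.ext; intro i j
          simp only [Matrix.of_apply, Matrix.add_apply, emb_add, add_mul, mul_add,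
            Matrix.trace_add]
        map_smul' := by
          intro c x
          apply Matrix.ext; intro i j
          simp only [Matrix.of_apply, Matrix.smul_apply, emb_smul, Matrix.smul_mul,
            Matrix.mul_smul, Matrix.trace_smul, RingHom.id_apply] }
    have : Submodule.span ℝ (Set.range V) = (AA k ℝ ι).map Λ := by
      have h1 : (AA k ℝ ι).map Λ = Submodule.span ℝ (Λ '' (Set.range fun σ => PM k ℝ σ)) :=
        Submodule.map_span Λ _
      rw [h1, ← Set.range_comp]
      rfl
    rw [this]
    exact Submodule.finrank_map_le Λ _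
  · -- the commutant
    let φ : Matrix (Fin (Module.finrank ℝ (AA k ℝ (Option ι))))
          (Fin (Module.finrank ℝ (AA k ℝ (Option ι)))) ℝ →
        Matrix (Option ι → Fin k) (Option ι → Fin k) ℝ →ₗ[ℝ]
        Matrix (Option ι → Fin k) (Option ι → Fin k) ℝ := fun Y =>
      { toFun := fun x => ∑ i, ∑ j, (Y i j * ((a j)ᵀ * x).trace) • a i
        map_add' := by
          intro x y
          simp only [mul_add, Matrix.trace_add, add_smul, Finset.sum_add_distrib]
        map_smul' := by
          intro c x
          simp only [Matrix.mul_smul, Matrix.trace_smul, RingHom.id_apply, Finset.smul_sum,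
            smul_smul, smul_eq_mul]
          apply Finset.sum_congr rfl; intro i _
          apply Finset.sum_congr rfl; intro j _
          congr 1; ring }
    have hφ : ∀ Y x, φ Y x = ∑ i, ∑ j, (Y i j * ((a j)ᵀ * x).trace) • a i := fun _ _ => rfl
    have hφmem : ∀ Y x, φ Y x ∈ AA k ℝ (Option ι) := by
      intro Y x
      rw [hφ]
      exact Submodule.sum_mem _ fun i _ => Submodule.sum_mem _ fun j _ =>
        Submodule.smul_mem _ _ (ha.mem i)
    have hφa : ∀ Y j, φ Y (a j) = ∑ i, Y i j • a i := by
      intro Y j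
      rw [hφ]
      apply Finset.sum_congr rfl
      intro i _
      rw [Finset.sum_eq_single j]
      · rw [ha.orth, if_pos rfl, mul_one]
      · intro l _ hl
        rw [ha.orth, if_neg hl, mul_zero, zero_smul]
      · intro h; exact absurd (Finset.mem_univ _) h
    -- `φ Y` commutes with the left action of `AA ι`
    have hcomm1 : ∀ Y ∈ Comm V, ∀ (g : Equiv.Perm ι) (j), φ Y (emb (PM k ℝ g) * a j) =
        emb (PM k ℝ g) * φ Y (a j) := by
      intro Y hY g j
      have h1 := ha.comp _ (hmemg _ (PM_mem g) _ (ha.mem j))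
      rw [← h1, map_sum, hφa, Finset.mul_sum]
      have h2 : ∀ l, φ Y (((a l)ᵀ * (emb (PM k ℝ g) * a j)).trace • a l) =
          ∑ i, (V g l j * Y i l) • a i := by
        intro l
        rw [map_smul, hφa, Finset.smul_sum]
        apply Finset.sum_congr rfl; intro i _
        rw [smul_smul]; rfl
      rw [Finset.sum_congr rfl (fun l _ => h2 l), Finset.sum_comm]
      have h3 : ∀ l, emb (PM k ℝ g) * Y l j • a l = ∑ i, (V g i l * Y l j) • a i := by
        intro l
        have h4 := ha.comp _ (hmemg _ (PM_mem g) _ (ha.mem l))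
        rw [Matrix.mul_smul]
        conv_lhs => rw [← h4]
        rw [Finset.smul_sum]
        apply Finset.sum_congr rfl; intro i _
        rw [smul_smul, mul_comm]; rfl
      rw [Finset.sum_congr rfl (fun l _ => h3 l)]
      have h6 : ∑ l, ∑ i, (V g i l * Y l j) • a i = ∑ i, ∑ l, (V g i l * Y l j) • a i :=
        Finset.sum_comm
      rw [h6]
      apply Finset.sum_congr rfl; intro i _
      rw [← Finset.sum_smul, ← Finset.sum_smul]
      congr 1
      have h5 := congrFun (congrFun (hY g) i) j
      rw [Matrix.mul_apply, Matrix.mul_apply] at h5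
      rw [h5]
      apply Finset.sum_congr rfl; intro l _
      ring
    have hcomm : ∀ Y ∈ Comm V, ∀ x ∈ AA k ℝ ι, ∀ y ∈ AA k ℝ (Option ι),
        φ Y (emb x * y) = emb x * φ Y y := by
      intro Y hY x hx y hy
      have h1 : ∀ j, φ Y (emb x * a j) = emb x * φ Y (a j) := by
        intro j
        unfold AA at hx
        induction hx using Submodule.span_induction with
        | mem x hx => obtain ⟨g, rfl⟩ := hx; exact hcomm1 Y hY g j
        | zero =>
          have : emb (0 : Matrix (ι → Fin k) (ι → Fin k) ℝ) = 0 := (embL k ℝ ι).map_zero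
          rw [this, zero_mul, zero_mul, map_zero]
        | add u v _ _ hu hv => rw [emb_add, add_mul, add_mul, map_add, hu, hv]
        | smul c u _ hu => rw [emb_smul, Matrix.smul_mul, Matrix.smul_mul, map_smul, hu]
      rw [← ha.comp y hy, Finset.mul_sum, map_sum, map_sum, Finset.mul_sum]
      apply Finset.sum_congr rfl; intro j _
      rw [Matrix.mul_smul, map_smul, map_smul, Matrix.mul_smul, h1]
    -- the Casimir element
    set C : Matrix (ι → Fin k) (ι → Fin k) ℝ := ∑ l, b l * (b l)ᵀ with hC
    have hCmem : C ∈ AA k ℝ ι := Submodule.sum_mem _ fun l _ =>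
      AA_mul_mem (hb.mem l) (AA_transpose_mem (hb.mem l))
    have hCas : ∀ x ∈ AA k ℝ (Option ι), ∑ j, emb (ptr (x * (a j)ᵀ)) * a j = emb C * x := by
      intro x hx
      have h1 : ∀ j, emb (ptr (x * (a j)ᵀ)) =
          ∑ l, ((a j)ᵀ * (emb (b l)ᵀ * x)).trace • emb (b l) := by
        intro j
        have h2 := hb.comp _ (ptr_mem (AA_mul_mem hx (AA_transpose_mem (ha.mem j))))
        have h3 : emb (ptr (x * (a j)ᵀ)) = embL k ℝ ι (ptr (x * (a j)ᵀ)) := rfl
        rw [h3]
        conv_lhs => rw [← h2]
        rw [map_sum]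
        apply Finset.sum_congr rfl; intro l _
        rw [map_smul]
        show _ • emb (b l) = _ • emb (b l)
        congr 1
        rw [← trace_emb_mul, ← Matrix.mul_assoc, Matrix.trace_mul_comm]
      have h4 : ∀ j, emb (ptr (x * (a j)ᵀ)) * a j =
          ∑ l, emb (b l) * (((a j)ᵀ * (emb (b l)ᵀ * x)).trace • a j) := by
        intro j
        rw [h1, Finset.sum_mul]
        apply Finset.sum_congr rfl; intro l _
        rw [Matrix.smul_mul, Matrix.mul_smul]
      rw [Finset.sum_congr rfl (fun j _ => h4 j), Finset.sum_comm]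
      have h5 : ∀ l, ∑ j, emb (b l) * (((a j)ᵀ * (emb (b l)ᵀ * x)).trace • a j) =
          emb (b l) * (emb (b l)ᵀ * x) := by
        intro l
        rw [← Finset.mul_sum,
          ha.comp _ (hmemg _ (AA_transpose_mem (hb.mem l)) _ hx)]
      rw [Finset.sum_congr rfl (fun l _ => h5 l), hC]
      have h6 : emb (∑ l, b l * (b l)ᵀ) = ∑ l, emb (b l) * emb (b l)ᵀ := by
        show embL k ℝ ι (∑ l, b l * (b l)ᵀ) = _
        rw [map_sum]
        apply Finset.sum_congr rfl; intro l _
        exact emb_mul _ _
      rw [h6, Finset.sum_mul]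
      apply Finset.sum_congr rfl; intro l _
      rw [Matrix.mul_assoc]
    have hCinj : ∀ y ∈ AA k ℝ (Option ι), emb C * y = 0 → y = 0 := by
      intro y hy h0
      have h1 : (yᵀ * (emb C * y)).trace = ∑ l, ((emb (b l)ᵀ * y)ᵀ * (emb (b l)ᵀ * y)).trace := by
        have h6 : emb C = ∑ l, emb (b l) * emb (b l)ᵀ := by
          show embL k ℝ ι (∑ l, b l * (b l)ᵀ) = _
          rw [map_sum]
          apply Finset.sum_congr rfl; intro l _
          exact emb_mul _ _
        rw [h6, Finset.sum_mul, Finset.mul_sum, Matrix.trace_sum]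
        apply Finset.sum_congr rfl; intro l _
        rw [Matrix.transpose_mul, emb_transpose, Matrix.transpose_transpose]
        simp only [Matrix.mul_assoc]
      rw [h0, mul_zero, Matrix.trace_zero] at h1
      have hnn : ∀ Z : Matrix (Option ι → Fin k) (Option ι → Fin k) ℝ, 0 ≤ (Zᵀ * Z).trace := by
        intro Z
        rw [trace_transpose_mul_eq]
        exact Finset.sum_nonneg fun p _ => mul_self_nonneg _
      have hz : ∀ Z : Matrix (Option ι → Fin k) (Option ι → Fin k) ℝ, (Zᵀ * Z).trace = 0 →
          Z = 0 := by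
        intro Z hZ
        rw [trace_transpose_mul_eq] at hZ
        apply Matrix.ext
        intro r c
        have := (Finset.sum_eq_zero_iff_of_nonneg (fun p _ => mul_self_nonneg _)).1 hZ (r, c)
          (Finset.mem_univ _)
        exact mul_self_eq_zero.1 this
      have h2 : ∀ l, emb (b l)ᵀ * y = 0 := by
        intro l
        apply hz
        exact (Finset.sum_eq_zero_iff_of_nonneg (fun l _ => hnn _)).1 h1.symm l
          (Finset.mem_univ _)
      have h3 := hb.comp 1 one_mem_AA
      have h4 : y = (emb (1 : Matrix (ι → Fin k) (ι → Fin k) ℝ))ᵀ * y := by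
        rw [emb_one, Matrix.transpose_one, Matrix.one_mul]
      rw [h4]
      conv_lhs => rw [← h3]
      have h5 : emb (∑ l, ((b l)ᵀ * (1 : Matrix (ι → Fin k) (ι → Fin k) ℝ)).trace • b l) =
          ∑ l, ((b l)ᵀ * (1 : Matrix (ι → Fin k) (ι → Fin k) ℝ)).trace • emb (b l) := by
        show embL k ℝ ι _ = _
        rw [map_sum]
        apply Finset.sum_congr rfl; intro l _
        rw [map_smul]; rfl
      rw [h5, Matrix.transpose_sum, Finset.sum_mul]
      apply Finset.sum_eq_zero
      intro l _
      rw [Matrix.transpose_smul, Matrix.smul_mul, ← emb_transpose, h2, smul_zero]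
    -- the injection
    let Ψ : Comm V →ₗ[ℝ] AA k ℝ (Option (Option ι)) :=
      { toFun := fun Y => ⟨∑ j, emb (a j)ᵀ * SS k ℝ ι * emb (∑ i, Y.1 i j • a i),
          Submodule.sum_mem _ fun j _ => AA_mul_mem (AA_mul_mem
            (emb_mem (AA_transpose_mem (ha.mem j))) (PM_mem _))
            (emb_mem (Submodule.sum_mem _ fun i _ => Submodule.smul_mem _ _ (ha.mem i)))⟩
        map_add' := by
          intro Y Z
          apply Subtype.ext
          simp only [Submodule.coe_add, Matrix.add_apply, add_smul, Finset.sum_add_distrib,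
            emb_add, mul_add]
        map_smul' := by
          intro c Y
          apply Subtype.ext
          simp only [Submodule.coe_smul, RingHom.id_apply, Finset.smul_sum]
          apply Finset.sum_congr rfl; intro j _
          rw [← Matrix.mul_smul, ← emb_smul, Finset.smul_sum]
          congr 2
          apply Finset.sum_congr rfl; intro i _
          rw [Matrix.smul_apply, smul_smul, smul_eq_mul] }
    apply LinearMap.finrank_le_finrank_of_injective (f := Ψ)
    rw [injective_iff_map_eq_zero]
    intro Y hY0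
    have hΨ : ∑ j, emb (a j)ᵀ * SS k ℝ ι * emb (φ Y.1 (a j)) = 0 := by
      have := congrArg Subtype.val hY0
      simp only [hφa]
      exact this
    have hzero : ∀ x ∈ AA k ℝ (Option ι), φ Y.1 x = 0 := by
      intro x hx
      apply hCinj _ (hφmem _ _)
      rw [← hcomm Y.1 Y.2 C hCmem x hx, ← hCas x hx, map_sum]
      have h1 : ∀ j, φ Y.1 (emb (ptr (x * (a j)ᵀ)) * a j) =
          ptr (SS k ℝ ι * emb x * (emb (a j)ᵀ * SS k ℝ ι * emb (φ Y.1 (a j)))) := by
        intro j
        rw [hcomm Y.1 Y.2 _ (ptr_mem (AA_mul_mem hx (AA_transpose_mem (ha.mem j)))) _ (ha.mem j)]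
        rw [← ptr_SS, ← ptr_mul_emb, emb_mul]
        simp only [Matrix.mul_assoc]
      rw [Finset.sum_congr rfl (fun j _ => h1 j)]
      show ∑ j, ptrL k ℝ (Option ι) _ = 0
      rw [← map_sum, ← Finset.mul_sum, hΨ, mul_zero, map_zero]
    apply Subtype.ext
    apply Matrix.ext
    intro i j
    have h1 := hzero (a j) (ha.mem j)
    rw [hφa] at h1
    have h2 := congrArg (fun Z => ((a i)ᵀ * Z).trace) h1
    simp only [Finset.mul_sum, Matrix.trace_sum, Matrix.mul_smul, Matrix.trace_smul, ha.orth,
      smul_eq_mul, mul_ite, mul_one, mul_zero, Finset.sum_ite_eq, Finset.mem_univ, if_true,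
      Matrix.trace_zero] at h2
    exact h2

end Pool.Agent.V119.CC
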