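import Pool.Agent.V119.CC.LogConvex

set_option autoImplicit false
set_option linter.unusedSectionVars false

namespace Pool.Agent.V119.CC

open Matrix Finset

/-! ### Invariance under relabelling -/

section congr

variable {k : ℕ} {ι ι' : Type*} [Fintype ι] [Fintype ι'] 

theorem AA_map_reindex {R : Type*} [CommRing R] (e : ι ≃ ι') :
    (AA k R ι).map (Matrix.reindexLinearEquiv R R (Equiv.arrowCongr e (Equiv.refl (Fin k)))
      (Equiv.arrowCongr e (Equiv.refl (Fin k))) : Matrix (ι → Fin k) (ι → Fin k) R →ₗ[R]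
        Matrix (ι' → Fin k) (ι' → Fin k) R) = AA k R ι' := by
  have h1 := Submodule.map_span (Matrix.reindexLinearEquiv R R (Equiv.arrowCongr e (Equiv.refl (Fin k)))
      (Equiv.arrowCongr e (Equiv.refl (Fin k))) : Matrix (ι → Fin k) (ι → Fin k) R →ₗ[R]
        Matrix (ι' → Fin k) (ι' → Fin k) R) (Set.range fun σ : Equiv.Perm ι => PM k R σ)
  unfold AA
  rw [h1]
  congr 1
  rw [← Set.range_comp]
  have key : ∀ σ : Equiv.Perm ι, Matrix.reindexLinearEquiv R R (Equiv.arrowCongr e (Equiv.refl (Fin k)))
      (Equiv.arrowCongr e (Equiv.refl (Fin k))) (PM k R σ) = PM k R (e.permCongr σ) := by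
    intro σ
    apply Matrix.ext
    intro r c
    show PM k R σ (fun i => r (e i)) (fun i => c (e i)) = _
    rw [PM_apply, PM_apply]
    congr 1
    rw [eq_iff_iff]
    constructor
    · intro h
      funext i
      have := congrFun h (e.symm i)
      simpa using this
    · intro h
      funext i
      have := congrFun h (e i)
      simpa using this
  ext M
  constructor
  · rintro ⟨σ, rfl⟩
    exact ⟨e.permCongr σ, (key σ).symm⟩
  · rintro ⟨σ, rfl⟩
    refine ⟨e.permCongr.symm σ, ?_⟩
    have := key (e.permCongr.symm σ)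
    rw [Equiv.apply_symm_apply] at this
    exact this

theorem finrank_AA_congr {R : Type*} [CommRing R] (e : ι ≃ ι') :
    Module.finrank R (AA k R ι) = Module.finrank R (AA k R ι') := by
  rw [← AA_map_reindex (k := k) (R := R) e]
  exact (LinearEquiv.finrank_map_eq _ _).symm

end congr

/-! ### Lower bound for the dimension -/

section lower

variable {k : ℕ} {ι : Type*} [Fintype ι] [DecidableEq ι]

theorem exists_perm_of_counts {A : Type*} [DecidableEq A] (f g : ι → A)
    (h : ∀ a, Fintype.card {i // f i = a} = Fintype.card {i // g i = a}) :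
    ∃ σ : Equiv.Perm ι, g ∘ σ = f := by
  have h1 : ∀ a, Nonempty ({i // f i = a} ≃ {i // g i = a}) := fun a =>
    Fintype.card_eq.1 (h a)
  refine ⟨Equiv.ofFiberEquiv (fun a => (h1 a).some), ?_⟩
  funext i
  exact Equiv.ofFiberEquiv_map _ i

theorem comm_PM_apply {Y : Matrix (ι → Fin k) (ι → Fin k) ℝ}
    (hY : Y ∈ Comm (fun σ : Equiv.Perm ι => PM k ℝ σ)) (σ : Equiv.Perm ι) (r c : ι → Fin k) :
    Y (r ∘ σ) (c ∘ σ) = Y r c := by
  have h0 : PM k ℝ σ * Y = Y * PM k ℝ σ := hY σ
  have h1 := congrFun (congrFun h0 r) (c ∘ σ)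
  rw [Matrix.mul_apply, Matrix.mul_apply] at h1
  rw [Finset.sum_eq_single (r ∘ σ), Finset.sum_eq_single c] at h1
  · simpa [PM_apply] using h1
  · intro b _ hb
    rw [PM_apply, if_neg, mul_zero]
    intro h
    apply hb
    funext i
    have := congrFun h (σ.symm i)
    simpa using this.symm
  · intro h; exact absurd (Finset.mem_univ _) h
  · intro b _ hb
    rw [PM_apply, if_neg hb, zero_mul]
  · intro h; exact absurd (Finset.mem_univ _) h

/-- the type of a pair of words -/
def wtype (p : (ι → Fin k) × (ι → Fin k)) : Fin k × Fin k → Fin (Fintype.card ι + 1) :=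
  fun a => ⟨Fintype.card {i // (p.1 i, p.2 i) = a}, Nat.lt_succ_of_le (Fintype.card_subtype_le _)⟩

theorem finrank_comm_PM_le :
    Module.finrank ℝ (Comm (fun σ : Equiv.Perm ι => PM k ℝ σ)) ≤
      (Fintype.card ι + 1) ^ (k * k) := by
  classical
  let L : Comm (fun σ : Equiv.Perm ι => PM k ℝ σ) →ₗ[ℝ]
      ((Fin k × Fin k → Fin (Fintype.card ι + 1)) → ℝ) :=
    { toFun := fun Y t => if h : ∃ p : (ι → Fin k) × (ι → Fin k), wtype p = t then
        Y.1 h.choose.1 h.choose.2 else 0
      map_add' := by
        intro X Y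
        funext t
        simp only [Pi.add_apply, Submodule.coe_add, Matrix.add_apply]
        split_ifs
        · rfl
        · simp
      map_smul' := by
        intro c X
        funext t
        simp only [Pi.smul_apply, Submodule.coe_smul, Matrix.smul_apply, RingHom.id_apply]
        split_ifs
        · rfl
        · simp }
  have hL : Function.Injective L := by
    rw [injective_iff_map_eq_zero]
    intro Y hY
    apply Subtype.ext
    apply Matrix.ext
    intro r c
    have h1 := congrFun hY (wtype (r, c))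
    have hex : ∃ p : (ι → Fin k) × (ι → Fin k), wtype p = wtype (r, c) := ⟨(r, c), rfl⟩
    have h2 : Y.1 hex.choose.1 hex.choose.2 = 0 := by
      have h3 : L Y (wtype (r, c)) = Y.1 hex.choose.1 hex.choose.2 := by
        show (if h : ∃ p : (ι → Fin k) × (ι → Fin k), wtype p = wtype (r, c) then
          Y.1 h.choose.1 h.choose.2 else 0) = _
        rw [dif_pos hex]
      rw [← h3]; exact h1
    have hsp := hex.choose_spec
    obtain ⟨σ, hσ⟩ := exists_perm_of_counts (fun i => (hex.choose.1 i, hex.choose.2 i))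
      (fun i => (r i, c i)) (by
        intro a
        have := congrArg Fin.val (congrFun hsp a)
        exact this)
    have h4 : r ∘ σ = hex.choose.1 := by
      funext i; exact congrArg Prod.fst (congrFun hσ i)
    have h5 : c ∘ σ = hex.choose.2 := by
      funext i; exact congrArg Prod.snd (congrFun hσ i)
    have h6 := comm_PM_apply Y.2 σ r c
    rw [h4, h5, h2] at h6
    exact h6.symm
  have := LinearMap.finrank_le_finrank_of_injective hL
  refine le_trans this ?_
  rw [Module.finrank_fintype_fun_eq_card]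
  simp

theorem lower_bound : k ^ (2 * Fintype.card ι) ≤
    Module.finrank ℝ (AA k ℝ ι) * (Fintype.card ι + 1) ^ (k * k) := by
  have h := commutant_ineq (fun σ : Equiv.Perm ι => PM k ℝ σ)
    (fun g h => (PM_mul g h).symm) PM_one PM_transpose
  have h2 : Fintype.card (ι → Fin k) ^ 2 = k ^ (2 * Fintype.card ι) := by
    rw [Fintype.card_fun, Fintype.card_fin, ← pow_mul, mul_comm]
  rw [h2] at h
  exact le_trans h (Nat.mul_le_mul_left _ finrank_comm_PM_le)

end lower

/-- the dimension sequence -/
noncomputable def pp (k n : ℕ) : ℕ := Module.finrank ℝ (AA k ℝ (Fin n))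

theorem finrank_AA_eq_pp {k : ℕ} {ι : Type*} [Fintype ι] :
    Module.finrank ℝ (AA k ℝ ι) = pp k (Fintype.card ι) :=
  finrank_AA_congr (Fintype.equivFin ι)

theorem pp_log_convex (k n : ℕ) : pp k (n + 1) ^ 2 ≤ pp k n * pp k (n + 2) := by
  have h := log_convex (k := k) (ι := Fin n)
  rw [finrank_AA_eq_pp, finrank_AA_eq_pp, finrank_AA_eq_pp] at h
  simpa using h

theorem pp_lower (k n : ℕ) : k ^ (2 * n) ≤ pp k n * (n + 1) ^ (k * k) := by
  have h := lower_bound (k := k) (ι := Fin n)
  rw [finrank_AA_eq_pp] at h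
  simpa using h

theorem pp_pos {k : ℕ} (hk : 1 ≤ k) (n : ℕ) : 0 < pp k n := by
  have h := pp_lower k n
  have h1 : 0 < k ^ (2 * n) := pow_pos (by omega) _
  rcases Nat.eq_zero_or_pos (pp k n) with h2 | h2
  · rw [h2, zero_mul] at h; omega
  · exact h2

end Pool.Agent.V119.CC
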