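import Mathlib

set_option autoImplicit false
set_option linter.unusedSectionVars false

namespace Pool.Agent.V119.CC

open Matrix Finset

section Basic

variable {k : ℕ} {R : Type*} [CommRing R]
variable {ι : Type*} [Fintype ι] [DecidableEq ι]

/-- permutation matrix acting on `(R^k)^{⊗ ι}` -/
def PM (k : ℕ) (R : Type*) [CommRing R] {ι : Type*} [Fintype ι] (σ : Equiv.Perm ι) :
    Matrix (ι → Fin k) (ι → Fin k) R :=
  Matrix.of fun r c => if c = r ∘ σ then 1 else 0

omit [DecidableEq ι] in
theorem PM_apply (σ : Equiv.Perm ι) (r c : ι → Fin k) :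
    PM k R σ r c = if c = r ∘ σ then 1 else 0 := rfl

theorem PM_mul (σ τ : Equiv.Perm ι) : PM k R σ * PM k R τ = PM k R (σ * τ) := by
  apply Matrix.ext
  intro r c
  rw [Matrix.mul_apply]
  simp only [PM_apply]
  rw [Finset.sum_eq_single (r ∘ σ)]
  · simp only [if_true, one_mul]
    rfl
  · intro b _ hb
    rw [if_neg hb, zero_mul]
  · intro h
    exact absurd (Finset.mem_univ _) h

theorem PM_one : PM k R (1 : Equiv.Perm ι) = 1 := by
  apply Matrix.ext
  intro r c
  rw [PM_apply, Matrix.one_apply]
  by_cases h : r = c
  · rw [if_pos h, if_pos]; rw [h]; rfl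
  · rw [if_neg h, if_neg]; intro h'; apply h; rw [h']; rfl

omit [DecidableEq ι] in
theorem PM_transpose (σ : Equiv.Perm ι) : (PM k R σ)ᵀ = PM k R σ⁻¹ := by
  apply Matrix.ext
  intro r c
  rw [Matrix.transpose_apply, PM_apply, PM_apply]
  congr 1
  rw [eq_iff_iff]
  constructor
  · intro h; rw [h]; funext i; simp
  · intro h; rw [h]; funext i; simp

/-- span of the permutation matrices -/
def AA (k : ℕ) (R : Type*) [CommRing R] (ι : Type*) [Fintype ι] :
    Submodule R (Matrix (ι → Fin k) (ι → Fin k) R) :=
  Submodule.span R (Set.range fun σ : Equiv.Perm ι => PM k R σ)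

omit [DecidableEq ι] in
theorem PM_mem (σ : Equiv.Perm ι) : PM k R σ ∈ AA k R ι := Submodule.subset_span ⟨σ, rfl⟩

theorem AA_mul_mem {x y : Matrix (ι → Fin k) (ι → Fin k) R} (hx : x ∈ AA k R ι)
    (hy : y ∈ AA k R ι) : x * y ∈ AA k R ι := by
  unfold AA at hx hy
  induction hx using Submodule.span_induction with
  | mem x hx =>
    obtain ⟨σ, rfl⟩ := hx
    induction hy using Submodule.span_induction with
    | mem y hy =>
      obtain ⟨τ, rfl⟩ := hy
      show PM k R σ * PM k R τ ∈ _
      rw [PM_mul]
      exact PM_mem _
    | zero => rw [mul_zero]; exact Submodule.zero_mem _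
    | add a b _ _ ha hb => rw [mul_add]; exact Submodule.add_mem _ ha hb
    | smul c a _ ha => rw [Matrix.mul_smul]; exact Submodule.smul_mem _ _ ha
  | zero => rw [zero_mul]; exact Submodule.zero_mem _
  | add a b _ _ ha hb => rw [add_mul]; exact Submodule.add_mem _ ha hb
  | smul c a _ ha => rw [Matrix.smul_mul]; exact Submodule.smul_mem _ _ ha

omit [DecidableEq ι] in
theorem AA_transpose_mem {x : Matrix (ι → Fin k) (ι → Fin k) R} (hx : x ∈ AA k R ι) :
    xᵀ ∈ AA k R ι := by
  unfold AA at hx
  induction hx using Submodule.span_induction with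
  | mem x hx =>
    obtain ⟨σ, rfl⟩ := hx
    show (PM k R σ)ᵀ ∈ _
    rw [PM_transpose]
    exact PM_mem _
  | zero => rw [Matrix.transpose_zero]; exact Submodule.zero_mem _
  | add a b _ _ ha hb => rw [Matrix.transpose_add]; exact Submodule.add_mem _ ha hb
  | smul c a _ ha => rw [Matrix.transpose_smul]; exact Submodule.smul_mem _ _ ha

/-! ### Adding a strand -/

/-- extend a word -/
def consO (t : Fin k) (r : ι → Fin k) : Option ι → Fin k := fun o => o.elim t r

omit [Fintype ι] [DecidableEq ι] in
@[simp] theorem consO_none (t : Fin k) (r : ι → Fin k) : consO t r none = t := rfl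

omit [Fintype ι] [DecidableEq ι] in
@[simp] theorem consO_some (t : Fin k) (r : ι → Fin k) (i : ι) : consO t r (some i) = r i := rfl

omit [Fintype ι] [DecidableEq ι] in
theorem consO_eta (w : Option ι → Fin k) : consO (w none) (fun i => w (some i)) = w := by
  funext o
  cases o <;> rfl

theorem sum_option_words {M : Type*} [AddCommMonoid M] (f : (Option ι → Fin k) → M) :
    ∑ w, f w = ∑ t : Fin k, ∑ r : ι → Fin k, f (consO t r) := by
  rw [← Finset.sum_product', Finset.univ_product_univ]
  apply Fintype.sum_equiv (Equiv.piOptionEquivProd (β := fun _ : Option ι => Fin k))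
  intro w
  show f w = f (consO (w none) (fun i => w (some i)))
  rw [consO_eta]

/-- partial trace over the strand `none` -/
def ptr (M : Matrix (Option ι → Fin k) (Option ι → Fin k) R) :
    Matrix (ι → Fin k) (ι → Fin k) R :=
  Matrix.of fun r c => ∑ t : Fin k, M (consO t r) (consO t c)

omit [Fintype ι] [DecidableEq ι] in
theorem ptr_apply (M : Matrix (Option ι → Fin k) (Option ι → Fin k) R) (r c : ι → Fin k) :
    ptr M r c = ∑ t : Fin k, M (consO t r) (consO t c) := rfl

/-- adding a strand -/
def emb (M : Matrix (ι → Fin k) (ι → Fin k) R) :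
    Matrix (Option ι → Fin k) (Option ι → Fin k) R :=
  Matrix.of fun r c => if r none = c none then M (fun i => r (some i)) (fun i => c (some i)) else 0

omit [Fintype ι] [DecidableEq ι] in
theorem emb_apply (M : Matrix (ι → Fin k) (ι → Fin k) R) (r c : Option ι → Fin k) :
    emb M r c = if r none = c none then M (fun i => r (some i)) (fun i => c (some i)) else 0 := rfl

omit [Fintype ι] [DecidableEq ι] in
theorem emb_add (M N : Matrix (ι → Fin k) (ι → Fin k) R) : emb (M + N) = emb M + emb N := by
  apply Matrix.ext
  intro r c
  rw [Matrix.add_apply, emb_apply, emb_apply, emb_apply]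
  split_ifs
  · rfl
  · simp

omit [Fintype ι] [DecidableEq ι] in
theorem emb_smul (a : R) (M : Matrix (ι → Fin k) (ι → Fin k) R) : emb (a • M) = a • emb M := by
  apply Matrix.ext
  intro r c
  rw [Matrix.smul_apply, emb_apply, emb_apply]
  split_ifs
  · rfl
  · simp

omit [Fintype ι] [DecidableEq ι] in
theorem ptr_add (M N : Matrix (Option ι → Fin k) (Option ι → Fin k) R) :
    ptr (M + N) = ptr M + ptr N := by
  apply Matrix.ext
  intro r c
  rw [Matrix.add_apply, ptr_apply, ptr_apply, ptr_apply, ← Finset.sum_add_distrib]
  rfl

omit [Fintype ι] [DecidableEq ι] in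
theorem ptr_smul (a : R) (M : Matrix (Option ι → Fin k) (Option ι → Fin k) R) :
    ptr (a • M) = a • ptr M := by
  apply Matrix.ext
  intro r c
  rw [Matrix.smul_apply, ptr_apply, ptr_apply, smul_eq_mul, Finset.mul_sum]
  rfl

/-- `ptr` as a linear map -/
def ptrL (k : ℕ) (R : Type*) [CommRing R] (ι : Type*) :
    Matrix (Option ι → Fin k) (Option ι → Fin k) R →ₗ[R] Matrix (ι → Fin k) (ι → Fin k) R where
  toFun := ptr
  map_add' := ptr_add
  map_smul' := ptr_smul

/-- `emb` as a linear map -/
def embL (k : ℕ) (R : Type*) [CommRing R] (ι : Type*) :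
    Matrix (ι → Fin k) (ι → Fin k) R →ₗ[R] Matrix (Option ι → Fin k) (Option ι → Fin k) R where
  toFun := emb
  map_add' := emb_add
  map_smul' := emb_smul

theorem emb_mul (M N : Matrix (ι → Fin k) (ι → Fin k) R) : emb (M * N) = emb M * emb N := by
  apply Matrix.ext
  intro r c
  rw [Matrix.mul_apply, sum_option_words]
  have e1 : ∀ (t : Fin k) (s : ι → Fin k), emb M r (consO t s) =
      if r none = t then M (fun i => r (some i)) s else 0 := by
    intro t s
    rw [emb_apply, consO_none]
    rfl
  have e2 : ∀ (t : Fin k) (s : ι → Fin k), emb N (consO t s) c =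
      if t = c none then N s (fun i => c (some i)) else 0 := by
    intro t s
    rw [emb_apply, consO_none]
    rfl
  simp only [e1, e2]
  rw [Finset.sum_eq_single (r none)]
  · rw [emb_apply]
    simp only [if_true]
    by_cases h : r none = c none
    · simp only [h, if_true]
      rw [Matrix.mul_apply]
    · simp only [h, if_false, mul_zero, Finset.sum_const_zero]
  · intro b _ hb
    apply Finset.sum_eq_zero
    intro s _
    rw [if_neg (Ne.symm hb), zero_mul]
  · intro h
    exact absurd (Finset.mem_univ _) h

omit [Fintype ι] [DecidableEq ι] in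
theorem emb_transpose (M : Matrix (ι → Fin k) (ι → Fin k) R) : emb Mᵀ = (emb M)ᵀ := by
  apply Matrix.ext
  intro r c
  rw [Matrix.transpose_apply, emb_apply, emb_apply, Matrix.transpose_apply]
  simp only [eq_comm]

omit [DecidableEq ι] in
theorem emb_PM (σ : Equiv.Perm ι) : emb (PM k R σ) = PM k R (Equiv.optionCongr σ) := by
  apply Matrix.ext
  intro r c
  rw [emb_apply, PM_apply, PM_apply]
  by_cases h : c = r ∘ (Equiv.optionCongr σ)
  · rw [if_pos h, h]
    rw [if_pos, if_pos]
    · funext i; rfl
    · rfl
  · rw [if_neg h]
    split_ifs with h1 h2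
    · exfalso
      apply h
      funext o
      cases o with
      | none => exact h1.symm
      | some i => exact congrFun h2 i
    · rfl
    · rfl

theorem trace_ptr (M : Matrix (Option ι → Fin k) (Option ι → Fin k) R) :
    (ptr M).trace = M.trace := by
  unfold Matrix.trace
  simp only [Matrix.diag_apply]
  rw [sum_option_words, Finset.sum_comm]
  rfl

theorem ptr_emb_mul (x : Matrix (ι → Fin k) (ι → Fin k) R)
    (M : Matrix (Option ι → Fin k) (Option ι → Fin k) R) : ptr (emb x * M) = x * ptr M := by
  apply Matrix.ext
  intro r c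
  rw [ptr_apply, Matrix.mul_apply]
  simp only [ptr_apply, Finset.mul_sum]
  rw [Finset.sum_comm]
  apply Finset.sum_congr rfl
  intro t _
  rw [Matrix.mul_apply, sum_option_words, Finset.sum_eq_single t]
  · simp only [emb_apply, consO_none, consO_some, if_true]
  · intro b _ hb
    apply Finset.sum_eq_zero
    intro s _
    rw [emb_apply, consO_none, consO_none, if_neg (Ne.symm hb), zero_mul]
  · intro h
    exact absurd (Finset.mem_univ _) h

theorem ptr_mul_emb (x : Matrix (ι → Fin k) (ι → Fin k) R)
    (M : Matrix (Option ι → Fin k) (Option ι → Fin k) R) : ptr (M * emb x) = ptr M * x := by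
  apply Matrix.ext
  intro r c
  rw [ptr_apply, Matrix.mul_apply]
  simp only [ptr_apply, Finset.sum_mul]
  rw [Finset.sum_comm]
  apply Finset.sum_congr rfl
  intro t _
  rw [Matrix.mul_apply, sum_option_words, Finset.sum_eq_single t]
  · simp only [emb_apply, consO_none, consO_some, if_true]
  · intro b _ hb
    apply Finset.sum_eq_zero
    intro s _
    rw [emb_apply, consO_none, consO_none, if_neg hb, mul_zero]
  · intro h
    exact absurd (Finset.mem_univ _) h

theorem trace_emb_mul (x : Matrix (ι → Fin k) (ι → Fin k) R)
    (M : Matrix (Option ι → Fin k) (Option ι → Fin k) R) :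
    (emb x * M).trace = (x * ptr M).trace := by
  rw [← trace_ptr, ptr_emb_mul]

omit [DecidableEq ι] in
theorem ptr_PM (σ : Equiv.Perm (Option ι)) :
    ptr (PM k R σ) = (if σ none = none then (k : R) else 1) • PM k R (Equiv.removeNone σ) := by
  apply Matrix.ext
  intro r c
  rw [ptr_apply, Matrix.smul_apply, PM_apply, smul_eq_mul]
  simp only [PM_apply]
  by_cases h : σ none = none
  · rw [if_pos h]
    have h1 : ∀ t : Fin k, (consO t c = consO t r ∘ σ) ↔ c = r ∘ (Equiv.removeNone σ) := by
      intro t
      have h2 : ∀ i, σ (some i) = some (Equiv.removeNone σ i) := by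
        intro i
        refine (Equiv.removeNone_some σ ?_).symm
        rcases h3 : σ (some i) with _ | j
        · exfalso
          have := σ.injective (h3.trans h.symm)
          cases this
        · exact ⟨j, rfl⟩
      constructor
      · intro h3
        funext i
        have := congrFun h3 (some i)
        simp only [consO_some, Function.comp_apply, h2] at this
        exact this
      · intro h3
        funext o
        cases o with
        | none => simp [h]
        | some i =>
          simp only [consO_some, Function.comp_apply, h2]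
          rw [h3]; rfl
    simp only [h1]
    rw [Finset.sum_const, Finset.card_univ, Fintype.card_fin, nsmul_eq_mul]
  · rw [if_neg h, one_mul]
    obtain ⟨a, ha⟩ : ∃ a, σ none = some a := Option.ne_none_iff_exists'.1 h
    have key : ∀ t : Fin k, (consO t c = consO t r ∘ σ) ↔
        (t = r a ∧ c = r ∘ (Equiv.removeNone σ)) := by
      intro t
      have h2 : ∀ i, (t = r a) →
          consO t r (σ (some i)) = r (Equiv.removeNone σ i) := by
        intro i ht
        rcases h3 : σ (some i) with _ | j
        · rw [consO_none, ht]
          congr 1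
          have h4 := Equiv.removeNone_none σ h3
          rw [ha] at h4
          exact (Option.some.inj h4).symm
        · rw [consO_some]
          congr 1
          have h4 := Equiv.removeNone_some σ (x := i) ⟨j, h3⟩
          rw [h3] at h4
          exact (Option.some.inj h4).symm
      constructor
      · intro h3
        have h4 : t = r a := by
          have := congrFun h3 none
          simp only [consO_none, Function.comp_apply, ha, consO_some] at this
          exact this
        refine ⟨h4, ?_⟩
        funext i
        have := congrFun h3 (some i)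
        simp only [consO_some, Function.comp_apply] at this
        rw [this, h2 i h4]; rfl
      · rintro ⟨h3, h4⟩
        funext o
        cases o with
        | none => simp [ha, h3]
        | some i =>
          simp only [consO_some, Function.comp_apply]
          rw [h2 i h3, h4]; rfl
    simp only [key]
    by_cases hc : c = r ∘ (Equiv.removeNone σ)
    · rw [if_pos hc]
      simp [hc]
    · rw [if_neg hc]
      simp [hc]

omit [DecidableEq ι] in
theorem ptr_mem {x : Matrix (Option ι → Fin k) (Option ι → Fin k) R}
    (hx : x ∈ AA k R (Option ι)) : ptr x ∈ AA k R ι := by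
  unfold AA at hx
  induction hx using Submodule.span_induction with
  | mem x hx =>
    obtain ⟨σ, rfl⟩ := hx
    show ptr (PM k R σ) ∈ _
    rw [ptr_PM]
    exact Submodule.smul_mem _ _ (PM_mem _)
  | zero =>
    have : ptr (0 : Matrix (Option ι → Fin k) (Option ι → Fin k) R) = 0 :=
      (ptrL k R ι).map_zero
    rw [this]
    exact Submodule.zero_mem _
  | add a b _ _ ha hb => rw [ptr_add]; exact Submodule.add_mem _ ha hb
  | smul c a _ ha => rw [ptr_smul]; exact Submodule.smul_mem _ _ ha

omit [DecidableEq ι] in
theorem emb_mem {x : Matrix (ι → Fin k) (ι → Fin k) R}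
    (hx : x ∈ AA k R ι) : emb x ∈ AA k R (Option ι) := by
  unfold AA at hx
  induction hx using Submodule.span_induction with
  | mem x hx =>
    obtain ⟨σ, rfl⟩ := hx
    show emb (PM k R σ) ∈ _
    rw [emb_PM]
    exact PM_mem _
  | zero =>
    have : emb (0 : Matrix (ι → Fin k) (ι → Fin k) R) = 0 := (embL k R ι).map_zero
    rw [this]
    exact Submodule.zero_mem _
  | add a b _ _ ha hb => rw [emb_add]; exact Submodule.add_mem _ ha hb
  | smul c a _ ha => rw [emb_smul]; exact Submodule.smul_mem _ _ ha

/-- the swap of the two extra strands -/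
def SS (k : ℕ) (R : Type*) [CommRing R] (ι : Type*) [Fintype ι] [DecidableEq ι] :
    Matrix (Option (Option ι) → Fin k) (Option (Option ι) → Fin k) R :=
  PM k R (Equiv.swap none (some none))

theorem SS_mul_apply (M : Matrix (Option (Option ι) → Fin k) (Option (Option ι) → Fin k) R)
    (r c : Option (Option ι) → Fin k) :
    (SS k R ι * M) r c = M (r ∘ (Equiv.swap none (some none))) c := by
  rw [Matrix.mul_apply]
  unfold SS
  simp only [PM_apply]
  rw [Finset.sum_eq_single (r ∘ (Equiv.swap none (some none)))]
  · simp
  · intro b _ hb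
    rw [if_neg hb, zero_mul]
  · intro h
    exact absurd (Finset.mem_univ _) h

theorem mul_SS_apply (M : Matrix (Option (Option ι) → Fin k) (Option (Option ι) → Fin k) R)
    (r c : Option (Option ι) → Fin k) :
    (M * SS k R ι) r c = M r (c ∘ (Equiv.swap none (some none))) := by
  rw [Matrix.mul_apply]
  unfold SS
  simp only [PM_apply]
  rw [Finset.sum_eq_single (c ∘ (Equiv.swap none (some none)))]
  · rw [if_pos, mul_one]
    funext o; simp
  · intro b _ hb
    rw [if_neg, mul_zero]
    intro h
    apply hb
    rw [h]
    funext o; simp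
  · intro h
    exact absurd (Finset.mem_univ _) h

theorem ptr_SS (w : Matrix (Option ι → Fin k) (Option ι → Fin k) R) :
    ptr (SS k R ι * emb w * SS k R ι) = emb (ptr w) := by
  apply Matrix.ext
  intro r c
  rw [ptr_apply, emb_apply, ptr_apply]
  simp only [mul_SS_apply, SS_mul_apply]
  simp only [emb_apply, Function.comp_apply, Equiv.swap_apply_left, consO_some]
  have h1 : ∀ (t : Fin k) (r : Option ι → Fin k),
      (fun i => consO t r ((Equiv.swap none (some none)) (some i))) =
        consO t (fun i => r (some i)) := by
    intro t r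
    funext o
    cases o with
    | none => simp
    | some i =>
      rw [Equiv.swap_apply_of_ne_of_ne (by simp) (by simp)]
      simp
  simp only [h1]
  split_ifs
  · rfl
  · simp

end Basic

end Pool.Agent.V119.CC
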